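import Pool.Agent.RepCube.Defs

namespace Pool.Agent.RepCube

open Set

theorem fin3_cases {i j k : Fin 3} (h1 : i ≠ j) (h2 : j ≠ k) (h3 : i ≠ k) (m : Fin 3) :
    m = i ∨ m = j ∨ m = k := by
  revert i j k m
  decide

theorem sum_fin3 {i j k : Fin 3} (h1 : i ≠ j) (h2 : j ≠ k) (h3 : i ≠ k) (f : Fin 3 → ℝ) :
    ∑ m, f m = f i + f j + f k := by
  have : (Finset.univ : Finset (Fin 3)) = {i, j, k} := by
    ext m
    simpa using fin3_cases h1 h2 h3 m
  rw [this, Finset.sum_insert, Finset.sum_insert, Finset.sum_singleton]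
  · ring
  · simpa using h2
  · simpa using ⟨h1, h3⟩

namespace CNet

variable {P : Finset Cell} {n : ℤ}

theorem dist_aff (N : CNet P n) {c : Cell} (hc : c ∈ P) (x y : E2) :
    dist (N.aff c x) (N.aff c y) = dist x y := by
  obtain ⟨i, j, k, h1, h2, h3, -, ui, vi, uj, uk, vj, vk, -⟩ := N.valid c hc
  rw [EuclideanSpace.dist_eq, EuclideanSpace.dist_eq]
  congr 1
  rw [sum_fin3 h1 h2 h3, Fin.sum_univ_two]
  simp only [Real.dist_eq, sq_abs, aff_apply, ui, vi, uk, vj]
  rcases uj with uj | uj <;> rcases vk with vk | vk <;> rw [uj, vk] <;> push_cast <;> ring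

theorem mem_surf (N : CNet P n) {m : ℕ} (hm : n = m) {c : Cell} (hc : c ∈ P) {x : E2}
    (hx : x ∈ sq c) : N.aff c x ∈ cubeSurface m := by
  obtain ⟨i, j, k, h1, h2, h3, hp, ui, vi, uj, uk, vj, vk, a1, a2, a3, a4, b1, b2, b3, b4⟩ :=
    N.valid c hc
  obtain ⟨x1, x2, x3, x4⟩ := hx
  subst hm
  have ei : N.aff c x i = N.p c i := by rw [aff_apply, ui, vi]; push_cast; ring
  have ej : N.aff c x j = N.p c j + (x 0 - c.1) * N.u c j := by
    rw [aff_apply, vj]; push_cast; ring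
  have ek : N.aff c x k = N.p c k + (x 1 - c.2) * N.v c k := by
    rw [aff_apply, uk]; push_cast; ring
  have a1' : (0 : ℝ) ≤ N.p c j := by exact_mod_cast a1
  have a2' : (N.p c j : ℝ) ≤ m := by exact_mod_cast a2
  have a3' : (0 : ℝ) ≤ N.p c j + N.u c j := by exact_mod_cast a3
  have a4' : (N.p c j + N.u c j : ℝ) ≤ m := by exact_mod_cast a4
  have b1' : (0 : ℝ) ≤ N.p c k := by exact_mod_cast b1
  have b2' : (N.p c k : ℝ) ≤ m := by exact_mod_cast b2
  have b3' : (0 : ℝ) ≤ N.p c k + N.v c k := by exact_mod_cast b3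
  have b4' : (N.p c k + N.v c k : ℝ) ≤ m := by exact_mod_cast b4
  have gj : 0 ≤ N.aff c x j ∧ N.aff c x j ≤ m := by
    rw [ej]
    rcases uj with uj | uj <;> rw [uj] at a3' a4' ⊢ <;> push_cast at a3' a4' ⊢ <;>
      constructor <;> nlinarith
  have gk : 0 ≤ N.aff c x k ∧ N.aff c x k ≤ m := by
    rw [ek]
    rcases vk with vk | vk <;> rw [vk] at b3' b4' ⊢ <;> push_cast at b3' b4' ⊢ <;>
      constructor <;> nlinarith
  have gi : N.aff c x i = 0 ∨ N.aff c x i = m := by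
    rw [ei]
    rcases hp with hp | hp <;> rw [hp]
    · left; norm_num
    · right; norm_num
  refine ⟨fun t => ?_, i, gi⟩
  rcases fin3_cases h1 h2 h3 t with rfl | rfl | rfl
  · rcases gi with g | g <;> rw [g]
    · exact ⟨le_rfl, Nat.cast_nonneg m⟩
    · exact ⟨Nat.cast_nonneg m, le_rfl⟩
  · exact gj
  · exact gk

theorem exists_floor {m : ℕ} (hm : 0 < m) {t : ℝ} (h0 : 0 ≤ t) (h1 : t ≤ m) :
    ∃ s : ℤ, 0 ≤ s ∧ s < m ∧ (s : ℝ) ≤ t ∧ t ≤ s + 1 := by
  rcases lt_or_eq_of_le h1 with h | h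
  · refine ⟨⌊t⌋, Int.floor_nonneg.2 h0, ?_, Int.floor_le t, (Int.lt_floor_add_one t).le⟩
    rw [Int.floor_lt]
    exact_mod_cast h
  · refine ⟨(m : ℤ) - 1, by omega, by omega, ?_, ?_⟩
    · rw [h]; push_cast; linarith
    · rw [h]; push_cast; linarith

theorem surj (N : CNet P n) {m : ℕ} (hm : n = m) (hm0 : 0 < m) {q : E3}
    (hq : q ∈ cubeSurface m) : ∃ c ∈ P, ∃ x ∈ sq c, N.aff c x = q := by
  obtain ⟨hq1, i, hi⟩ := hq
  obtain ⟨j, k, h1, h2, h3⟩ : ∃ j k : Fin 3, i ≠ j ∧ j ≠ k ∧ i ≠ k := by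
    have key : ∀ i : Fin 3, ∃ j k : Fin 3, i ≠ j ∧ j ≠ k ∧ i ≠ k := by decide
    exact key i
  obtain ⟨s, s0, s1, s2, s3⟩ := exists_floor hm0 (hq1 j).1 (hq1 j).2
  obtain ⟨t, t0, t1, t2, t3⟩ := exists_floor hm0 (hq1 k).1 (hq1 k).2
  obtain ⟨a, ha, hqa⟩ : ∃ a : ℤ, (a = 0 ∨ a = n) ∧ q i = a := by
    rcases hi with h | h
    · exact ⟨0, Or.inl rfl, by rw [h]; norm_num⟩
    · exact ⟨n, Or.inr rfl, by rw [h, hm]; norm_num⟩
  obtain ⟨c, hc, c1, c2, c3⟩ := N.cov i j k h1 h2 h3 a s t ha s0 (hm ▸ s1) t0 (hm ▸ t1)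
  obtain ⟨i', j', k', h1', h2', h3', hp, ui, vi, uj, uk, vj, vk, -⟩ := N.valid c hc
  have c1' : 2 * N.p c i + N.u c i + N.v c i = 2 * a := c1
  have c2' : 2 * N.p c j + N.u c j + N.v c j = 2 * s + 1 := c2
  have c3' : 2 * N.p c k + N.u c k + N.v c k = 2 * t + 1 := c3
  have hii : i' = i := by
    rcases fin3_cases h1 h2 h3 i' with h | h | h
    · exact h
    · exfalso; rw [h] at ui vi; rw [ui, vi] at c2'; omega
    · exfalso; rw [h] at ui vi; rw [ui, vi] at c3'; omega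
  subst hii
  refine ⟨c, hc, WithLp.toLp 2 ![(c.1 : ℝ) + (q j' - N.p c j') * N.u c j',
    (c.2 : ℝ) + (q k' - N.p c k') * N.v c k'], ?_, ?_⟩
  · have hj : (N.p c j' : ℝ) ≤ q j' ∧ q j' ≤ N.p c j' + 1 ∧ N.u c j' = 1 ∨
        (N.p c j' : ℝ) - 1 ≤ q j' ∧ q j' ≤ N.p c j' ∧ N.u c j' = -1 := by
      rcases fin3_cases h1 h2 h3 j' with h | h | h
      · exact absurd h.symm h1'
      · subst h
        rcases uj with uj | uj <;> rw [uj, vj] at c2'
        · left
          have e : N.p c j' = s := by omega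
          rw [e]; exact ⟨s2, s3, uj⟩
        · right
          have e : N.p c j' = s + 1 := by omega
          rw [e]; push_cast; exact ⟨by linarith, s3, uj⟩
      · subst h
        rcases uj with uj | uj <;> rw [uj, vj] at c3'
        · left
          have e : N.p c j' = t := by omega
          rw [e]; exact ⟨t2, t3, uj⟩
        · right
          have e : N.p c j' = t + 1 := by omega
          rw [e]; push_cast; exact ⟨by linarith, t3, uj⟩
    have hk : (N.p c k' : ℝ) ≤ q k' ∧ q k' ≤ N.p c k' + 1 ∧ N.v c k' = 1 ∨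
        (N.p c k' : ℝ) - 1 ≤ q k' ∧ q k' ≤ N.p c k' ∧ N.v c k' = -1 := by
      rcases fin3_cases h1 h2 h3 k' with h | h | h
      · exact absurd h.symm h3'
      · subst h
        rcases vk with vk | vk <;> rw [uk, vk] at c2'
        · left
          have e : N.p c k' = s := by omega
          rw [e]; exact ⟨s2, s3, vk⟩
        · right
          have e : N.p c k' = s + 1 := by omega
          rw [e]; push_cast; exact ⟨by linarith, s3, vk⟩
      · subst h
        rcases vk with vk | vk <;> rw [uk, vk] at c3'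
        · left
          have e : N.p c k' = t := by omega
          rw [e]; exact ⟨t2, t3, vk⟩
        · right
          have e : N.p c k' = t + 1 := by omega
          rw [e]; push_cast; exact ⟨by linarith, t3, vk⟩
    refine ⟨?_, ?_, ?_, ?_⟩
    · show (c.1 : ℝ) ≤ c.1 + (q j' - N.p c j') * N.u c j'
      rcases hj with ⟨a1, a2, a3⟩ | ⟨a1, a2, a3⟩ <;> rw [a3] <;> push_cast <;> linarith
    · show (c.1 : ℝ) + (q j' - N.p c j') * N.u c j' ≤ c.1 + 1
      rcases hj with ⟨a1, a2, a3⟩ | ⟨a1, a2, a3⟩ <;> rw [a3] <;> push_cast <;> linarith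
    · show (c.2 : ℝ) ≤ c.2 + (q k' - N.p c k') * N.v c k'
      rcases hk with ⟨a1, a2, a3⟩ | ⟨a1, a2, a3⟩ <;> rw [a3] <;> push_cast <;> linarith
    · show (c.2 : ℝ) + (q k' - N.p c k') * N.v c k' ≤ c.2 + 1
      rcases hk with ⟨a1, a2, a3⟩ | ⟨a1, a2, a3⟩ <;> rw [a3] <;> push_cast <;> linarith
  · ext m
    rw [aff_apply]
    show (N.p c m : ℝ) + ((c.1 : ℝ) + (q j' - N.p c j') * N.u c j' - c.1) * N.u c m +
      ((c.2 : ℝ) + (q k' - N.p c k') * N.v c k' - c.2) * N.v c m = q m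
    rcases fin3_cases h1' h2' h3' m with rfl | rfl | rfl
    · rw [ui, vi] at c1' ⊢
      have e : N.p c m = a := by omega
      rw [e, hqa]; push_cast; ring
    · rw [vj]
      rcases uj with uj | uj <;> rw [uj] <;> push_cast <;> ring
    · rw [uk]
      rcases vk with vk | vk <;> rw [vk] <;> push_cast <;> ring

theorem open_sub (c : Cell) : osq c ⊆ sq c := fun _ ⟨h1, h2, h3, h4⟩ =>
  ⟨h1.le, h2.le, h3.le, h4.le⟩

/-- The centre of the image of a cell is determined by the image of any point of the open cell. -/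
theorem ctr_of (N : CNet P n) {c : Cell} (hc : c ∈ P) {x : E2} (hx : x ∈ osq c) (m : Fin 3) :
    (∃ a : ℤ, N.aff c x m = a ∧ ctr (N.p c) (N.u c) (N.v c) m = 2 * a) ∨
    (∃ a : ℤ, (a : ℝ) < N.aff c x m ∧ N.aff c x m < a + 1 ∧
      ctr (N.p c) (N.u c) (N.v c) m = 2 * a + 1) := by
  obtain ⟨i, j, k, h1, h2, h3, -, ui, vi, uj, uk, vj, vk, -⟩ := N.valid c hc
  obtain ⟨x1, x2, x3, x4⟩ := hx
  rcases fin3_cases h1 h2 h3 m with rfl | rfl | rfl
  · left
    refine ⟨N.p c m, ?_, ?_⟩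
    · rw [aff_apply, ui, vi]; push_cast; ring
    · simp [ctr, ui, vi]
  · right
    rcases uj with uj | uj
    · refine ⟨N.p c m, ?_, ?_, ?_⟩
      · rw [aff_apply, uj, vj]; push_cast; linarith
      · rw [aff_apply, uj, vj]; push_cast; linarith
      · simp [ctr, uj, vj]
    · refine ⟨N.p c m - 1, ?_, ?_, ?_⟩
      · rw [aff_apply, uj, vj]; push_cast; linarith
      · rw [aff_apply, uj, vj]; push_cast; linarith
      · simp only [ctr, uj, vj]; ring
  · right
    rcases vk with vk | vk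
    · refine ⟨N.p c m, ?_, ?_, ?_⟩
      · rw [aff_apply, uk, vk]; push_cast; linarith
      · rw [aff_apply, uk, vk]; push_cast; linarith
      · simp [ctr, uk, vk]
    · refine ⟨N.p c m - 1, ?_, ?_, ?_⟩
      · rw [aff_apply, uk, vk]; push_cast; linarith
      · rw [aff_apply, uk, vk]; push_cast; linarith
      · simp only [ctr, uk, vk]; ring

theorem ctr_unique {t : ℝ} {z w : ℤ}
    (h : (∃ a : ℤ, t = a ∧ z = 2 * a) ∨ (∃ a : ℤ, (a : ℝ) < t ∧ t < a + 1 ∧ z = 2 * a + 1))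
    (h' : (∃ a : ℤ, t = a ∧ w = 2 * a) ∨ (∃ a : ℤ, (a : ℝ) < t ∧ t < a + 1 ∧ w = 2 * a + 1)) :
    z = w := by
  rcases h with ⟨a, h1, h2⟩ | ⟨a, h1, h2, h3⟩ <;> rcases h' with ⟨b, g1, g2⟩ | ⟨b, g1, g2, g3⟩
  · have : a = b := by exact_mod_cast h1.symm.trans g1
    rw [h2, g2, this]
  · exfalso
    rw [h1] at g1 g2
    have e1 : b < a := by exact_mod_cast g1
    have e2 : a < b + 1 := by exact_mod_cast g2
    omega
  · exfalso
    rw [g1] at h1 h2
    have e1 : a < b := by exact_mod_cast h1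
    have e2 : b < a + 1 := by exact_mod_cast h2
    omega
  · have e1 : a < b + 1 := by
      have : (a : ℝ) < ((b + 1 : ℤ) : ℝ) := by push_cast; linarith
      exact_mod_cast this
    have e2 : b < a + 1 := by
      have : (b : ℝ) < ((a + 1 : ℤ) : ℝ) := by push_cast; linarith
      exact_mod_cast this
    have : a = b := by omega
    rw [h3, g3, this]

/-- A combinatorial net is a net. -/
theorem isNet (N : CNet P n) {m : ℕ} (hm : n = m) (hm0 : 0 < m) (hP : IsPolyomino P) :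
    IsNet P m := by
  refine ⟨hP, N.fold, N.continuousOn_fold, ?_, ?_, ?_⟩
  · apply Set.Subset.antisymm
    · rintro _ ⟨x, hx, rfl⟩
      simp only [region, mem_iUnion, exists_prop] at hx
      obtain ⟨c, hc, hx⟩ := hx
      rw [N.fold_eq hc hx]
      exact N.mem_surf hm hc hx
    · intro q hq
      obtain ⟨c, hc, x, hx, e⟩ := N.surj hm hm0 hq
      refine ⟨x, ?_, ?_⟩
      · simp only [region, mem_iUnion, exists_prop]
        exact ⟨c, hc, hx⟩
      · rw [N.fold_eq hc hx, e]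
  · intro c hc x hx y hy
    rw [N.fold_eq hc hx, N.fold_eq hc hy, N.dist_aff hc]
  · intro x hx y hy hxy
    simp only [openCells, mem_iUnion, exists_prop] at hx hy
    obtain ⟨c, hc, hx⟩ := hx
    obtain ⟨d, hd, hy⟩ := hy
    rw [N.fold_eq hc (open_sub c hx), N.fold_eq hd (open_sub d hy)] at hxy
    have hcd : c = d := by
      apply N.inj c hc d hd
      funext i
      have h1 := N.ctr_of hc hx i
      have h2 := N.ctr_of hd hy i
      rw [← hxy] at h2
      exact ctr_unique h1 h2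
    subst hcd
    have h := N.dist_aff hc x y
    rw [hxy, dist_self] at h
    exact dist_eq_zero.1 h.symm

end CNet

end Pool.Agent.RepCube
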