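import Pool.Agent.RepCube.Glue

/-!
# Chain of length 4
-/

namespace Pool.Agent.RepCube

/-- A chain. -/
def D4_2 : Win × List (Tls × Win) := (
  [(0x300e03c0380700e00c00800, 0x80103783f83f03f03f07f), (0x300e07c0f81f01e00c00800,
      0x1ec1f83f03f03f07f), (0x200c0780700e00c00800, 0x200600c0780301f03e07e0ff0ff0ff)], [
  ([([(6, -11, -11), (6, -8, -8)],
     [(9, -2, -4), (17, -8, -1), (56, -11, 0)]),
    ([(6, -11, -11), (6, -8, -8), (23, -4, -3), (30, 0, -1), (42, -3, -2)],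
     [(17, -8, -1), (51, -3, -5), (56, -11, 0)]),
    ([(3, -1, -3), (6, -11, -11), (6, -8, -8), (48, -2, -8)],
     [(18, -5, -5), (56, -11, 0)])],
   [(0x40180100200401801, 0x60040180386f07f0fe1fe), (0x100600600e01e41b83706e00c01801,
      0x803c3f83f0fe1fe), (0x200e00640180300200401801, 0x400c0180f00783f07f0fe1fe)]),
  ([([(6, -6, -7), (17, -5, -7), (25, -2, -4), (48, -2, -9)],
     [(17, -9, -9), (17, -7, 1), (46, -1, -4), (56, -12, 0)]),
    ([(0, -6, -6), (48, -2, -9)],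
     [(8, -4, -2), (17, -9, -9), (29, -7, 0), (33, -2, 0), (56, -12, 0)]),
    ([(1, -2, -3), (8, -6, -6), (18, -6, -7), (18, -6, -4), (48, -2, -9), (53, -1, 0)],
     [(0, -2, -1), (17, -9, -9), (17, -7, 1), (51, -5, -1), (56, -12, 0)])],
   [(0x100f00580300e00c00800, 0x200e03c008031073de3ff), (0x80300300700f80f01e03c03800,
      0x603c01c00901fb7f3ff), (0x400803907f01f81f01e03c03800, 0x100280581f03e1ff3fe3ff)]),
  ([([(6, -10, -10), (6, -7, -7), (15, -4, -1), (48, -2, -10), (54, -4, -4), (62, -2, -3)],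
     [(12, -7, -2), (19, -7, -7), (27, -2, -1), (33, -6, -4), (39, -4, 1), (62, -5, -2)]),
    ([(6, -10, -10), (19, -3, -3), (48, -2, -10)],
     [(4, -5, -7), (8, -5, -4), (24, -7, -1)]),
    ([(6, -10, -10), (18, -1, -3), (42, 0, -1), (48, -2, -10)],
     [(17, -1, -4), (19, -7, -7), (43, -5, -6)])],
   [(0x801e8ff8fe06001c01801, 0x803e479c67cff8ffbff), (0x140380780780f00600c01801,
      0xe07f03f83fbff), (0x180780700f01e83f80f00e00c01801, 0x200600602405e0bc3f87fbff)]),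
  ([([(2, -2, -1), (48, -2, -11), (59, -6, -8)],
     [(1, -2, -2), (16, -1, -1), (17, -11, -11), (19, -1, -2), (30, -8, 1), (48, -5, -4)]),
    ([(38, -1, -4), (48, -2, -11)],
     [(17, -11, -11), (60, -8, -1)]),
    ([(48, -2, -11)],
     [(17, -11, -11), (21, -7, -1), (22, -1, -3), (37, -8, 1), (41, -5, -4)])],
   [(0x807403f07f07e03c01800, 0x200c03c0381f01e07f8ff9fffff), (0x401c01a03c0380300600000000,
      0x1c0fe0ff), (0xc03c0380780f01f00600400000, 0x200600c03c03c0781fcfffff)])])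

theorem D4_2_ok : walkNN 4 2 D4_2.1 D4_2.2 = true := by decide +kernel

end Pool.Agent.RepCube
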