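import Pool.Agent.RepCube.Glue

/-!
# The family F0
-/

namespace Pool.Agent.RepCube

/-- Windows of the chain. -/
def F0_T : List Win := [
  [(0x403c0f80f00e00c00800, 0x405d1bf), (0x403c0f80f00e00c00800, 0x405d1bf),
      (0x403c0f80f00e00c00800, 0x405d1bf)],
  [(0x601e07e0fc1f81f01e01c01801, 0x80180780f0be), (0x601e07e0fc1f81f01e01c01801,
      0x80180780f0be), (0x601e07e0fc1f81f01e01c01801, 0x80180780f0be)],
  [(0x304e3fc0f80f00e00c00800, 0x200400c0cd0ff0ff0ff), (0x304e3fc0f80f00e00c00800,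
      0x200400c0cd0ff0ff0ff), (0x304e3fc0f80f00e00c00800, 0x200400c0cd0ff0ff0ff)],
  [(0x241f81f01e01c01801, 0x400801819a1fe), (0x241f81f01e01c01801, 0x400801819a1fe),
      (0x241f81f01e01c01801, 0x400801819a1fe)],
  [(0x180f00e00c00800, 0x100700f07e1bc03c1fd), (0x180f00e00c00800, 0x100700f07e1bc03c1fd),
      (0x180f00e00c00800, 0x100700f07e1bc03c1fd)],
  [(0x80781f01e01c01801, 0x200e01e0fe3fe), (0x80781f01e01c01801, 0x200e01e0fe3fe),
      (0x80781f01e01c01801, 0x200e01e0fe3fe)]]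

/-- Windows of the nets. -/
def F0_B : List Win := [
  [(0x1003403807c0780f00e00c00800, 0x100781f01f0ff1ff), (0x400c03c07c0f80700e00c00800,
      0x80380f00701f07f1ff), (0xb83fc0f80700e00c00800, 0x200600e03c0380f00f81f03f0ff1ff)],
  [(0x201c07807c0f81f01e01c01801, 0x100600700600e00e0fe1fe), (0x601c07c07c3f83f03e01c01801,
      0x300380700600600e07e1fe), (0x100600420fe1fc0f81f01e01c01801, 0x400c01c03e03e0fe)],
  [(0x1003b0fe0fc0f81f00e00c00800, 0x100700f03f03f07f), (0x300f63e77c3f81f03e00c00800,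
      0x300701f00e00f00f01f07f), (0x303e1fc0f80f00e00c00800, 0xc00e01c03f03f07f)],
  [(0x301f03e43f81f01e01c01801, 0x601e0fe1fe1fe), (0x241f81f01e01c01801,
      0x601c01c03e03e0fe1fe1fe), (0x241f81f01e01c01801, 0x601c01c03e03e0fe1fe1fe)],
  [(0x801e00c01d81f03e07c03800, 0xe07f1ff1ff3ff), (0x40380781f01f81f00e00c00800,
      0x30020060040381fc3ff), (0x440db0fe3fc7f81f00e00c00800, 0x600600703f03f07f)],
  [(0x600780f81f81f01e01c01801, 0x100200e01e03e0fe3fe), (0x80380780700e01c01801,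
      0x381f00e03e03e03e0fe3fe), (0x401e80f81f81f01e01c01801, 0x80580f83f03e0fe3fe)]]

/-- Tiles of the chain. -/
def F0_tT : List Tls := [
  [([(6, -9, -9), (6, -6, -6), (17, -1, -6), (48, -3, -5), (48, -2, -12), (48, -2, -4), (56, -1,
      -3)],
     [(17, -7, -6), (17, -5, -6), (40, -8, -3), (56, -9, 0)]),
    ([(6, -9, -9), (6, -6, -6), (17, -1, -6), (48, -3, -5), (48, -2, -12), (48, -2, -4), (56, -1,
      -3)],
     [(17, -7, -6), (17, -5, -6), (40, -8, -3), (56, -9, 0)]),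
    ([(6, -9, -9), (6, -6, -6), (17, -1, -6), (48, -3, -5), (48, -2, -12), (48, -2, -4), (56, -1,
      -3)],
     [(17, -7, -6), (17, -5, -6), (40, -8, -3), (56, -9, 0)])],
  [([(11, -2, -2)],
     [(17, -10, -10), (17, -8, -2), (19, -4, -1), (29, -5, 0), (35, -6, -3), (40, -7, -4), (56,
      -10, 0)]),
    ([(11, -2, -2)],
     [(17, -10, -10), (17, -8, -2), (19, -4, -1), (29, -5, 0), (35, -6, -3), (40, -7, -4), (56,
      -10, 0)]),
    ([(11, -2, -2)],
     [(17, -10, -10), (17, -8, -2), (19, -4, -1), (29, -5, 0), (35, -6, -3), (40, -7, -4), (56,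
      -10, 0)])],
  [([(6, -11, -11), (6, -8, -8), (6, -5, -5)],
     [(56, -11, 0)]),
    ([(6, -11, -11), (6, -8, -8), (6, -5, -5)],
     [(56, -11, 0)]),
    ([(6, -11, -11), (6, -8, -8), (6, -5, -5)],
     [(56, -11, 0)])],
  [([(48, -2, -9)],
     [(2, -7, -2), (3, -2, -3), (17, -9, -9), (17, -7, -5), (45, -4, 0), (47, -4, -3), (56, -12,
      0)]),
    ([(48, -2, -9)],
     [(2, -7, -2), (3, -2, -3), (17, -9, -9), (17, -7, -5), (45, -4, 0), (47, -4, -3), (56, -12,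
      0)]),
    ([(48, -2, -9)],
     [(2, -7, -2), (3, -2, -3), (17, -9, -9), (17, -7, -5), (45, -4, 0), (47, -4, -3), (56, -12,
      0)])],
  [([(6, -10, -10), (6, -7, -7), (45, -4, -6), (45, -3, -5), (48, -2, -10)],
     [(17, -8, -7), (50, -8, -1)]),
    ([(6, -10, -10), (6, -7, -7), (45, -4, -6), (45, -3, -5), (48, -2, -10)],
     [(17, -8, -7), (50, -8, -1)]),
    ([(6, -10, -10), (6, -7, -7), (45, -4, -6), (45, -3, -5), (48, -2, -10)],
     [(17, -8, -7), (50, -8, -1)])],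
  [([(45, -3, -6), (45, -2, -5), (48, -2, -11)],
     [(17, -11, -11), (17, -8, -8), (56, -8, 0)]),
    ([(45, -3, -6), (45, -2, -5), (48, -2, -11)],
     [(17, -11, -11), (17, -8, -8), (56, -8, 0)]),
    ([(45, -3, -6), (45, -2, -5), (48, -2, -11)],
     [(17, -11, -11), (17, -8, -8), (56, -8, 0)])]]

/-- Tiles of the nets. -/
def F0_tB : List Tls := [
  [([(6, -9, -9), (6, -6, -6), (9, -3, -3), (37, -1, -4), (47, -2, -6), (48, -2, -12)],
     [(14, -4, -3), (16, -2, -1), (17, -7, -6), (37, -8, -3), (49, -6, -2), (57, -9, 0)]),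
    ([(3, -1, -6), (6, -9, -9), (6, -6, -6), (44, -2, -4), (48, -2, -12), (48, 0, -4), (55, -4,
      -4)],
     [(9, -3, -3), (17, -7, -6), (18, -2, -1), (37, -8, -3), (57, -9, 0), (63, -6, -3)]),
    ([(6, -9, -9), (6, -6, -6), (7, 0, -1), (11, -1, -6), (25, -2, -3), (48, -3, -5), (48, -2,
      -12)],
     [(17, -7, -6), (17, -4, -2), (31, -6, -2), (40, -8, -3), (56, -9, 0)])],
  [([(42, -3, -3), (47, 0, -3)],
     [(3, -3, -4), (17, -10, -10), (32, -7, -2), (54, -5, -4), (56, -10, 0), (58, -8, -4)]),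
    ([(7, -4, -3), (15, -2, 0), (48, 0, -5)],
     [(3, -2, -1), (6, -1, -2), (12, -4, -4), (17, -10, -10), (56, -10, 0), (58, -8, -4), (58,
      -7, -3)]),
    ([(33, -2, -3)],
     [(17, -10, -10), (32, -7, -2), (54, -5, -4), (54, -3, -2), (56, -10, 0), (58, -8, -4)])],
  [([(6, -11, -11), (6, -8, -8), (6, -5, -5), (63, -2, -3), (63, -1, -2)],
     [(2, -5, -1), (17, -5, -4), (56, -11, 0)]),
    ([(6, -11, -11), (6, -8, -8), (6, -5, -5)],
     [(2, -5, -1), (17, -5, -4), (18, -3, 1), (18, -2, 0), (56, -11, 0)]),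
    ([(6, -11, -11), (6, -8, -8), (6, -5, -5)],
     [(2, -5, -1), (17, -5, -4), (18, -3, 1), (18, -2, 0), (56, -11, 0)])],
  [([(3, -6, -5), (27, -1, -2), (38, -4, -3), (48, -2, -9)],
     [(2, -7, -2), (17, -9, -9), (17, -7, -5), (17, -6, -6), (44, -4, -3), (44, -3, -2), (54, -6,
      0), (56, -12, 0)]),
    ([(16, -3, -2), (18, -2, -3), (19, -2, -4), (48, -2, -9)],
     [(2, -7, -2), (17, -9, -9), (18, -3, -2), (29, -7, -6), (56, -12, 0), (63, -6, -1)]),
    ([(8, -1, -1), (13, -3, -2), (34, -1, -3), (45, -2, -6), (48, -2, -9), (63, -1, -6)],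
     [(6, -3, -3), (9, -7, -2), (17, -9, -9), (17, -7, -5), (17, -6, -6), (56, -12, 0)])],
  [([(6, -10, -10), (6, -7, -7), (6, -4, -4), (6, -3, -5), (17, -3, -6), (48, -2, -10), (54, -1,
      -3)],
     [(17, -8, -7), (40, -4, -1), (50, -8, -1)]),
    ([(3, -2, -6), (6, -10, -10), (6, -7, -7), (48, -2, -10), (54, -4, -6)],
     [(17, -8, -7), (34, -3, 0), (40, -4, -1), (44, 0, -1), (50, -8, -1)]),
    ([(3, -2, -6), (6, -10, -10), (6, -7, -7), (16, -4, -3), (26, -1, -2), (48, -2, -10), (54,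
      -4, -6)],
     [(17, -8, -7), (17, -3, -4), (35, -4, -1), (50, -8, -1)])],
  [([(31, -1, -3), (45, -3, -6), (48, -2, -11), (53, -2, -5)],
     [(16, -5, -5), (17, -11, -11), (17, -8, -8), (34, -6, -2), (46, -3, -3), (57, -8, 0)]),
    ([(5, -1, -4), (17, -2, -6), (27, -3, -5), (48, -2, -11)],
     [(17, -11, -11), (17, -8, -8), (17, -5, -5), (40, -6, -2), (46, -2, -3), (56, -8, 0)]),
    ([(1, -1, -6), (12, -2, -2), (48, -2, -11), (52, -3, -6)],
     [(0, -2, -3), (16, -5, -5), (16, -1, -1), (17, -11, -11), (17, -8, -8), (31, 1, -2), (32,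
      -4, -1), (34, -6, -2), (57, -8, 0)])]]

theorem F0_okT : perStep F0_T F0_T F0_tT = true := by decide +kernel

theorem F0_okB : perStep F0_T F0_B F0_tB = true := by decide +kernel

theorem F0_okN : perNet F0_B = true := by decide +kernel

/-- The chain with its nets. -/
def F0 : Fam := ⟨F0_T, F0_B, F0_tT, F0_tB, F0_okT, F0_okB, F0_okN⟩

/-- Windows of the small net. -/
def F0_A0 : Win :=
  [(0xc03c0fc0fc0fc0f81f03e03c00800, 0x401c07f1ff), (0xc03c0fc0fc0fc0f81f03e03c00800,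
      0x401c07f1ff), (0xc03c0fc0fc0fc0f81f03e03c00800, 0x401c07f1ff)]

/-- Tiles. -/
def F0_tA0 : Tls :=
   [([(6, -9, -9), (17, -4, -3), (48, -2, -12)],
     [(6, -6, -6), (17, -5, -6), (56, -9, 0)]),
    ([(6, -9, -9), (17, -4, -3), (48, -2, -12)],
     [(6, -6, -6), (17, -5, -6), (56, -9, 0)]),
    ([(6, -9, -9), (17, -4, -3), (48, -2, -12)],
     [(6, -6, -6), (17, -5, -6), (56, -9, 0)])]

theorem F0_A0_net : netW 0 F0_A0 = true := by decide +kernel

theorem F0_A0_step : stepW 0 F0_A0 (F0_T.getD 1 []) F0_tA0 = true := by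
  decide +kernel

theorem F0_rep0 {b c : ℕ} (hb : 16 ≤ b) (hm : b % 6 = 0) (hc : b + 2 ≤ c) : Rep b c := by
  refine F0.rep (famW_good (n := b) (by omega) (ν := 0) (by omega) F0_A0_net) (n := b + 1)
    (by omega) (by omega) ?_
  have e : ((b : ℤ) + 1) % 6 = ((1 : ℕ) : ℤ) := by push_cast; omega
  rw [per_eq e]
  exact famW_step (by omega) (by omega) F0_A0_step

end Pool.Agent.RepCube
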