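import Pool.Agent.RepCube.Glue

/-!
# The family F1
-/

namespace Pool.Agent.RepCube

/-- Windows of the chain. -/
def F1_T : List Win := [
  [(0xc0080100601c00800, 0x100300705f1bf), (0xc0080100601c00800, 0x100300705f1bf),
      (0xc0080100601c00800, 0x100300705f1bf)],
  [(0x600e01c0180100200c01801, 0x803807807604e0be), (0x600e01c0180100200c01801,
      0x803807807604e0be), (0x600e01c0180100200c01801, 0x803807807604e0be)],
  [(0x20cc1f83f03e03c03803, 0x100710ff0ff), (0x20cc1f83f03e03c03803, 0x100710ff0ff),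
      (0x20cc1f83f03e03c03803, 0x100710ff0ff)],
  [(0x40780f01e01c01801, 0x80380781f01e01c0200e01e2), (0x40780f01e01c01801,
      0x80380781f01e01c0200e01e2), (0x40780f01e01c01801, 0x80380781f01e01c0200e01e2)],
  [(0x381f03e03c03800, 0x100700f03f03f33f3ff), (0x381f03e03c03800, 0x100700f03f03f33f3ff),
      (0x381f03e03c03800, 0x100700f03f03f33f3ff)],
  [(0x100e01c01801, 0x80180380f81f8ffbff), (0x100e01c01801, 0x80180380f81f8ffbff),
      (0x100e01c01801, 0x80180380f81f8ffbff)]]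

/-- Windows of the nets. -/
def F1_B : List Win := [
  [(0x801c00e01e80f00e00c00800, 0x200e03e07c1fc3f8ff3ff3ff), (0x1c0380f00e00c00800,
      0x600700601f0ff07f0ff1ff), (0x1c01c0380300600c00800, 0x401c0380f01f03f07f1ff)],
  [(0x100300f60fe0fc3f80700e01c01801, 0x100601e01e03e0fe), (0x2a0f60fe0fc0f81f00e01c01801,
      0x381f00e03e0fe), (0x380fe07c0f81f01e01c01801, 0x100300300600f03e07e0fe)],
  [(0x420c40e80f00e00c00800, 0x100ec07e1fc7fcfffff8ff), (0x100e00c21c40d80f00e00c00800,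
      0x101f07f1ff1ff0ff), (0x20040180300200000000, 0x100e00f01f07f0ff1ff0ff)],
  [(0x200741f80f01e01c01801, 0x100f01f00f03e07e1fe1fe), (0x801841783f01e01c01801,
      0x100200e07f07e0fe1fe1fe), (0x205e0fc0f80f01e01c01801, 0x100600601c01e03e03e0fe)],
  [(0x80300600c00800, 0x100701f01f07f1ff3ff3ff), (0x80300600c00800, 0x100741fc1fc7f9ff3ff3ff),
      (0x400c80f00e00c00800, 0x100741fc1fc7f9ff3ff3ff)],
  [(0x801801c0f80f80780f01e01c01801, 0x200e01e0fe3fe), (0x101f03f81f01e01c01801,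
      0x80100700f81f01e07e1fe3fe), (0xc0180780f81f01e01c01801, 0xd00e01c01e00e01e0fe3fe)]]

/-- Tiles of the chain. -/
def F1_tT : List Tls := [
  [([(6, -9, -9), (6, -1, -7), (17, -3, -6), (48, -2, -12), (56, -6, -7)],
     [(17, -5, 0), (17, -4, -1), (40, -8, -3), (56, -9, 0)]),
    ([(6, -9, -9), (6, -1, -7), (17, -3, -6), (48, -2, -12), (56, -6, -7)],
     [(17, -5, 0), (17, -4, -1), (40, -8, -3), (56, -9, 0)]),
    ([(6, -9, -9), (6, -1, -7), (17, -3, -6), (48, -2, -12), (56, -6, -7)],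
     [(17, -5, 0), (17, -4, -1), (40, -8, -3), (56, -9, 0)])],
  [([(17, -5, -3), (21, -7, -7), (21, -6, -6), (29, -3, -4), (40, -5, -5)],
     [(17, -10, -10), (17, -7, -7), (56, -10, 0), (58, -8, -4)]),
    ([(17, -5, -3), (21, -7, -7), (21, -6, -6), (29, -3, -4), (40, -5, -5)],
     [(17, -10, -10), (17, -7, -7), (56, -10, 0), (58, -8, -4)]),
    ([(17, -5, -3), (21, -7, -7), (21, -6, -6), (29, -3, -4), (40, -5, -5)],
     [(17, -10, -10), (17, -7, -7), (56, -10, 0), (58, -8, -4)])],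
  [([(6, -11, -11), (48, -2, -8)],
     [(5, -2, 0), (17, -3, -2), (17, -1, -2), (56, -11, 0), (58, -6, -1)]),
    ([(6, -11, -11), (48, -2, -8)],
     [(5, -2, 0), (17, -3, -2), (17, -1, -2), (56, -11, 0), (58, -6, -1)]),
    ([(6, -11, -11), (48, -2, -8)],
     [(5, -2, 0), (17, -3, -2), (17, -1, -2), (56, -11, 0), (58, -6, -1)])],
  [([(6, -6, -5), (33, -4, -5), (48, -2, -9)],
     [(6, -8, -5), (17, -9, -9), (17, -8, -6), (17, -6, -6), (29, -7, 0), (56, -12, 0)]),
    ([(6, -6, -5), (33, -4, -5), (48, -2, -9)],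
     [(6, -8, -5), (17, -9, -9), (17, -8, -6), (17, -6, -6), (29, -7, 0), (56, -12, 0)]),
    ([(6, -6, -5), (33, -4, -5), (48, -2, -9)],
     [(6, -8, -5), (17, -9, -9), (17, -8, -6), (17, -6, -6), (29, -7, 0), (56, -12, 0)])],
  [([(6, -10, -10), (48, -2, -10)],
     [(3, -7, -1), (17, -6, -7), (17, -3, -4)]),
    ([(6, -10, -10), (48, -2, -10)],
     [(3, -7, -1), (17, -6, -7), (17, -3, -4)]),
    ([(6, -10, -10), (48, -2, -10)],
     [(3, -7, -1), (17, -6, -7), (17, -3, -4)])],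
  [([(6, -3, -8), (46, -5, -7), (48, -2, -11)],
     [(17, -11, -11), (56, -8, 0)]),
    ([(6, -3, -8), (46, -5, -7), (48, -2, -11)],
     [(17, -11, -11), (56, -8, 0)]),
    ([(6, -3, -8), (46, -5, -7), (48, -2, -11)],
     [(17, -11, -11), (56, -8, 0)])]]

/-- Tiles of the nets. -/
def F1_tB : List Tls := [
  [([(0, -2, -2), (4, -1, -5), (6, -9, -9), (6, -1, -7), (29, -3, -5), (35, 0, -1), (48, -2,
      -12), (56, -6, -7), (56, -5, -6)],
     [(19, -5, -3), (30, -5, -2), (38, -8, -3), (56, -9, 0)]),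
    ([(6, -9, -9), (16, -1, -1), (30, -1, -3), (31, -1, -6), (42, -5, -5), (48, -2, -12), (56,
      -6, -7), (56, -3, -4), (58, -4, -7)],
     [(37, -8, -3), (44, -3, -4), (48, -5, -4), (56, -9, 0)]),
    ([(1, -1, -4), (1, 0, -5), (6, -9, -9), (22, -3, -7), (24, -3, -5), (29, -5, -5), (48, -2,
      -12), (56, -6, -7)],
     [(17, -2, -2), (37, -8, -3), (48, -5, -4), (56, -9, 0), (57, -5, -2)])],
  [([(4, -4, -7), (17, -3, -3), (29, -6, -7)],
     [(2, -1, -1), (6, -4, -3), (17, -10, -10), (17, -7, -7), (17, -5, -7), (17, -4, -4), (21,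
      -5, 1), (29, -2, -5), (56, -10, 0), (58, -8, -4)]),
    ([(17, -6, -6), (17, -5, -7), (17, -3, -3), (37, -1, -1)],
     [(6, -4, -3), (17, -10, -10), (17, -7, -7), (17, -4, -4), (34, -5, 1), (56, -10, 0), (58,
      -8, -4)]),
    ([(17, -5, -7)],
     [(2, -1, -1), (6, -4, -3), (17, -10, -10), (17, -7, -7), (17, -4, -4), (40, -5, 1), (56,
      -10, 0), (58, -8, -4)])],
  [([(6, -11, -11), (47, -2, -4), (48, -2, -8)],
     [(3, -1, -2), (4, -2, -1), (6, -6, -4), (17, -6, -5), (28, -6, 0), (56, -11, 0), (63, -4,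
      -3)]),
    ([(6, -11, -11), (8, -3, -2), (48, -2, -8)],
     [(6, -6, -4), (17, -6, -5), (26, -3, -3), (32, -5, 1), (40, -3, 0), (56, -11, 0), (58, -6,
      -1)]),
    ([(6, -11, -11), (25, -1, -6), (48, -2, -8), (52, -2, -4)],
     [(6, -6, -4), (16, -2, -1), (17, -6, -5), (54, -4, -2), (56, -11, 0)])],
  [([(48, -2, -9)],
     [(3, -5, 0), (6, -8, -5), (17, -9, -9), (17, -8, -6), (17, -6, -6), (29, -7, 0), (34, -2,
      0), (56, -12, 0)]),
    ([(48, -2, -9)],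
     [(6, -8, -5), (17, -9, -9), (17, -8, -6), (17, -7, 1), (17, -6, -6), (17, -6, 0), (17, -3,
      -5), (34, -2, 0), (56, -12, 0)]),
    ([(17, -4, -4), (48, -2, -9)],
     [(6, -8, -5), (17, -9, -9), (17, -8, -6), (17, -7, 1), (17, -6, -6), (17, -6, 0), (17, -3,
      -5), (34, -2, 0), (56, -12, 0)])],
  [([(6, -10, -10), (8, 0, -3), (15, -2, -3), (32, -2, -5), (48, -2, -10), (63, -4, -6)],
     [(3, -7, -1)]),
    ([(6, -10, -10), (48, -2, -10), (49, -3, -4), (59, -2, -3), (63, -4, -6)],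
     [(4, -7, -1), (12, -2, -3), (40, -2, 0), (58, -5, -1)]),
    ([(6, -10, -10), (20, -2, -5), (40, -3, -3), (48, -2, -10), (63, -4, -6)],
     [(3, -7, -1), (7, -2, -1), (18, -2, 1)])],
  [([(4, -1, -2), (25, -3, -4), (48, -2, -11), (63, -5, -8), (63, -4, -7)],
     [(7, -6, 0), (16, -3, -5), (17, -11, -11), (21, -2, -3), (30, -4, -1), (32, -8, 1), (34, -6,
      -2), (34, -1, -2)]),
    ([(16, -5, -5), (18, -4, -6), (31, -4, -8), (48, -2, -11)],
     [(17, -11, -11), (21, -6, -2), (29, -1, -1), (33, -4, 0), (57, -4, -2), (58, -8, 0)]),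
    ([(18, -3, -5), (31, -3, -7), (48, -2, -11), (63, -5, -8)],
     [(17, -11, -11), (21, -3, -3), (21, -2, -2), (39, -6, -2), (56, -8, 0)])]]

theorem F1_okT : perStep F1_T F1_T F1_tT = true := by decide +kernel

theorem F1_okB : perStep F1_T F1_B F1_tB = true := by decide +kernel

theorem F1_okN : perNet F1_B = true := by decide +kernel

/-- The chain with its nets. -/
def F1 : Fam := ⟨F1_T, F1_B, F1_tT, F1_tB, F1_okT, F1_okB, F1_okN⟩

/-- Windows of the small net. -/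
def F1_A1 : Win :=
  [(0x18639c7f87f07e07c07801, 0x80380780780780fe), (0x18639c7f87f07e07c07801,
      0x80380780780780fe), (0x18639c7f87f07e07c07801, 0x80380780780780fe)]

/-- Tiles. -/
def F1_tA1 : Tls :=
   [([(48, -2, -7)],
     [(6, -7, -6), (17, -10, -10), (17, -7, -7), (56, -10, 0)]),
    ([(48, -2, -7)],
     [(6, -7, -6), (17, -10, -10), (17, -7, -7), (56, -10, 0)]),
    ([(48, -2, -7)],
     [(6, -7, -6), (17, -10, -10), (17, -7, -7), (56, -10, 0)])]

theorem F1_A1_net : netW 1 F1_A1 = true := by decide +kernel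

theorem F1_A1_step : stepW 1 F1_A1 (F1_T.getD 2 []) F1_tA1 = true := by
  decide +kernel

theorem F1_rep1 {b c : ℕ} (hb : 16 ≤ b) (hm : b % 6 = 1) (hc : b + 2 ≤ c) : Rep b c := by
  refine F1.rep (famW_good (n := b) (by omega) (ν := 1) (by omega) F1_A1_net) (n := b + 1)
    (by omega) (by omega) ?_
  have e : ((b : ℤ) + 1) % 6 = ((2 : ℕ) : ℤ) := by push_cast; omega
  rw [per_eq e]
  exact famW_step (by omega) (by omega) F1_A1_step

end Pool.Agent.RepCube
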