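import Pool.Agent.RepCube.WideGlue

/-!
# A wide step between nets
-/

namespace Pool.Agent.RepCube

/-- The small net. -/
def N34_w : Win :=
  [(0x1841983f07e07c01801, 0x80560be3fcff9ff1fe1fe), (0x180f0fe43fc1f81f01e01c01801,
      0x3807807e1fe), (0x200601e01c0180300600c01801, 0x1e01e01e00e03e0fe)]

/-- The large net. -/
def N34_v : Win :=
  [(0x601f87fc3f83f03e03c07800, 0x40f81f83f8ff1fe), (0x300f83f03e07c0f81f00e01c00801, 0x401803f),
      (0x40080380700600400801, 0x341f83f07e07f0fe07f3fe)]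

/-- Tiles. -/
def N34_t : Tls :=
   [([(1, 0, -2), (1, 2, 0), (4, -1, 0), (5, -6, -3), (6, -9, -8), (6, -9, -6), (6, -1, 3), (6,
      0, -9), (10, -4, -1), (11, -2, -4), (13, 0, -4), (26, 1, 3), (40, -3, -6), (42, 0, -6),
      (48, 1, -12), (48, 2, 5), (57, -3, -8), (61, -3, 0)],
     [(1, -3, 1), (2, -1, 0), (4, -2, 1), (10, 3, -1), (17, -9, -9), (17, -7, -9), (29, -5, 2),
      (32, -2, -4), (43, -3, -2), (44, -10, 0), (44, -9, 1), (44, 1, 0), (46, -8, 2), (46, 1,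
      -3), (55, -12, 0), (62, 2, 0)]),
    ([(1, -3, -2), (6, -9, -8), (6, -9, -6), (6, -6, -5), (6, -6, -3), (9, -1, -6), (9, 0, -7),
      (15, 3, 1), (15, 4, 0), (21, 0, 2), (31, -1, -9), (41, 1, 3), (46, 0, -2), (48, 1, -12),
      (56, 0, 0)],
     [(6, -7, 0), (6, -6, -5), (16, -1, -1), (17, -9, -9), (17, -7, -9), (17, -6, -6), (17, -4,
      -6), (23, -3, -4), (24, -5, 0), (24, -3, 0), (40, -4, -2), (46, -10, 0), (52, -4, 2), (55,
      -12, 0), (56, -10, 2), (56, -9, 3), (59, -2, 1)]),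
    ([(6, -9, -8), (6, -9, -6), (6, -6, -5), (6, -6, -3), (6, 0, -9), (8, -3, -1), (17, -6, -6),
      (17, -4, -6), (18, -3, -2), (42, -3, -4), (42, 0, -6), (48, 1, -12), (52, 0, -4), (53, 0,
      0)],
     [(1, -9, 1), (6, -4, 1), (10, -3, -3), (15, -2, 2), (15, -1, -2), (15, 0, -3), (17, -9, -9),
      (17, -7, -9), (17, -6, -6), (17, -5, 3), (17, -4, -6), (29, -11, 2), (30, 0, 2), (31, 2,
      4), (33, 3, 1), (45, 5, 1), (47, 2, -1), (48, -8, -2), (48, -7, 1), (54, -2, -1), (55, 5,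
      3), (56, -12, 0), (56, -8, 0)])]

theorem N34_ok : wideNN 3 4 N34_w N34_v N34_t = true := by
  decide +kernel

theorem N34_rep {b : ℕ} (hb : 19 ≤ b) (hm : b % 6 = 3) : Rep b (b + 4) :=
  wideNN_rep N34_ok (by norm_num) (by norm_num) (by omega) hm

end Pool.Agent.RepCube
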