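import Pool.Agent.RepCube.WideGlue

/-!
# A wide step between nets
-/

namespace Pool.Agent.RepCube

/-- Tiles near the first tip. -/
def N44_A : List (ℕ × ℤ × ℤ) :=
  [(0, -4, -3), (4, 1, -1), (5, 0, -8), (6, -10, -10), (6, -10, -8), (6, -7, -7), (6, -7, -5),
      (10, -3, -1), (13, -4, 0), (15, 0, 3), (17, -6, -7), (17, 1, -2), (21, 0, -6), (29, -1,
      -1), (29, -1, 4), (31, -1, -10), (35, -4, -5), (42, -2, -4), (51, -2, -8), (60, -2, 1)]

/-- Tiles near the second tip. -/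
def N44_B : List (ℕ × ℤ × ℤ) :=
  [(3, -10, 2), (3, 0, 1), (4, -2, -6), (9, 4, 3), (13, -4, -7), (13, 2, 2), (17, -10, 1), (17,
      -9, -10), (17, -8, 1), (17, -7, -10), (17, -1, -1), (29, -12, 2), (46, -3, 2), (53, -3,
      -3), (55, -5, 2)]

theorem N44_ok : wideSS 4 4 0xc0380300200400800 0xe00c01b07fcffcff8ff1ff 0x100a19c7f87f07e07c07801 0x60040080380780380f807e N44_A N44_B = true := by
  decide +kernel

theorem N44_rep {b : ℕ} (hb : 19 ≤ b) (hm : b % 6 = 4) : Rep b (b + 4) :=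
  wideSS_rep N44_ok (by norm_num) (by norm_num) (by omega) hm

end Pool.Agent.RepCube
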