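import Pool.Agent.RepCube.WideGlue

/-!
# A wide step between nets
-/

namespace Pool.Agent.RepCube

/-- The small net. -/
def N54_w : Win :=
  [(0x9e1fc0780f80f00e01c01801, 0x1e03e3fe), (0x180380380180180180100000000000, 0x300f03e0fe3fe),
      (0x807987f0fe01c01801, 0x405e0fe0fe3fefffffdffbff)]

/-- The large net. -/
def N54_v : Win :=
  [(0x2c0fc3f83f07e07c01803, 0xc00c00c03803c0781f8), (0x10320fc0f80f01e01c01803,
      0xc00c00c00c0180780fe07c), (0x80180937f63fc3f83f07e03c07807, 0x301e07e03e07c)]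

/-- Tiles. -/
def N54_t : Tls :=
   [([(1, -5, -3), (1, -3, -1), (4, -5, -5), (4, 1, 1), (6, -11, -10), (6, -11, -8), (6, -8, -7),
      (6, -8, -5), (13, -3, -3), (15, 1, -1), (19, -1, -8), (24, -1, 0), (26, 0, 3), (31, 0,
      -10), (41, 0, -3), (48, -2, -11), (52, -2, 2), (59, 0, -6)],
     [(1, 2, 0), (6, 4, 2), (9, -3, 2), (11, -5, -5), (11, -3, -5), (17, -11, -11), (17, -9,
      -11), (17, -8, -8), (17, -6, -8), (21, -2, 0), (26, -5, 2), (28, -6, 0), (29, -7, 2), (39,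
      -1, 1), (56, -12, 2), (56, -11, 3), (60, -8, -1), (61, -4, -3), (61, -2, -3), (62, -6,
      -4)]),
    ([(1, -5, -3), (4, -5, -5), (4, -2, -5), (6, -11, -10), (6, -11, -8), (6, -8, -7), (6, -8,
      -5), (6, -3, 0), (6, -1, -8), (6, 0, 2), (15, -4, -5), (16, -1, -1), (16, 0, -8), (17, -8,
      -8), (17, -6, -8), (17, -3, -1), (29, 1, 1), (31, 0, -10), (39, 1, -2), (48, -2, -11)],
     [(1, -2, -3), (5, 0, 1), (6, 5, 3), (10, -4, -5), (11, -6, 2), (15, -2, -4), (17, -11, -11),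
      (17, -9, -11), (17, -8, -8), (17, -6, -8), (29, -3, 0), (45, -10, 2), (46, -4, 2), (48, -6,
      -2), (52, 0, -2), (54, -8, 1), (55, -12, 2), (55, -5, -1), (58, 1, 2)]),
    ([(4, 1, 2), (4, 2, -3), (6, -11, -10), (6, -11, -8), (6, -8, -7), (6, -8, -5), (6, 0, -11),
      (8, -3, 2), (8, 3, 3), (11, -5, -1), (18, -3, 1), (23, 0, -8), (25, 2, 6), (28, 1, 0), (31,
      -2, -10), (39, -1, 4), (44, -2, -4), (45, -3, -8), (45, 0, -6), (47, -2, -7), (48, -1, -3),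
      (56, -1, -1)],
     [(17, -11, -11), (17, -9, -11), (17, -8, 2), (22, -1, 1), (28, 1, -1), (45, 2, 1), (46, -10,
      2), (55, -12, 2), (55, -1, -2), (56, -5, 3), (57, -5, 1)])]

theorem N54_ok : wideNN 5 4 N54_w N54_v N54_t = true := by
  decide +kernel

theorem N54_rep {b : ℕ} (hb : 19 ≤ b) (hm : b % 6 = 5) : Rep b (b + 4) :=
  wideNN_rep N54_ok (by norm_num) (by norm_num) (by omega) hm

end Pool.Agent.RepCube
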