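import Pool.Agent.RepCube.WideGlue

/-!
# A wide step between nets
-/

namespace Pool.Agent.RepCube

/-- Tiles near the first tip. -/
def N55_A : List (ℕ × ℤ × ℤ) :=
  [(6, -11, -10), (6, -11, -8), (6, -8, -7), (6, -8, -5), (6, 0, -11), (12, -1, -2), (15, 3, 3),
      (17, -5, -1), (26, 0, -4), (31, -2, -10), (31, 0, 2), (33, 1, -6), (41, 1, -8), (51, -2,
      0), (52, 5, 5), (63, 1, -2), (63, 2, -1)]

/-- Tiles near the second tip. -/
def N55_B : List (ℕ × ℤ × ℤ) :=
  [(3, -10, 3), (9, -8, 3), (13, -5, 3), (15, 8, 1), (17, -11, -11), (17, -9, -11), (17, -8, -8),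
      (17, -7, -11), (17, -6, -8), (17, -5, -5), (17, -4, -8), (17, -3, -5), (17, -1, -5), (18,
      2, -2), (21, -1, 1), (23, 4, 1), (29, -12, 3), (30, -5, -3), (32, 1, -1), (35, -10, 1),
      (36, -8, -1), (45, -3, 1), (48, 1, 1), (53, -7, 1), (53, 5, -1), (54, -5, -1), (55, -1,
      -2), (56, -3, -2), (57, 1, 3), (58, -3, 3), (63, -7, -4)]

theorem N55_ok : wideSS 5 5 0x100201e17e7fc7f87f0fe01c01801 0x603e0fe 0x1003c03801c01c0380300600c00800 0xc00e00601c03c0783f07f1ff N55_A N55_B = true := by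
  decide +kernel

theorem N55_rep {b : ℕ} (hb : 20 ≤ b) (hm : b % 6 = 5) : Rep b (b + 5) :=
  wideSS_rep N55_ok (by norm_num) (by norm_num) (by omega) hm

end Pool.Agent.RepCube
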