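import Pool.Agent.RepCube.DataF0

/-!
# A path from a net to the chain F0
-/

namespace Pool.Agent.RepCube

/-- The small net. -/
def P2_w : Win :=
  [(0xc03c27cc0f80f00e00c00800, 0x401c07c0ff0ff0ff), (0x423cc3f83f03e03c03803,
      0x701f07f0ff0ff0ff), (0xc21cc3f83f03e00c00800, 0x401c07c0fc0fc0fc)]

/-- The path. -/
def P2_L : List (Tls × Win) := [
  ([([(6, -11, -11), (6, -8, -8), (6, -5, -5), (6, -5, -3), (48, -2, -8)],
     [(17, -4, -5), (56, -11, 0)]),
    ([(6, -11, -11), (17, 0, -1), (48, -2, -8)],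
     [(1, -2, -1), (15, -2, -2), (17, -4, -5), (17, -2, -5), (29, -4, 0), (56, -11, 0)]),
    ([(6, -11, -11), (6, -8, -8), (6, -5, -3), (8, -2, -1), (31, -1, -2), (48, -2, -8)],
     [(1, -2, -1), (3, 0, -2), (6, -8, -8), (6, -5, -5), (17, -4, -5), (17, -2, -5), (29, -4, 0),
      (56, -11, 0)])],
   [(0x601e43f87f07e07c01801, 0x8018098390f81fe), (0x200600600400241f81f01e01c01801,
      0x20663fe7fc7f87f0fe1fe), (0x200e01e01e43f87f07e07c01801, 0x803a01e38e7dc7f87f0fe1fe)]),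
  ([([(3, 0, -3), (16, -2, 0), (48, -2, -9)],
     [(1, -4, -2), (6, -7, -6), (17, -9, -9), (17, -4, -6), (29, -7, 0), (56, -12, 0)]),
    ([(6, -1, -2), (48, -2, -9)],
     [(3, -2, -3), (17, -9, -9), (17, -7, 1), (56, -12, 0)]),
    ([(16, -3, -1), (48, -2, -9)],
     [(17, -9, -9), (17, -7, 1), (56, -12, 0)])],
   [(0x100f03303302f81f03e03c03800, 0x400c71c3bb1f3ff), (0x100f00f00e00180f00e00c00800,
      0x100740fc7fdffbff3ff), (0x100f03f03f83f03e03c03800, 0x1007403c71dfbbff3ff)]),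
  ([([(6, -10, -10), (41, -4, -4), (48, -2, -10)],
     [(1, -7, -2), (3, -4, -4), (15, -6, -4)]),
    ([(6, -10, -10), (6, -7, -7), (6, -3, -3), (45, -4, -6), (48, -2, -10)],
     []),
    ([(6, -10, -10), (45, -1, -3), (48, -2, -10)],
     [])],
   [(0x80781f81f81f01e01c01801, 0x200e81f8ffbff), (0x80781f81f81f01e01c01801, 0x200e81f8ffbff),
      (0x80781f81f81f01e01c01801, 0x200e8078e3bf7)]),
  ([([(48, -2, -11)],
     [(17, -11, -11), (56, -8, 0)]),
    ([(48, -2, -11)],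
     [(17, -11, -11), (56, -8, 0)]),
    ([(48, -2, -11)],
     [(15, -8, -5), (17, -11, -11), (56, -8, 0)])],
   [(0x403c0f80f00e00c00800, 0x405d1bf), (0x403c0f80f00e00c00800, 0x405d1bf),
      (0x403c0f80f00e00c00800, 0x405d1bf)])]

theorem P2_ok : walkNT F0.T 2 P2_w P2_L = true := by decide +kernel

theorem P2_rep {b c : ℕ} (hb : 16 ≤ b) (hk : b % 6 = 2) (hc : b + 4 < c) : Rep b c :=
  walkNT_rep F0 P2_ok hb hk hc

end Pool.Agent.RepCube
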