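import Pool.Agent.RepCube.WideGlue
import Pool.Agent.RepCube.DataF0

/-!
# A wide step from a net to the chain F0
-/

namespace Pool.Agent.RepCube

/-- Tiles near the first tip. -/
def W3_A : List (ℕ × ℤ × ℤ) :=
  [(6, -9, -8), (6, -9, -6), (6, -6, -5), (6, -6, -3), (6, -3, 0), (6, 0, -9), (6, 2, -1), (8,
      -3, -3), (16, -3, -1), (17, -6, -6), (17, -4, -6), (17, -2, -8), (39, -2, -4), (44, 0, -1),
      (48, 1, -12), (48, 1, -6), (48, 3, 2), (63, 0, 1), (63, 1, 2)]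

/-- Tiles near the second tip. -/
def W3_B : List (ℕ × ℤ × ℤ) :=
  [(6, -6, 1), (9, -1, -4), (11, -4, 2), (17, -9, -9), (17, -7, -9), (30, -3, -3), (44, -10, 0),
      (46, -2, 2), (48, -9, 1), (52, -6, -2), (55, -12, 0), (56, -9, 3), (57, 1, -2), (63, -1,
      -2)]

theorem W3_ok : wideNT F0.T 3 4 0x40080180180180300600c01801 0x201e61de1fc0783f0fe3fe 0x601e07e0fc1f81f01e01c01801 0x80180780f0be W3_A W3_B = true := by
  decide +kernel

theorem W3_rep {b c : ℕ} (hb : 19 ≤ b) (hm : b % 6 = 3) (hc : b + 4 < c) : Rep b c :=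
  wideNT_rep F0 W3_ok (by norm_num) (by norm_num) (by omega) hm hc

end Pool.Agent.RepCube
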