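import Pool.Agent.RepCube.WideGlue
import Pool.Agent.RepCube.DataF1

/-!
# A wide step from a net to the chain F1
-/

namespace Pool.Agent.RepCube

/-- Tiles near the first tip. -/
def W4_A : List (ℕ × ℤ × ℤ) :=
  [(2, -3, -7), (6, -10, -10), (6, -10, -8), (6, -7, -5), (6, 0, 2), (6, 1, -9), (15, 0, -4),
      (17, -2, 3), (20, -1, -6), (31, -1, -8), (34, -4, 0), (48, -2, -10), (48, 1, -1), (56, -2,
      0), (58, -4, -2)]

/-- Tiles near the second tip. -/
def W4_B : List (ℕ × ℤ × ℤ) :=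
  [(1, -4, -3), (3, 1, 1), (6, -7, -7), (6, -2, -4), (15, -4, -4), (17, -9, -10), (17, -7, -10),
      (17, -6, -7), (17, -6, 3), (17, -5, 2), (17, -4, -7), (17, -1, -4), (32, -2, 2), (44, -10,
      1), (46, -9, 2), (55, -12, 1), (55, -1, -1), (63, -3, -1)]

theorem W4_ok : wideNT F1.T 4 4 0x400e00401803c8ff03e03c03800 0x3007c1fc3fc3ff 0x20cc1f83f03e03c03803 0x100710ff0ff W4_A W4_B = true := by
  decide +kernel

theorem W4_rep {b c : ℕ} (hb : 19 ≤ b) (hm : b % 6 = 4) (hc : b + 4 < c) : Rep b c :=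
  wideNT_rep F1 W4_ok (by norm_num) (by norm_num) (by omega) hm hc

end Pool.Agent.RepCube
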