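import Pool.Agent.RepCube.WideGlue
import Pool.Agent.RepCube.DataF1

/-!
# A wide step from a net to the chain F1
-/

namespace Pool.Agent.RepCube

/-- Tiles near the first tip. -/
def W5_A : List (ℕ × ℤ × ℤ) :=
  [(1, -1, -2), (4, -3, -2), (6, -11, -10), (6, -11, -8), (6, -8, -5), (6, -5, -2), (6, -2, 3),
      (6, 1, -10), (16, -2, 2), (19, -3, -5), (21, 1, 0), (23, 1, -7), (31, -1, -9), (43, -3,
      -7), (44, 1, 2), (48, -2, -11), (57, 1, -2), (59, 1, -5)]

/-- Tiles near the second tip. -/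
def W5_B : List (ℕ × ℤ × ℤ) :=
  [(1, 0, 0), (1, 1, -1), (3, 3, -2), (3, 6, 1), (6, -8, -7), (6, -5, -4), (6, 3, 2), (15, 1,
      -2), (17, -11, -11), (17, -9, -11), (17, -8, -8), (17, -7, -11), (17, -6, -8), (17, -6, 4),
      (17, -5, -5), (17, -4, -8), (17, -3, -5), (17, -1, -5), (29, 1, 4), (29, 4, 1), (44, -10,
      2), (45, -3, -2), (46, -9, 3), (52, -8, 0), (53, -5, 1), (55, -12, 2), (58, -4, 2), (58,
      -3, 3), (63, -2, -2)]

theorem W5_ok : wideNT F1.T 5 5 0x500e00441c81987f07e07c07807 0x180f81f80783f8 0x381f03e03c03800 0x100700f03f03f33f3ff W5_A W5_B = true := by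
  decide +kernel

theorem W5_rep {b c : ℕ} (hb : 20 ≤ b) (hm : b % 6 = 5) (hc : b + 5 < c) : Rep b c :=
  wideNT_rep F1 W5_ok (by norm_num) (by norm_num) (by omega) hm hc

end Pool.Agent.RepCube
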