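import Mathlib

/-!
# Polyomino nets of cubes

Definitions (squares of the integer grid, polyominoes, nets of the cube `[0, n]³`) and a
combinatorial criterion for being a net.
-/

namespace Pool.Agent.RepCube

open Set

/-- The square `[a, a+1] × [b, b+1]` of the integer grid is encoded by `(a, b)`. -/
abbrev Cell := ℤ × ℤ

/-- The Euclidean plane. -/
abbrev E2 := EuclideanSpace ℝ (Fin 2)

/-- Euclidean space. -/
abbrev E3 := EuclideanSpace ℝ (Fin 3)

/-- The closed unit square of a cell. -/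
def sq (c : Cell) : Set E2 :=
  {q | (c.1 : ℝ) ≤ q 0 ∧ q 0 ≤ c.1 + 1 ∧ (c.2 : ℝ) ≤ q 1 ∧ q 1 ≤ c.2 + 1}

/-- The open unit square of a cell. -/
def osq (c : Cell) : Set E2 :=
  {q | (c.1 : ℝ) < q 0 ∧ q 0 < c.1 + 1 ∧ (c.2 : ℝ) < q 1 ∧ q 1 < c.2 + 1}

/-- The part of the plane covered by the cells of `P`. -/
def region (P : Finset Cell) : Set E2 := ⋃ c ∈ P, sq c

/-- The union of the open cells of `P`. -/
def openCells (P : Finset Cell) : Set E2 := ⋃ c ∈ P, osq c

/-- The surface of the cube `[0, n]³`. -/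
def cubeSurface (n : ℕ) : Set E3 := {q | (∀ i, 0 ≤ q i ∧ q i ≤ n) ∧ ∃ i, q i = 0 ∨ q i = n}

/-- Two cells share an edge. -/
def Adj (c d : Cell) : Prop :=
  (c.2 = d.2 ∧ (d.1 = c.1 + 1 ∨ c.1 = d.1 + 1)) ∨ (c.1 = d.1 ∧ (d.2 = c.2 + 1 ∨ c.2 = d.2 + 1))

/-- The cells outside `P` form no bounded edge-connected component: every cell outside `P` is
joined, by edge-adjacent cells outside `P`, to cells arbitrarily far away. -/
def NoHoles (P : Finset Cell) : Prop :=
  ∀ c : Cell, c ∉ P → ∀ N : ℤ, ∃ d : Cell, N ≤ |d.1| + |d.2| ∧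
    Relation.ReflTransGen (fun x y => x ∉ P ∧ y ∉ P ∧ Adj x y) c d

/-- A polyomino: a nonempty finite set of cells which is connected by shared edges and has no
holes (so the region it covers is a simple polygon). -/
def IsPolyomino (P : Finset Cell) : Prop :=
  P.Nonempty ∧ (∀ c ∈ P, ∀ d ∈ P,
    Relation.ReflTransGen (fun x y => x ∈ P ∧ y ∈ P ∧ Adj x y) c d) ∧ NoHoles P

/-- `P` is a polyomino which is a net of the `n × n × n` cube: there is a continuous map `F` of
the region covered by `P` onto the surface of the cube, which preserves distances on every cell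
of `P` (so `F` folds the polyomino along edges of the cells) and is injective on the union of the
open cells (so no part of the surface is covered twice). -/
def IsNet (P : Finset Cell) (n : ℕ) : Prop :=
  IsPolyomino P ∧ ∃ F : E2 → E3, ContinuousOn F (region P) ∧ F '' region P = cubeSurface n ∧
    (∀ c ∈ P, ∀ x ∈ sq c, ∀ y ∈ sq c, dist (F x) (F y) = dist x y) ∧
    InjOn F (openCells P)

/-! ### Combinatorial nets -/

/-- Integer vectors of space. -/
abbrev V3 := Fin 3 → ℤ

/-- The lattice square with corner `p` and edge vectors `u`, `v` lies on the surface of the cube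
`[0, n]³`. -/
def Valid (n : ℤ) (p u v : V3) : Prop :=
  ∃ i j k : Fin 3, i ≠ j ∧ j ≠ k ∧ i ≠ k ∧ (p i = 0 ∨ p i = n) ∧ u i = 0 ∧ v i = 0 ∧
    (u j = 1 ∨ u j = -1) ∧ u k = 0 ∧ v j = 0 ∧ (v k = 1 ∨ v k = -1) ∧
    0 ≤ p j ∧ p j ≤ n ∧ 0 ≤ p j + u j ∧ p j + u j ≤ n ∧
    0 ≤ p k ∧ p k ≤ n ∧ 0 ≤ p k + v k ∧ p k + v k ≤ n

/-- Twice the centre of a lattice square. -/
def ctr (p u v : V3) : V3 := fun i => 2 * p i + u i + v i

/-- Combinatorial nets. -/
structure CNet (P : Finset Cell) (n : ℤ) where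
  /-- image of the lower left corner -/
  p : Cell → V3
  /-- image of the first unit vector -/
  u : Cell → V3
  /-- image of the second unit vector -/
  v : Cell → V3
  valid : ∀ c ∈ P, Valid n (p c) (u c) (v c)
  hor : ∀ a b : ℤ, (a, b) ∈ P → (a + 1, b) ∈ P →
    (∀ i, p (a + 1, b) i = p (a, b) i + u (a, b) i) ∧ ∀ i, v (a + 1, b) i = v (a, b) i
  ver : ∀ a b : ℤ, (a, b) ∈ P → (a, b + 1) ∈ P →
    (∀ i, p (a, b + 1) i = p (a, b) i + v (a, b) i) ∧ ∀ i, u (a, b + 1) i = u (a, b) i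
  pinch1 : ∀ a b : ℤ, (a, b) ∈ P → (a + 1, b + 1) ∈ P → (a + 1, b) ∈ P ∨ (a, b + 1) ∈ P
  pinch2 : ∀ a b : ℤ, (a + 1, b) ∈ P → (a, b + 1) ∈ P → (a, b) ∈ P ∨ (a + 1, b + 1) ∈ P
  inj : ∀ c ∈ P, ∀ d ∈ P, ctr (p c) (u c) (v c) = ctr (p d) (u d) (v d) → c = d
  cov : ∀ i j k : Fin 3, i ≠ j → j ≠ k → i ≠ k → ∀ a s t : ℤ, (a = 0 ∨ a = n) → 0 ≤ s → s < n →
    0 ≤ t → t < n → ∃ c ∈ P, ctr (p c) (u c) (v c) i = 2 * a ∧
      ctr (p c) (u c) (v c) j = 2 * s + 1 ∧ ctr (p c) (u c) (v c) k = 2 * t + 1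

namespace CNet

variable {P : Finset Cell} {n : ℤ}

/-- The affine map of a cell. -/
noncomputable def aff (N : CNet P n) (c : Cell) (q : E2) : E3 :=
  WithLp.toLp 2 fun i => (N.p c i : ℝ) + (q 0 - c.1) * N.u c i + (q 1 - c.2) * N.v c i

theorem aff_apply (N : CNet P n) (c : Cell) (q : E2) (i : Fin 3) :
    N.aff c q i = (N.p c i : ℝ) + (q 0 - c.1) * N.u c i + (q 1 - c.2) * N.v c i := rfl

theorem continuous_aff (N : CNet P n) (c : Cell) : Continuous (N.aff c) := by
  unfold aff
  refine (PiLp.continuous_toLp 2 _).comp (continuous_pi fun i => ?_)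
  fun_prop

theorem agree_hor (N : CNet P n) {a b : ℤ} (h1 : (a, b) ∈ P) (h2 : (a + 1, b) ∈ P) (q : E2)
    (hq : q 0 = a + 1) : N.aff (a, b) q = N.aff (a + 1, b) q := by
  obtain ⟨e1, e2⟩ := N.hor a b h1 h2
  ext i
  rw [aff_apply, aff_apply, e1 i, e2 i, hq]
  push_cast
  ring

theorem agree_ver (N : CNet P n) {a b : ℤ} (h1 : (a, b) ∈ P) (h2 : (a, b + 1) ∈ P) (q : E2)
    (hq : q 1 = b + 1) : N.aff (a, b) q = N.aff (a, b + 1) q := by
  obtain ⟨e1, e2⟩ := N.ver a b h1 h2
  ext i
  rw [aff_apply, aff_apply, e1 i, e2 i, hq]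
  push_cast
  ring

theorem agree_diag1 (N : CNet P n) {a b : ℤ} (h1 : (a, b) ∈ P) (h2 : (a + 1, b + 1) ∈ P) (q : E2)
    (hq : q 0 = a + 1) (hq' : q 1 = b + 1) : N.aff (a, b) q = N.aff (a + 1, b + 1) q := by
  rcases N.pinch1 a b h1 h2 with h | h
  · rw [N.agree_hor h1 h q hq, N.agree_ver h h2 q hq']
  · rw [N.agree_ver h1 h q hq', N.agree_hor h h2 q hq]

theorem agree_diag2 (N : CNet P n) {a b : ℤ} (h1 : (a + 1, b) ∈ P) (h2 : (a, b + 1) ∈ P) (q : E2)
    (hq : q 0 = a + 1) (hq' : q 1 = b + 1) : N.aff (a + 1, b) q = N.aff (a, b + 1) q := by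
  rcases N.pinch2 a b h1 h2 with h | h
  · rw [← N.agree_hor h h1 q hq, N.agree_ver h h2 q hq']
  · rw [N.agree_ver h1 h q hq', ← N.agree_hor h2 h q hq]

theorem agree (N : CNet P n) {c d : Cell} (hc : c ∈ P) (hd : d ∈ P) {q : E2} (h1 : q ∈ sq c)
    (h2 : q ∈ sq d) : N.aff c q = N.aff d q := by
  obtain ⟨a, b⟩ := c
  obtain ⟨a', b'⟩ := d
  obtain ⟨p1, p2, p3, p4⟩ := h1
  obtain ⟨q1, q2, q3, q4⟩ := h2
  simp only at p1 p2 p3 p4 q1 q2 q3 q4
  have e1 : a' ≤ a + 1 := by
    have : (a' : ℝ) ≤ ((a + 1 : ℤ) : ℝ) := by push_cast; linarith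
    exact_mod_cast this
  have e2 : a ≤ a' + 1 := by
    have : (a : ℝ) ≤ ((a' + 1 : ℤ) : ℝ) := by push_cast; linarith
    exact_mod_cast this
  have e3 : b' ≤ b + 1 := by
    have : (b' : ℝ) ≤ ((b + 1 : ℤ) : ℝ) := by push_cast; linarith
    exact_mod_cast this
  have e4 : b ≤ b' + 1 := by
    have : (b : ℝ) ≤ ((b' + 1 : ℤ) : ℝ) := by push_cast; linarith
    exact_mod_cast this
  have ca : a' = a ∨ a' = a + 1 ∨ a = a' + 1 := by omega
  have cb : b' = b ∨ b' = b + 1 ∨ b = b' + 1 := by omega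
  rcases ca with ca | ca | ca <;> rcases cb with cb | cb | cb
  · rw [ca, cb]
  · subst ca; subst cb
    exact N.agree_ver hc hd q (by push_cast at *; linarith)
  · subst ca; subst cb
    exact (N.agree_ver hd hc q (by push_cast at *; linarith)).symm
  · subst ca; subst cb
    exact N.agree_hor hc hd q (by push_cast at *; linarith)
  · subst ca; subst cb
    exact N.agree_diag1 hc hd q (by push_cast at *; linarith) (by push_cast at *; linarith)
  · subst ca; subst cb
    exact (N.agree_diag2 hd hc q (by push_cast at *; linarith) (by push_cast at *; linarith)).symm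
  · subst ca; subst cb
    exact (N.agree_hor hd hc q (by push_cast at *; linarith)).symm
  · subst ca; subst cb
    exact N.agree_diag2 hc hd q (by push_cast at *; linarith) (by push_cast at *; linarith)
  · subst ca; subst cb
    exact (N.agree_diag1 hd hc q (by push_cast at *; linarith) (by push_cast at *; linarith)).symm

open Classical in
/-- The folding map. -/
noncomputable def fold (N : CNet P n) (q : E2) : E3 :=
  if h : ∃ c, c ∈ P ∧ q ∈ sq c then N.aff h.choose q else 0

theorem fold_eq (N : CNet P n) {c : Cell} (hc : c ∈ P) {q : E2} (hq : q ∈ sq c) :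
    N.fold q = N.aff c q := by
  have h : ∃ c, c ∈ P ∧ q ∈ sq c := ⟨c, hc, hq⟩
  unfold fold
  rw [dif_pos h]
  exact N.agree h.choose_spec.1 hc h.choose_spec.2 hq

theorem isClosed_sq (c : Cell) : IsClosed (sq c) := by
  have h0 : Continuous fun q : E2 => q 0 := by fun_prop
  have h1 : Continuous fun q : E2 => q 1 := by fun_prop
  exact (isClosed_le continuous_const h0).inter ((isClosed_le h0 continuous_const).inter
    ((isClosed_le continuous_const h1).inter (isClosed_le h1 continuous_const)))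

theorem continuousOn_fold (N : CNet P n) : ContinuousOn N.fold (region P) := by
  have key : ∀ R : Finset Cell, R ⊆ P → ContinuousOn N.fold (⋃ c ∈ R, sq c) := by
    intro R
    induction R using Finset.induction_on with
    | empty => intro _; simp
    | insert a s ha ih =>
      intro hR
      rw [Finset.set_biUnion_insert]
      have h1 : ContinuousOn N.fold (sq a) :=
        (N.continuous_aff a).continuousOn.congr fun q hq =>
          N.fold_eq (hR (Finset.mem_insert_self a s)) hq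
      have h2 := ih fun x hx => hR (Finset.mem_insert_of_mem hx)
      exact h1.union_of_isClosed h2 (isClosed_sq a)
        (isClosed_biUnion_finset fun c _ => isClosed_sq c)
  exact key P (Finset.Subset.refl P)

end CNet

end Pool.Agent.RepCube
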