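import Pool.Agent.RepCube.Tiling

/-!
# Families of shapes: a base shape with two windows at the tips
-/

namespace Pool.Agent.RepCube

/-- The sawtooth function. -/
def gg (z : ℤ) : ℤ := if z % 6 = 0 ∨ z % 6 = 5 then 0 else if z % 6 = 1 ∨ z % 6 = 4 then 1 else 2

theorem gg_spec (z : ℤ) : ((z % 6 = 0 ∨ z % 6 = 5) ∧ gg z = 0) ∨
    ((z % 6 = 1 ∨ z % 6 = 4) ∧ gg z = 1) ∨ ((z % 6 = 2 ∨ z % 6 = 3) ∧ gg z = 2) := by
  unfold gg
  split_ifs <;> omega

/-- The base shape near the tip `(n, 2 n)`, with `ν = n % 6`. -/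
def tA (ν dx dy : ℤ) : Bool :=
  decide (dx < 0 ∧ (dy < dx ∨ (dy = dx ∧ ν % 2 = 1)) ∧ gg (ν + dy) ≤ -1 - dx)

/-- The base shape near the tip `(2 n, n)`, with `ν = n % 6`. -/
def tB (ν dx dy : ℤ) : Bool :=
  decide ((dy < 0 ∧ (dx < dy ∨ (dx = dy ∧ ν % 2 = 0))) ∨
    (0 ≤ dy ∧ dy < gg (ν + dx) ∧ (dx < -1 - dy ∨ (dx = -1 - dy ∧ ν % 2 = 1))))

/-- The window. -/
def inbox (dx dy : ℤ) : Bool := decide (-8 ≤ dx ∧ dx < 3 ∧ -8 ≤ dy ∧ dy < 3)

/-- Index in the window. -/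
def bidx (dx dy : ℤ) : ℕ := ((dx + 8) * 11 + (dy + 8)).toNat

/-- Shape near the first tip. -/
def FA (ν : ℤ) (m : ℕ) (dx dy : ℤ) : Bool :=
  if inbox dx dy then m.testBit (bidx dx dy) else tA ν dx dy

/-- Shape near the second tip. -/
def FB (ν : ℤ) (m : ℕ) (dx dy : ℤ) : Bool :=
  if inbox dx dy then m.testBit (bidx dx dy) else tB ν dx dy

/-- The shape of size `n` with windows `ma`, `mb`. -/
def fam (n : ℤ) (ma mb : Fin 3 → ℕ) : QS := fun r X Y =>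
  if X < 0 ∨ Y < 0 then false
  else if X < n ∧ Y < n then true
  else if X < Y then FA (n % 6) (ma r) (X - n) (Y - 2 * n)
  else if Y < X then FB (n % 6) (mb r) (X - 2 * n) (Y - n)
  else false

variable {n : ℤ} {ma mb : Fin 3 → ℕ} {r : Fin 3} {X Y : ℤ}

theorem fam_neg (h : X < 0 ∨ Y < 0) : fam n ma mb r X Y = false := by
  unfold fam
  exact if_pos h

theorem fam_sqr (h1 : 0 ≤ X) (h2 : 0 ≤ Y) (h3 : X < n) (h4 : Y < n) :
    fam n ma mb r X Y = true := by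
  unfold fam
  rw [if_neg (by omega), if_pos ⟨h3, h4⟩]

theorem fam_a (h1 : 0 ≤ X) (h2 : n ≤ Y) (h3 : X < Y) :
    fam n ma mb r X Y = FA (n % 6) (ma r) (X - n) (Y - 2 * n) := by
  unfold fam
  rw [if_neg (by omega), if_neg (by omega), if_pos h3]

theorem fam_b (h1 : 0 ≤ Y) (h2 : n ≤ X) (h3 : Y < X) :
    fam n ma mb r X Y = FB (n % 6) (mb r) (X - 2 * n) (Y - n) := by
  unfold fam
  rw [if_neg (by omega), if_neg (by omega), if_neg (by omega), if_pos h3]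

theorem fam_diag (h1 : n ≤ X) (h2 : X = Y) : fam n ma mb r X Y = false := by
  unfold fam
  split_ifs <;> first | rfl | omega

theorem FA_out {ν : ℤ} {m : ℕ} {dx dy : ℤ} (h : ¬(-8 ≤ dx ∧ dx < 3 ∧ -8 ≤ dy ∧ dy < 3)) :
    FA ν m dx dy = tA ν dx dy := by
  unfold FA inbox
  rw [if_neg]
  simpa using h

theorem FB_out {ν : ℤ} {m : ℕ} {dx dy : ℤ} (h : ¬(-8 ≤ dx ∧ dx < 3 ∧ -8 ≤ dy ∧ dy < 3)) :
    FB ν m dx dy = tB ν dx dy := by
  unfold FB inbox
  rw [if_neg]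
  simpa using h

theorem tA_iff {ν dx dy : ℤ} : tA ν dx dy = true ↔
    dx < 0 ∧ (dy < dx ∨ (dy = dx ∧ ν % 2 = 1)) ∧ gg (ν + dy) ≤ -1 - dx := by
  unfold tA
  exact decide_eq_true_iff

theorem tB_iff {ν dx dy : ℤ} : tB ν dx dy = true ↔
    (dy < 0 ∧ (dx < dy ∨ (dx = dy ∧ ν % 2 = 0))) ∨
    (0 ≤ dy ∧ dy < gg (ν + dx) ∧ (dx < -1 - dy ∨ (dx = -1 - dy ∧ ν % 2 = 1))) := by
  unfold tB
  exact decide_eq_true_iff

/-- Integers `-8 - 1, ..., 2`. -/
def rng : List ℤ := [-9, -8, -7, -6, -5, -4, -3, -2, -1, 0, 1, 2]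

theorem mem_rng {x : ℤ} (h1 : -9 ≤ x) (h2 : x < 3) : x ∈ rng := by
  have : x = -9 ∨ x = -8 ∨ x = -7 ∨ x = -6 ∨ x = -5 ∨ x = -4 ∨ x = -3 ∨ x = -2 ∨ x = -1 ∨
    x = 0 ∨ x = 1 ∨ x = 2 := by omega
  unfold rng
  simp only [List.mem_cons, List.not_mem_nil, or_false]
  exact this

/-- Local conditions at a tip for a net. -/
def locChk (f : ℤ → ℤ → Bool) : Bool :=
  rng.all fun dx => rng.all fun dy =>
    (!(f dx dy) || (decide (dx < 0 ∨ dy < 0) && (f (dx - 1) dy || f dx (dy - 1)))) &&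
    (!(f dx dy && f (dx + 1) (dy + 1)) || f (dx + 1) dy || f dx (dy + 1)) &&
    (!(f (dx + 1) dy && f dx (dy + 1)) || f dx dy)

theorem locChk_spec {f : ℤ → ℤ → Bool} (h : locChk f = true) {dx dy : ℤ} (h1 : -9 ≤ dx)
    (h2 : dx < 3) (h3 : -9 ≤ dy) (h4 : dy < 3) :
    (f dx dy = true → (dx < 0 ∨ dy < 0) ∧ (f (dx - 1) dy = true ∨ f dx (dy - 1) = true)) ∧
    (f dx dy = true → f (dx + 1) (dy + 1) = true → f (dx + 1) dy = true ∨ f dx (dy + 1) = true) ∧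
    (f (dx + 1) dy = true → f dx (dy + 1) = true → f dx dy = true) := by
  unfold locChk at h
  rw [List.all_eq_true] at h
  have h' := h dx (mem_rng h1 h2)
  rw [List.all_eq_true] at h'
  have h'' := h' dy (mem_rng h3 h4)
  simp only [Bool.and_eq_true, Bool.or_eq_true, Bool.not_eq_true', decide_eq_true_iff,
    Bool.and_eq_false_iff] at h''
  obtain ⟨⟨a1, a2⟩, a3⟩ := h''
  refine ⟨?_, ?_, ?_⟩
  · intro hf
    rcases a1 with a1 | a1
    · rw [hf] at a1; exact absurd a1 (by decide)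
    · exact a1
  · intro hf hg
    rcases a2 with ((a2 | a2) | a2) | a2
    · rw [hf] at a2; exact absurd a2 (by decide)
    · rw [hg] at a2; exact absurd a2 (by decide)
    · exact Or.inl a2
    · exact Or.inr a2
  · intro hf hg
    rcases a3 with (a3 | a3) | a3
    · rw [hf] at a3; exact absurd a3 (by decide)
    · rw [hg] at a3; exact absurd a3 (by decide)
    · exact a3

/-- The six candidates for a slot, in coordinates relative to the tips. -/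
def slotSum (ν : ℤ) (ma mb : Fin 3 → ℕ) (r : Fin 3) (x z : ℤ) : ℕ :=
  (FA ν (ma r) x z).toNat + (FB ν (mb (r + 1)) x z).toNat +
  (FB ν (mb r) z (-1 - x)).toNat + (FA ν (ma (r + 1)) (-1 - z) x).toNat +
  (FA ν (ma (r + 2)) z (-1 - x)).toNat + (FB ν (mb (r + 2)) (-1 - z) x).toNat

/-- The finite check for a net. -/
def netChk (ν : ℤ) (ma mb : Fin 3 → ℕ) : Bool :=
  [(0 : Fin 3), 1, 2].all fun r =>
    locChk (FA ν (ma r)) && locChk (FB ν (mb r)) &&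
    (([-8, -7, -6, -5, -4, -3, -2, -1] : List ℤ).all fun x =>
      ([-8, -7, -6, -5, -4, -3, -2, -1] : List ℤ).all fun z =>
        decide (slotSum ν ma mb r x z = 1))

theorem netChk_spec {ν : ℤ} {ma mb : Fin 3 → ℕ} (h : netChk ν ma mb = true) (r : Fin 3) :
    locChk (FA ν (ma r)) = true ∧ locChk (FB ν (mb r)) = true ∧
    ∀ x z : ℤ, -8 ≤ x → x < 0 → -8 ≤ z → z < 0 → slotSum ν ma mb r x z = 1 := by
  unfold netChk at h
  rw [List.all_eq_true] at h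
  have hr : r ∈ [(0 : Fin 3), 1, 2] := by fin_cases r <;> decide
  have h' := h r hr
  rw [Bool.and_eq_true, Bool.and_eq_true] at h'
  obtain ⟨⟨a1, a2⟩, a3⟩ := h'
  refine ⟨a1, a2, ?_⟩
  intro x z x0 x1 z0 z1
  rw [List.all_eq_true] at a3
  have hx : x ∈ ([-8, -7, -6, -5, -4, -3, -2, -1] : List ℤ) := by
    simp only [List.mem_cons, List.not_mem_nil, or_false]
    omega
  have hz : z ∈ ([-8, -7, -6, -5, -4, -3, -2, -1] : List ℤ) := by
    simp only [List.mem_cons, List.not_mem_nil, or_false]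
    omega
  have h3 := a3 x hx
  rw [List.all_eq_true] at h3
  exact decide_eq_true_iff.1 (h3 z hz)

end Pool.Agent.RepCube
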