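import Pool.Agent.RepCube.Fam

/-!
# The families of nets
-/

namespace Pool.Agent.RepCube

variable {n : ℤ} {ma mb : Fin 3 → ℕ} {r : Fin 3} {X Y : ℤ}

/-- Positions of the cells of a shape. -/
theorem fam_true (h : fam n ma mb r X Y = true) : 0 ≤ X ∧ 0 ≤ Y ∧
    ((X < n ∧ Y < n) ∨ (n ≤ Y ∧ X < Y ∧ FA (n % 6) (ma r) (X - n) (Y - 2 * n) = true) ∨
      (n ≤ X ∧ Y < X ∧ FB (n % 6) (mb r) (X - 2 * n) (Y - n) = true)) := by
  unfold fam at h
  split_ifs at h with h1 h2 h3 h4
  · exact ⟨by omega, by omega, Or.inl h2⟩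
  · exact ⟨by omega, by omega, Or.inr (Or.inl ⟨by omega, h3, h⟩)⟩
  · exact ⟨by omega, by omega, Or.inr (Or.inr ⟨by omega, h4, h⟩)⟩

theorem FA_dom {ν : ℤ} {m : ℕ} (hl : locChk (FA ν m) = true) {dx dy : ℤ}
    (h : FA ν m dx dy = true) : (dx < 0 ∨ dy < 0) ∧ dy < 3 ∧ dx < 3 := by
  by_cases hb : -8 ≤ dx ∧ dx < 3 ∧ -8 ≤ dy ∧ dy < 3
  · obtain ⟨h1, h2, h3, h4⟩ := hb
    exact ⟨((locChk_spec hl (by omega) h2 (by omega) h4).1 h).1, h4, h2⟩
  · rw [FA_out hb, tA_iff] at h
    omega

theorem FB_dom {ν : ℤ} {m : ℕ} (hl : locChk (FB ν m) = true) {dx dy : ℤ}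
    (h : FB ν m dx dy = true) : (dx < 0 ∨ dy < 0) ∧ dy < 3 ∧ dx < 3 := by
  by_cases hb : -8 ≤ dx ∧ dx < 3 ∧ -8 ≤ dy ∧ dy < 3
  · obtain ⟨h1, h2, h3, h4⟩ := hb
    exact ⟨((locChk_spec hl (by omega) h2 (by omega) h4).1 h).1, h4, h2⟩
  · rw [FB_out hb, tB_iff] at h
    have := gg_spec (ν + dx)
    omega

theorem fam_dom (hn : 16 ≤ n) (hc : netChk (n % 6) ma mb = true)
    (h : fam n ma mb r X Y = true) : 0 ≤ X ∧ 0 ≤ Y ∧ ((X < n ∧ Y < n) ∨
    (n ≤ Y ∧ X < Y ∧ Y < 3 * n ∧ (X < n ∨ Y < 2 * n)) ∨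
    (n ≤ X ∧ Y < X ∧ X < 3 * n ∧ (Y < n ∨ X < 2 * n))) := by
  obtain ⟨h0, h0', h⟩ := fam_true h
  refine ⟨h0, h0', ?_⟩
  obtain ⟨c1, c2, _⟩ := netChk_spec hc r
  rcases h with h | ⟨h1, h2, h3⟩ | ⟨h1, h2, h3⟩
  · exact Or.inl h
  · have := FA_dom c1 h3
    right; left
    omega
  · have := FB_dom c2 h3
    right; right
    omega

theorem toNat_dec {p : Prop} [Decidable p] : (decide p).toNat = if p then 1 else 0 := by
  by_cases h : p <;> simp [h]

theorem slot_out {ν : ℤ} {ma mb : Fin 3 → ℕ} (r : Fin 3) {x z : ℤ} (hx : x < 0) (hz : z < 0)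
    (h : x < -8 ∨ z < -8) : slotSum ν ma mb r x z = 1 := by
  unfold slotSum
  rw [FA_out (by omega), FB_out (by omega), FB_out (by omega), FA_out (by omega),
    FA_out (by omega), FB_out (by omega)]
  unfold tA tB
  rw [toNat_dec, toNat_dec, toNat_dec, toNat_dec, toNat_dec, toNat_dec]
  have g1 := gg_spec (ν + z)
  have g2 := gg_spec (ν + x)
  have g3 := gg_spec (ν + (-1 - z))
  have g4 := gg_spec (ν + (-1 - x))
  generalize gg (ν + z) = a at *
  generalize gg (ν + x) = b at *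
  generalize gg (ν + (-1 - z)) = c at *
  generalize gg (ν + (-1 - x)) = d at *
  rw [if_neg (show ¬(-1 - z < 0 ∧ (x < -1 - z ∨ x = -1 - z ∧ ν % 2 = 1) ∧ b ≤ -1 - (-1 - z)) by
    omega)]
  rw [if_neg (show ¬(z < 0 ∧ (-1 - x < z ∨ -1 - x = z ∧ ν % 2 = 1) ∧ d ≤ -1 - z) by omega)]
  rw [if_neg (show ¬(x < 0 ∧ (-1 - z < x ∨ -1 - z = x ∧ ν % 2 = 0) ∨
    0 ≤ x ∧ x < c ∧ (-1 - z < -1 - x ∨ -1 - z = -1 - x ∧ ν % 2 = 1)) by omega)]
  split_ifs <;> omega

theorem slot_all {ν : ℤ} {ma mb : Fin 3 → ℕ} (hc : netChk ν ma mb = true) (r : Fin 3) {x z : ℤ}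
    (hx : x < 0) (hz : z < 0) : slotSum ν ma mb r x z = 1 := by
  by_cases h : x < -8 ∨ z < -8
  · exact slot_out r hx hz h
  · exact (netChk_spec hc r).2.2 x z (by omega) hx (by omega) hz

theorem FB_ext {ν : ℤ} {m : ℕ} {z x : ℤ} (hn : 16 ≤ n) (hν : ν = n % 6) (hx0 : x < 0)
    (hz : -n ≤ z) (hz0 : z < 0) (h : FB ν m z (-1 - x) = true) : -n ≤ x + z := by
  by_cases hb : -8 ≤ z ∧ z < 3 ∧ -8 ≤ -1 - x ∧ -1 - x < 3
  · omega
  · rw [FB_out hb, tB_iff] at h
    have := gg_spec (ν + z)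
    omega

theorem FA_ext {ν : ℤ} {m : ℕ} {z x : ℤ} (hn : 16 ≤ n) (hx0 : x < 0) (hz0 : z < 0) (h : FA ν m (-1 - z) x = true) : -n ≤ x + z := by
  by_cases hb : -8 ≤ -1 - z ∧ -1 - z < 3 ∧ -8 ≤ x ∧ x < 3
  · omega
  · rw [FA_out hb, tA_iff] at h
    omega

theorem fam_one (hn : 16 ≤ n) (hc : netChk (n % 6) ma mb = true) (r : Fin 3) {x z : ℤ}
    (hx : 0 ≤ x) (hx' : x < n) (hz : 0 ≤ z) (hz' : z < n) :
    (fam n ma mb r x (n + z)).toNat + (fam n ma mb (r + 1) (n + x) z).toNat +
    (fam n ma mb r (n + z) (2 * n - 1 - x) && decide (n ≤ x + z)).toNat +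
    (fam n ma mb (r + 1) (2 * n - 1 - z) (n + x) && decide (n ≤ x + z)).toNat +
    (fam n ma mb (r + 2) z (3 * n - 1 - x)).toNat +
    (fam n ma mb (r + 2) (3 * n - 1 - z) x).toNat = 1 := by
  have hs := slot_all hc r (x := x - n) (z := z - n) (by omega) (by omega)
  have e1 : fam n ma mb r x (n + z) = FA (n % 6) (ma r) (x - n) (z - n) := by
    rw [fam_a (by omega) (by omega) (by omega)]
    congr 1; ring
  have e2 : fam n ma mb (r + 1) (n + x) z = FB (n % 6) (mb (r + 1)) (x - n) (z - n) := by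
    rw [fam_b (by omega) (by omega) (by omega)]
    congr 1; ring
  have e3 : (fam n ma mb r (n + z) (2 * n - 1 - x) && decide (n ≤ x + z)) =
      FB (n % 6) (mb r) (z - n) (-1 - (x - n)) := by
    by_cases h : n ≤ x + z
    · rw [decide_eq_true h, Bool.and_true, fam_b (by omega) (by omega) (by omega)]
      congr 1 <;> ring
    · rw [decide_eq_false h, Bool.and_false]
      cases hB : FB (n % 6) (mb r) (z - n) (-1 - (x - n))
      · rfl
      · exact absurd (FB_ext hn rfl (by omega) (by omega) (by omega) hB) (by omega)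
  have e4 : (fam n ma mb (r + 1) (2 * n - 1 - z) (n + x) && decide (n ≤ x + z)) =
      FA (n % 6) (ma (r + 1)) (-1 - (z - n)) (x - n) := by
    by_cases h : n ≤ x + z
    · rw [decide_eq_true h, Bool.and_true, fam_a (by omega) (by omega) (by omega)]
      congr 1 <;> ring
    · rw [decide_eq_false h, Bool.and_false]
      cases hB : FA (n % 6) (ma (r + 1)) (-1 - (z - n)) (x - n)
      · rfl
      · exact absurd (FA_ext hn (by omega) (by omega) hB) (by omega)
  have e5 : fam n ma mb (r + 2) z (3 * n - 1 - x) =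
      FA (n % 6) (ma (r + 2)) (z - n) (-1 - (x - n)) := by
    rw [fam_a (by omega) (by omega) (by omega)]
    congr 1; ring
  have e6 : fam n ma mb (r + 2) (3 * n - 1 - z) x =
      FB (n % 6) (mb (r + 2)) (-1 - (z - n)) (x - n) := by
    rw [fam_b (by omega) (by omega) (by omega)]
    congr 1; ring
  rw [e1, e2, e3, e4, e5, e6]
  exact hs

theorem fam_par (hn : 16 ≤ n) (hc : netChk (n % 6) ma mb = true)
    (h : fam n ma mb r X Y = true) (h00 : ¬(X = 0 ∧ Y = 0)) :
    fam n ma mb r (X - 1) Y = true ∨ fam n ma mb r X (Y - 1) = true := by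
  obtain ⟨h0, h0', h⟩ := fam_true h
  obtain ⟨c1, c2, _⟩ := netChk_spec hc r
  rcases h with ⟨h1, h2⟩ | ⟨h1, h2, h3⟩ | ⟨h1, h2, h3⟩
  · by_cases hX : 0 < X
    · exact Or.inl (fam_sqr (by omega) h0' (by omega) h2)
    · exact Or.inr (fam_sqr h0 (by omega) h1 (by omega))
  · by_cases hb : -8 ≤ X - n ∧ X - n < 3 ∧ -8 ≤ Y - 2 * n ∧ Y - 2 * n < 3
    · obtain ⟨b1, b2, b3, b4⟩ := hb
      rcases ((locChk_spec c1 (by omega) b2 (by omega) b4).1 h3).2 with k | k
      · left
        rw [fam_a (by omega) (by omega) (by omega), ← k]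
        congr 1; ring
      · right
        rw [fam_a (by omega) (by omega) (by omega), ← k]
        congr 1; ring
    · rw [FA_out hb, tA_iff] at h3
      by_cases hy : Y = n
      · right
        exact fam_sqr h0 (by omega) (by omega) (by omega)
      · by_cases hp : 2 ≤ -1 - (X - n)
        · right
          rw [fam_a (by omega) (by omega) (by omega), FA_out (by omega), tA_iff]
          have := gg_spec (n % 6 + (Y - 1 - 2 * n))
          omega
        · left
          rw [fam_a (by omega) (by omega) (by omega), FA_out (by omega), tA_iff]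
          have := gg_spec (n % 6 + (Y - 2 * n))
          omega
  · by_cases hb : -8 ≤ X - 2 * n ∧ X - 2 * n < 3 ∧ -8 ≤ Y - n ∧ Y - n < 3
    · obtain ⟨b1, b2, b3, b4⟩ := hb
      rcases ((locChk_spec c2 (by omega) b2 (by omega) b4).1 h3).2 with k | k
      · left
        rw [fam_b (by omega) (by omega) (by omega), ← k]
        congr 1; ring
      · right
        rw [fam_b (by omega) (by omega) (by omega), ← k]
        congr 1; ring
    · rw [FB_out hb, tB_iff] at h3
      by_cases hx : X = n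
      · left
        refine fam_sqr (by omega) h0' (by omega) ?_
        omega
      · rcases h3 with h3 | h3
        · left
          rw [fam_b (by omega) (by omega) (by omega), FB_out (by omega), tB_iff]
          omega
        · right
          have := gg_spec (n % 6 + (X - 2 * n))
          rw [fam_b (by omega) (by omega) (by omega), FB_out (by omega), tB_iff]
          omega

theorem fam_pin1 (hn : 16 ≤ n) (hc : netChk (n % 6) ma mb = true)
    (h : fam n ma mb r X Y = true) (h' : fam n ma mb r (X + 1) (Y + 1) = true) :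
    fam n ma mb r (X + 1) Y = true ∨ fam n ma mb r X (Y + 1) = true := by
  obtain ⟨h0, h0', h⟩ := fam_true h
  obtain ⟨_, _, h'⟩ := fam_true h'
  obtain ⟨c1, c2, _⟩ := netChk_spec hc r
  rcases h with ⟨h1, h2⟩ | ⟨h1, h2, h3⟩ | ⟨h1, h2, h3⟩
  · rcases h' with ⟨k1, k2⟩ | ⟨k1, k2, k3⟩ | ⟨k1, k2, k3⟩
    · exact Or.inl (fam_sqr (by omega) (by omega) (by omega) (by omega))
    · exact Or.inl (fam_sqr (by omega) (by omega) (by omega) (by omega))
    · exact Or.inr (fam_sqr (by omega) (by omega) (by omega) (by omega))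
  · rcases h' with ⟨k1, k2⟩ | ⟨k1, k2, k3⟩ | ⟨k1, k2, k3⟩
    · omega
    · have e1 : X + 1 - n = (X - n) + 1 := by ring
      have e2 : Y + 1 - 2 * n = (Y - 2 * n) + 1 := by ring
      rw [e1, e2] at k3
      by_cases hb : -9 ≤ X - n ∧ X - n < 3 ∧ -9 ≤ Y - 2 * n ∧ Y - 2 * n < 3
      · obtain ⟨b1, b2, b3, b4⟩ := hb
        rcases (locChk_spec c1 b1 b2 b3 b4).2.1 h3 k3 with k | k
        · left
          rw [fam_a (by omega) (by omega) (by omega), ← k, e1]
        · right
          rw [fam_a (by omega) (by omega) (by omega), ← k, e2]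
      · have d := FA_dom c1 h3
        rw [FA_out (by omega), tA_iff] at h3 k3
        have := gg_spec (n % 6 + (Y - 2 * n))
        have := gg_spec (n % 6 + (Y - 2 * n + 1))
        by_cases hq : Y - 2 * n + 1 < X - n
        · right
          rw [fam_a (by omega) (by omega) (by omega), FA_out (by omega), tA_iff, e2]
          omega
        · left
          rw [fam_a (by omega) (by omega) (by omega), FA_out (by omega), tA_iff]
          omega
    · omega
  · rcases h' with ⟨k1, k2⟩ | ⟨k1, k2, k3⟩ | ⟨k1, k2, k3⟩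
    · omega
    · omega
    · have e1 : X + 1 - 2 * n = (X - 2 * n) + 1 := by ring
      have e2 : Y + 1 - n = (Y - n) + 1 := by ring
      rw [e1, e2] at k3
      by_cases hb : -9 ≤ X - 2 * n ∧ X - 2 * n < 3 ∧ -9 ≤ Y - n ∧ Y - n < 3
      · obtain ⟨b1, b2, b3, b4⟩ := hb
        rcases (locChk_spec c2 b1 b2 b3 b4).2.1 h3 k3 with k | k
        · left
          rw [fam_b (by omega) (by omega) (by omega), ← k, e1]
        · right
          rw [fam_b (by omega) (by omega) (by omega), ← k, e2]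
      · have d := FB_dom c2 h3
        rw [FB_out (by omega), tB_iff] at h3 k3
        by_cases hq : X - 2 * n + 1 < Y - n ∨ 0 ≤ Y - n
        · left
          have := gg_spec (n % 6 + (X - 2 * n))
          have := gg_spec (n % 6 + (X - 2 * n + 1))
          rw [fam_b (by omega) (by omega) (by omega), FB_out (by omega), tB_iff, e1]
          omega
        · right
          rcases h3 with h3 | h3
          · have q1 : Y - n < -4 := by omega
            have q2 : X - 2 * n < Y + 1 - n := by omega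
            rw [fam_b (by omega) (by omega) (by omega), FB_out (by omega), tB_iff]
            exact Or.inl ⟨by omega, Or.inl q2⟩
          · omega

theorem fam_pin2 (hn : 16 ≤ n) (hc : netChk (n % 6) ma mb = true) (hX : 0 ≤ X) (hY : 0 ≤ Y)
    (h : fam n ma mb r (X + 1) Y = true) (h' : fam n ma mb r X (Y + 1) = true) :
    fam n ma mb r X Y = true := by
  obtain ⟨_, _, h⟩ := fam_true h
  obtain ⟨_, _, h'⟩ := fam_true h'
  obtain ⟨c1, c2, _⟩ := netChk_spec hc r
  by_cases hs : X < n ∧ Y < n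
  · exact fam_sqr hX hY hs.1 hs.2
  rcases h with ⟨h1, h2⟩ | ⟨h1, h2, h3⟩ | ⟨h1, h2, h3⟩
  · omega
  · rcases h' with ⟨k1, k2⟩ | ⟨k1, k2, k3⟩ | ⟨k1, k2, k3⟩
    · omega
    · have e1 : X + 1 - n = (X - n) + 1 := by ring
      have e2 : Y + 1 - 2 * n = (Y - 2 * n) + 1 := by ring
      rw [e1] at h3
      rw [e2] at k3
      by_cases hb : -9 ≤ X - n ∧ X - n < 3 ∧ -9 ≤ Y - 2 * n ∧ Y - 2 * n < 3
      · obtain ⟨b1, b2, b3, b4⟩ := hb
        rw [fam_a (by omega) (by omega) (by omega)]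
        exact (locChk_spec c1 b1 b2 b3 b4).2.2 h3 k3
      · have d := FA_dom c1 h3
        have d' := FA_dom c1 k3
        rw [FA_out (by omega), tA_iff] at h3 k3
        have := gg_spec (n % 6 + (Y - 2 * n))
        have := gg_spec (n % 6 + (Y - 2 * n + 1))
        rw [fam_a (by omega) (by omega) (by omega), FA_out (by omega), tA_iff]
        omega
    · omega
  · rcases h' with ⟨k1, k2⟩ | ⟨k1, k2, k3⟩ | ⟨k1, k2, k3⟩
    · omega
    · have := FA_dom c1 k3
      rw [FA_out (by omega), tA_iff] at k3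
      omega
    · have e1 : X + 1 - 2 * n = (X - 2 * n) + 1 := by ring
      have e2 : Y + 1 - n = (Y - n) + 1 := by ring
      rw [e1] at h3
      rw [e2] at k3
      by_cases hb : -9 ≤ X - 2 * n ∧ X - 2 * n < 3 ∧ -9 ≤ Y - n ∧ Y - n < 3
      · obtain ⟨b1, b2, b3, b4⟩ := hb
        rw [fam_b (by omega) (by omega) (by omega)]
        exact (locChk_spec c2 b1 b2 b3 b4).2.2 h3 k3
      · have d := FB_dom c2 h3
        have d' := FB_dom c2 k3
        rw [FB_out (by omega), tB_iff] at h3 k3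
        rw [fam_b (by omega) (by omega) (by omega), FB_out (by omega), tB_iff]
        by_cases hq : Y - n < 0
        · exact Or.inl ⟨hq, by omega⟩
        · refine Or.inr ⟨by omega, ?_, by omega⟩
          omega

theorem fam_good (hn : 16 ≤ n) (hc : netChk (n % 6) ma mb = true) : Good n (fam n ma mb) where
  npos := by omega
  dom r X Y h := fam_dom hn hc h
  sqr r X Y h1 h2 h3 h4 := fam_sqr h1 h3 h2 h4
  one r x z h1 h2 h3 h4 := fam_one hn hc r h1 h2 h3 h4
  par r X Y h h0 := fam_par hn hc h h0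
  pin1 r X Y h h' := fam_pin1 hn hc h h'
  pin2 r X Y h1 h2 h h' := fam_pin2 hn hc h1 h2 h h'
  val0 r Y hY := by
    constructor
    · cases h : fam n ma mb r 0 Y
      · rfl
      · rw [fam_a le_rfl (by omega) (by omega), FA_out (by omega), tA_iff] at h
        omega
    · cases h : fam n ma mb r Y 0
      · rfl
      · rw [fam_b le_rfl (by omega) (by omega), FB_out (by omega), tB_iff] at h
        omega
  val1 r := by
    rintro ⟨h, h'⟩
    rw [fam_a le_rfl (by omega) (by omega), FA_out (by omega), tA_iff] at h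
    rw [fam_b le_rfl (by omega) (by omega), FB_out (by omega), tB_iff] at h'
    omega

end Pool.Agent.RepCube
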