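import Pool.Agent.RepCube.Far
import Pool.Agent.RepCube.FamGood

/-!
# One step of the families
-/

namespace Pool.Agent.RepCube

theorem gg_mod {a b : ℤ} (h : a % 6 = b % 6) : gg a = gg b := by
  unfold gg
  rw [h]

theorem tA_mod {ν ν' : ℤ} (h : ν % 6 = ν' % 6) (dx dy : ℤ) : tA ν dx dy = tA ν' dx dy := by
  unfold tA
  rw [gg_mod (show (ν + dy) % 6 = (ν' + dy) % 6 by omega),
    show ν % 2 = ν' % 2 by omega]

theorem tB_mod {ν ν' : ℤ} (h : ν % 6 = ν' % 6) (dx dy : ℤ) : tB ν dx dy = tB ν' dx dy := by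
  unfold tB
  rw [gg_mod (show (ν + dx) % 6 = (ν' + dx) % 6 by omega),
    show ν % 2 = ν' % 2 by omega]

theorem FA_mod {ν ν' : ℤ} (h : ν % 6 = ν' % 6) (m : ℕ) (dx dy : ℤ) :
    FA ν m dx dy = FA ν' m dx dy := by
  unfold FA
  rw [tA_mod h]

theorem FB_mod {ν ν' : ℤ} (h : ν % 6 = ν' % 6) (m : ℕ) (dx dy : ℤ) :
    FB ν m dx dy = FB ν' m dx dy := by
  unfold FB
  rw [tB_mod h]

theorem tA_toNat (ν dx dy : ℤ) : (tA ν dx dy).toNat =
    if dx < 0 ∧ (dy < dx ∨ (dy = dx ∧ ν % 2 = 1)) ∧ gg (ν + dy) ≤ -1 - dx then 1 else 0 := by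
  unfold tA
  exact toNat_dec

theorem tB_toNat (ν dx dy : ℤ) : (tB ν dx dy).toNat =
    if (dy < 0 ∧ (dx < dy ∨ (dx = dy ∧ ν % 2 = 0))) ∨
    (0 ≤ dy ∧ dy < gg (ν + dx) ∧ (dx < -1 - dy ∨ (dx = -1 - dy ∧ ν % 2 = 1))) then 1 else 0 := by
  unfold tB
  exact toNat_dec

/-- Far from the first tip. -/
theorem farA {ν dx dy : ℤ} (h : ¬(-15 ≤ dx ∧ dx < 5 ∧ -15 ≤ dy ∧ dy < 5)) :
    eA ν dx dy + (tA ν dx dy).toNat = (tA (ν + 1) (dx - 1) (dy - 2)).toNat := by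
  rw [tA_toNat, tA_toNat]
  have g0 := gg_spec (ν + dy)
  have g1 := gg_spec (ν + 1 + (dy - 2))
  unfold eA e1 e2
  by_cases hx : dx < -15
  · rw [if_neg (show ¬(dy < -(7 + (ν + 5) % 6) ∧ LaPat (ν + dy) dx) from by
      unfold LaPat; omega)]
    rw [Nat.add_zero]
    generalize gg (ν + dy) = a at *
    generalize gg (ν + 1 + (dy - 2)) = b at *
    have ha : 0 ≤ a ∧ a ≤ 2 := by omega
    have hb : 0 ≤ b ∧ b ≤ 2 := by omega
    clear g0 g1
    split_ifs <;> omega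
  · rw [if_neg (show ¬(ν % 2 = 0 ∧ dx < -(9 + ν % 3) ∧ (dy = dx ∨ dy = dx + 1)) from by omega)]
    rw [Nat.zero_add]
    by_cases hy : dy < -15
    · have c1 : (dx < 0 ∧ (dy < dx ∨ (dy = dx ∧ ν % 2 = 1)) ∧ gg (ν + dy) ≤ -1 - dx) ↔
          gg (ν + dy) ≤ -1 - dx := by
        constructor
        · exact fun h => h.2.2
        · exact fun h => ⟨by omega, by omega, h⟩
      have c2 : (dx - 1 < 0 ∧ (dy - 2 < dx - 1 ∨ (dy - 2 = dx - 1 ∧ (ν + 1) % 2 = 1)) ∧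
          gg (ν + 1 + (dy - 2)) ≤ -1 - (dx - 1)) ↔ gg (ν + 1 + (dy - 2)) ≤ -1 - (dx - 1) := by
        constructor
        · exact fun h => h.2.2
        · exact fun h => ⟨by omega, by omega, h⟩
      have c3 : (dy < -(7 + (ν + 5) % 6) ∧ LaPat (ν + dy) dx) ↔
          (((ν + dy) % 6 = 0 ∧ dx = 0) ∨ ((ν + dy) % 6 = 1 ∧ (dx = -1 ∨ dx = 0)) ∨
          ((ν + dy) % 6 = 2 ∧ (dx = -2 ∨ dx = -1)) ∨ ((ν + dy) % 6 = 3 ∧ dx = -2)) := by
        constructor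
        · exact fun h => h.2
        · exact fun h => ⟨by omega, h⟩
      rw [if_congr c1 rfl rfl, if_congr c2 rfl rfl, if_congr c3 rfl rfl]
      have e : (ν + 1 + (dy - 2)) = ν + dy - 1 := by ring
      rw [e] at g1 ⊢
      clear c1 c2 c3 h e
      generalize ν + dy = z at *
      rcases g0 with ⟨g0, g0'⟩ | ⟨g0, g0'⟩ | ⟨g0, g0'⟩ <;>
      rcases g1 with ⟨g1, g1'⟩ | ⟨g1, g1'⟩ | ⟨g1, g1'⟩ <;> rw [g0', g1'] <;>
      split_ifs <;> omega
    · rw [if_neg (show ¬(dx < 0 ∧ (dy < dx ∨ (dy = dx ∧ ν % 2 = 1)) ∧ gg (ν + dy) ≤ -1 - dx)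
        from by omega)]
      rw [if_neg (show ¬(dx - 1 < 0 ∧ (dy - 2 < dx - 1 ∨ (dy - 2 = dx - 1 ∧ (ν + 1) % 2 = 1)) ∧
        gg (ν + 1 + (dy - 2)) ≤ -1 - (dx - 1)) from by omega)]
      rw [if_neg (show ¬(dy < -(7 + (ν + 5) % 6) ∧ LaPat (ν + dy) dx) from by
        unfold LaPat; omega)]

/-- Far from the second tip. -/
theorem farB {ν dx dy : ℤ} (h : ¬(-15 ≤ dx ∧ dx < 5 ∧ -15 ≤ dy ∧ dy < 5)) :
    eB ν dx dy + (tB ν dx dy).toNat = (tB (ν + 1) (dx - 2) (dy - 1)).toNat := by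
  rw [tB_toNat, tB_toNat]
  have g0 := gg_spec (ν + dx)
  have g1 := gg_spec (ν + 1 + (dx - 2))
  unfold eB e1 e3
  by_cases hy : 0 ≤ dy
  · rw [if_neg (show ¬(ν % 2 = 1 ∧ dy < -(9 + ν % 3) ∧ (dx = dy ∨ dx = dy + 1)) from by omega)]
    rw [Nat.zero_add]
    by_cases hx : dx < -15
    · have c1 : ((dy < 0 ∧ (dx < dy ∨ (dx = dy ∧ ν % 2 = 0))) ∨
          (0 ≤ dy ∧ dy < gg (ν + dx) ∧ (dx < -1 - dy ∨ (dx = -1 - dy ∧ ν % 2 = 1)))) ↔
          dy < gg (ν + dx) := by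
        constructor
        · rintro (h | h)
          · omega
          · exact h.2.1
        · exact fun h => Or.inr ⟨hy, h, by omega⟩
      have c2 : ((dy - 1 < 0 ∧ (dx - 2 < dy - 1 ∨ (dx - 2 = dy - 1 ∧ (ν + 1) % 2 = 0))) ∨
          (0 ≤ dy - 1 ∧ dy - 1 < gg (ν + 1 + (dx - 2)) ∧
          (dx - 2 < -1 - (dy - 1) ∨ (dx - 2 = -1 - (dy - 1) ∧ (ν + 1) % 2 = 1)))) ↔
          dy = 0 ∨ dy - 1 < gg (ν + 1 + (dx - 2)) := by
        constructor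
        · rintro (h | h)
          · omega
          · exact Or.inr h.2.1
        · rintro (h | h)
          · exact Or.inl ⟨by omega, by omega⟩
          · by_cases h0 : dy = 0
            · exact Or.inl ⟨by omega, by omega⟩
            · exact Or.inr ⟨by omega, h, by omega⟩
      have c3 : (dx < 1 - (10 + (ν + 2) % 6) ∧ LbPat (ν + dx) dy) ↔
          (((ν + dx) % 6 = 3 ∧ dy = 2) ∨ ((ν + dx) % 6 = 4 ∧ (dy = 1 ∨ dy = 2)) ∨
          ((ν + dx) % 6 = 5 ∧ (dy = 0 ∨ dy = 1)) ∨ ((ν + dx) % 6 = 0 ∧ dy = 0)) := by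
        constructor
        · exact fun h => h.2
        · exact fun h => ⟨by omega, h⟩
      rw [if_congr c1 rfl rfl, if_congr c2 rfl rfl, if_congr c3 rfl rfl]
      have e : (ν + 1 + (dx - 2)) = ν + dx - 1 := by ring
      rw [e] at g1 ⊢
      clear c1 c2 c3 h e
      generalize ν + dx = z at *
      rcases g0 with ⟨g0, g0'⟩ | ⟨g0, g0'⟩ | ⟨g0, g0'⟩ <;>
      rcases g1 with ⟨g1, g1'⟩ | ⟨g1, g1'⟩ | ⟨g1, g1'⟩ <;> rw [g0', g1'] <;>
      split_ifs <;> omega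
    · have hbig : 5 ≤ dx ∨ 5 ≤ dy := by omega
      rw [if_neg (show ¬((dy < 0 ∧ (dx < dy ∨ (dx = dy ∧ ν % 2 = 0))) ∨
          (0 ≤ dy ∧ dy < gg (ν + dx) ∧ (dx < -1 - dy ∨ (dx = -1 - dy ∧ ν % 2 = 1)))) from by
            omega)]
      rw [if_neg (show ¬((dy - 1 < 0 ∧ (dx - 2 < dy - 1 ∨ (dx - 2 = dy - 1 ∧ (ν + 1) % 2 = 0))) ∨
          (0 ≤ dy - 1 ∧ dy - 1 < gg (ν + 1 + (dx - 2)) ∧
          (dx - 2 < -1 - (dy - 1) ∨ (dx - 2 = -1 - (dy - 1) ∧ (ν + 1) % 2 = 1)))) from by omega)]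
      rw [if_neg (show ¬(dx < 1 - (10 + (ν + 2) % 6) ∧ LbPat (ν + dx) dy) from by
        unfold LbPat; omega)]
  · rw [if_neg (show ¬(dx < 1 - (10 + (ν + 2) % 6) ∧ LbPat (ν + dx) dy) from by
        unfold LbPat; omega)]
    rw [Nat.add_zero]
    have c1 : ((dy < 0 ∧ (dx < dy ∨ (dx = dy ∧ ν % 2 = 0))) ∨
          (0 ≤ dy ∧ dy < gg (ν + dx) ∧ (dx < -1 - dy ∨ (dx = -1 - dy ∧ ν % 2 = 1)))) ↔
          (dx < dy ∨ (dx = dy ∧ ν % 2 = 0)) := by
      clear g0 g1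
      constructor
      · rintro (h | h)
        · exact h.2
        · omega
      · exact fun h => Or.inl ⟨by omega, h⟩
    have c2 : ((dy - 1 < 0 ∧ (dx - 2 < dy - 1 ∨ (dx - 2 = dy - 1 ∧ (ν + 1) % 2 = 0))) ∨
          (0 ≤ dy - 1 ∧ dy - 1 < gg (ν + 1 + (dx - 2)) ∧
          (dx - 2 < -1 - (dy - 1) ∨ (dx - 2 = -1 - (dy - 1) ∧ (ν + 1) % 2 = 1)))) ↔
          (dx - 2 < dy - 1 ∨ (dx - 2 = dy - 1 ∧ (ν + 1) % 2 = 0)) := by
      clear g0 g1
      constructor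
      · rintro (h | h)
        · exact h.2
        · omega
      · exact fun h => Or.inl ⟨by omega, h⟩
    rw [if_congr c1 rfl rfl, if_congr c2 rfl rfl]
    clear g0 g1 c1 c2
    split_ifs <;> omega

/-- The finite check for a step. -/
def stepChk (ν : ℤ) (ma mb ma' mb' : Fin 3 → ℕ) (LA LB : Fin 3 → List (ℕ × ℤ × ℤ)) : Bool :=
  [(0 : Fin 3), 1, 2].all fun r =>
    (LA r).all (fun t => decide (t.1 < 64)) && (LB r).all (fun t => decide (t.1 < 64)) &&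
    (lcells (LA r)).all (fun c => decide (c.1 - c.2 < 16)) &&
    (lcells (LB r)).all (fun c => decide (c.2 - c.1 < 16)) &&
    nearChk (FA ν (ma r)) (fun x y => FA (ν + 1) (ma' r) (x - 1) (y - 2)) (eA ν) (LA r) &&
    nearChk (FB ν (mb r)) (fun x y => FB (ν + 1) (mb' r) (x - 2) (y - 1)) (eB ν) (LB r)

/-- Content of the finite check. -/
structure StepOK (ν : ℤ) (ma mb ma' mb' : ℕ) (LA LB : List (ℕ × ℤ × ℤ)) : Prop where
  sA : ∀ t ∈ LA, t.1 < 64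
  sB : ∀ t ∈ LB, t.1 < 64
  rA : ∀ c ∈ lcells LA, c.1 - c.2 < 16
  rB : ∀ c ∈ lcells LB, c.2 - c.1 < 16
  nA : ∀ x y, -15 ≤ x → x < 5 → -15 ≤ y → y < 5 → cnt LA x y + eA ν x y + (FA ν ma x y).toNat =
    (FA (ν + 1) ma' (x - 1) (y - 2)).toNat
  nB : ∀ x y, -15 ≤ x → x < 5 → -15 ≤ y → y < 5 → cnt LB x y + eB ν x y + (FB ν mb x y).toNat =
    (FB (ν + 1) mb' (x - 2) (y - 1)).toNat
  oA : ∀ x y, ¬(-15 ≤ x ∧ x < 5 ∧ -15 ≤ y ∧ y < 5) → cnt LA x y = 0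
  oB : ∀ x y, ¬(-15 ≤ x ∧ x < 5 ∧ -15 ≤ y ∧ y < 5) → cnt LB x y = 0

theorem stepChk_spec {ν : ℤ} {ma mb ma' mb' : Fin 3 → ℕ} {LA LB : Fin 3 → List (ℕ × ℤ × ℤ)}
    (h : stepChk ν ma mb ma' mb' LA LB = true) (r : Fin 3) :
    StepOK ν (ma r) (mb r) (ma' r) (mb' r) (LA r) (LB r) := by
  unfold stepChk at h
  rw [List.all_eq_true] at h
  have hr : r ∈ [(0 : Fin 3), 1, 2] := by fin_cases r <;> decide
  have h' := h r hr
  simp only [Bool.and_eq_true] at h'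
  obtain ⟨⟨⟨⟨⟨a1, a2⟩, a3⟩, a4⟩, a5⟩, a6⟩ := h'
  have s1 : ∀ t ∈ LA r, t.1 < 64 := fun t ht => of_decide_eq_true (List.all_eq_true.1 a1 t ht)
  have s2 : ∀ t ∈ LB r, t.1 < 64 := fun t ht => of_decide_eq_true (List.all_eq_true.1 a2 t ht)
  obtain ⟨n1, n2⟩ := nearChk_spec s1 a5
  obtain ⟨n3, n4⟩ := nearChk_spec s2 a6
  exact ⟨s1, s2, fun c hc => of_decide_eq_true (List.all_eq_true.1 a3 c hc),
    fun c hc => of_decide_eq_true (List.all_eq_true.1 a4 c hc), n1, n3, n2, n4⟩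

variable {n : ℤ}

theorem cntA_zero {LA : List (ℕ × ℤ × ℤ)} (hn : 16 ≤ n) (sA : ∀ t ∈ LA, t.1 < 64)
    (rA : ∀ c ∈ lcells LA, c.1 - c.2 < 16) {X Y : ℤ} (h : Y ≤ X) :
    cnt (shiftL n (2 * n) LA) X Y = 0 := by
  rw [cnt_shift, cnt_eq sA, List.count_eq_zero]
  intro hm
  have := rA _ hm
  simp only at this
  omega

theorem cntB_zero {LB : List (ℕ × ℤ × ℤ)} (hn : 16 ≤ n) (sB : ∀ t ∈ LB, t.1 < 64)
    (rB : ∀ c ∈ lcells LB, c.2 - c.1 < 16) {X Y : ℤ} (h : X ≤ Y) :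
    cnt (shiftL (2 * n) n LB) X Y = 0 := by
  rw [cnt_shift, cnt_eq sB, List.count_eq_zero]
  intro hm
  have := rB _ hm
  simp only at this
  omega

/-- The diagonal tiles. -/
def DL (n : ℤ) (M : ℕ) : List (ℕ × ℤ × ℤ) := if n % 2 = 0 then DaL n M else DbL n M

theorem cnt_DL (n : ℤ) (M : ℕ) (X Y : ℤ) : cnt (DL n M) X Y =
    if (n % 2 = 0 ∧ 0 ≤ X ∧ X < 3 * M ∧ (Y - n = X ∨ Y - n = X + 1)) ∨
      (n % 2 = 1 ∧ 0 ≤ Y ∧ Y < 3 * M ∧ (X - n = Y ∨ X - n = Y + 1)) then 1 else 0 := by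
  unfold DL
  by_cases h : n % 2 = 0
  · rw [if_pos h, cnt_DaL]
    refine if_congr ?_ rfl rfl
    omega
  · rw [if_neg h, cnt_DbL]
    refine if_congr ?_ rfl rfl
    omega

/-- All tiles of a step in a quadrant. -/
def allL (n : ℤ) (LA LB : List (ℕ × ℤ × ℤ)) : List (ℕ × ℤ × ℤ) :=
  shiftL n (2 * n) LA ++ (shiftL (2 * n) n LB ++ (DL n ((n - e1 (n % 6)) / 3).toNat ++
    (LaL n ((n - e2 (n % 6)) / 6).toNat ++ LbL n ((n - e3 (n % 6)) / 6).toNat)))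

theorem cnt_all (hn : 16 ≤ n) (LA LB : List (ℕ × ℤ × ℤ)) (X Y : ℤ) : cnt (allL n LA LB) X Y =
    cnt (shiftL n (2 * n) LA) X Y + (cnt (shiftL (2 * n) n LB) X Y +
    ((if (n % 2 = 0 ∧ 0 ≤ X ∧ X < n - e1 (n % 6) ∧ (Y - n = X ∨ Y - n = X + 1)) ∨
      (n % 2 = 1 ∧ 0 ≤ Y ∧ Y < n - e1 (n % 6) ∧ (X - n = Y ∨ X - n = Y + 1)) then 1 else 0) +
    ((if 0 ≤ Y - n ∧ Y - n < n - e2 (n % 6) ∧ LaPat (Y - n) (X - n) then 1 else 0) +
    (if 3 ≤ X - n ∧ X - n < n - e3 (n % 6) + 1 ∧ LbPat (X - n) (Y - n) then 1 else 0)))) := by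
  unfold allL
  rw [cnt_append, cnt_append, cnt_append, cnt_append, cnt_DL, cnt_LaL, cnt_LbL]
  have h1 : 3 * ((((n - e1 (n % 6)) / 3).toNat : ℕ) : ℤ) = n - e1 (n % 6) := by
    unfold e1; omega
  have h2 : 6 * ((((n - e2 (n % 6)) / 6).toNat : ℕ) : ℤ) = n - e2 (n % 6) := by
    unfold e2; omega
  have h3 : 6 * ((((n - e3 (n % 6)) / 6).toNat : ℕ) : ℤ) = n - e3 (n % 6) := by
    unfold e3; omega
  rw [h1, h2, h3]

theorem step_sqr (hn : 16 ≤ n) {ma mb ma' mb' : Fin 3 → ℕ} {LA LB : List (ℕ × ℤ × ℤ)} {r : Fin 3}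
    (S : StepOK (n % 6) (ma r) (mb r) (ma' r) (mb' r) LA LB) {X Y : ℤ} (hX : 0 ≤ X) (hY : 0 ≤ Y)
    (h1 : X < n) (h2 : Y < n) :
    cnt (allL n LA LB) X Y + (fam n ma mb r X Y).toNat = (fam (n + 1) ma' mb' r X Y).toNat := by
  rw [cnt_all hn, fam_sqr hX hY h1 h2, fam_sqr hX hY (by omega) (by omega), cnt_shift, cnt_shift,
    S.oA _ _ (by omega), S.oB _ _ (by omega), if_neg (by omega), if_neg (by omega),
    if_neg (by omega)]
  rfl

theorem step_diag (hn : 16 ≤ n) {ma mb ma' mb' : Fin 3 → ℕ} {LA LB : List (ℕ × ℤ × ℤ)} {r : Fin 3}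
    (S : StepOK (n % 6) (ma r) (mb r) (ma' r) (mb' r) LA LB) {X Y : ℤ} (h1 : n ≤ X)
    (h2 : X = Y) :
    cnt (allL n LA LB) X Y + (fam n ma mb r X Y).toNat = (fam (n + 1) ma' mb' r X Y).toNat := by
  subst h2
  rw [cnt_all hn, fam_diag h1 rfl, cntA_zero hn S.sA S.rA le_rfl, cntB_zero hn S.sB S.rB le_rfl,
    if_neg (by omega)]
  rw [if_neg (show ¬(3 ≤ X - n ∧ X - n < n - e3 (n % 6) + 1 ∧ LbPat (X - n) (X - n)) from by
    unfold LbPat; omega)]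
  by_cases h : X = n
  · subst h
    rw [fam_sqr (by omega) (by omega) (by omega) (by omega), if_pos]
    · rfl
    · unfold LaPat e2
      omega
  · rw [fam_diag (by omega) rfl, if_neg]
    · rfl
    · unfold LaPat
      omega

theorem step_a0 (hn : 16 ≤ n) {ma mb ma' mb' : Fin 3 → ℕ} {LA LB : List (ℕ × ℤ × ℤ)} {r : Fin 3}
    (S : StepOK (n % 6) (ma r) (mb r) (ma' r) (mb' r) LA LB) {X : ℤ} (hX : 0 ≤ X) (h1 : X < n) :
    cnt (allL n LA LB) X n + (fam n ma mb r X n).toNat = (fam (n + 1) ma' mb' r X n).toNat := by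
  rw [cnt_all hn, fam_a hX le_rfl h1, fam_sqr hX (by omega) (by omega) (by omega),
    cntB_zero hn S.sB S.rB (by omega), cnt_shift, S.oA _ _ (by omega), FA_out (by omega), tA_toNat]
  rw [if_neg (show ¬(3 ≤ X - n ∧ X - n < n - e3 (n % 6) + 1 ∧ LbPat (X - n) (n - n)) from by
    omega)]
  rw [if_neg (show ¬(0 ≤ n - n ∧ n - n < n - e2 (n % 6) ∧ LaPat (n - n) (X - n)) from by
    unfold LaPat; omega)]
  have g0 : gg (n % 6 + (n - 2 * n)) = 0 := by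
    have := gg_spec (n % 6 + (n - 2 * n))
    omega
  rw [g0]
  unfold e1
  by_cases hX0 : X = 0
  · subst hX0
    by_cases hp : n % 2 = 0
    · rw [if_pos (by omega), if_neg (by omega)]
      rfl
    · rw [if_neg (by omega), if_pos (by omega)]
      rfl
  · rw [if_neg (by omega), if_pos (by omega)]
    rfl

theorem step_b0 (hn : 16 ≤ n) {ma mb ma' mb' : Fin 3 → ℕ} {LA LB : List (ℕ × ℤ × ℤ)} {r : Fin 3}
    (S : StepOK (n % 6) (ma r) (mb r) (ma' r) (mb' r) LA LB) {Y : ℤ} (hY : 0 ≤ Y) (h1 : Y < n) :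
    cnt (allL n LA LB) n Y + (fam n ma mb r n Y).toNat = (fam (n + 1) ma' mb' r n Y).toNat := by
  rw [cnt_all hn, fam_b hY le_rfl h1, fam_sqr (by omega) hY (by omega) (by omega),
    cntA_zero hn S.sA S.rA (by omega), cnt_shift, S.oB _ _ (by omega), FB_out (by omega), tB_toNat]
  rw [if_neg (show ¬(3 ≤ n - n ∧ n - n < n - e3 (n % 6) + 1 ∧ LbPat (n - n) (Y - n)) from by
    omega)]
  rw [if_neg (show ¬(0 ≤ Y - n ∧ Y - n < n - e2 (n % 6) ∧ LaPat (Y - n) (n - n)) from by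
    omega)]
  have g0 : gg (n % 6 + (n - 2 * n)) = 0 := by
    have := gg_spec (n % 6 + (n - 2 * n))
    omega
  rw [g0]
  unfold e1
  by_cases hY0 : Y = 0
  · subst hY0
    by_cases hp : n % 2 = 1
    · rw [if_pos (by omega), if_neg (by omega)]
      rfl
    · rw [if_neg (by omega), if_pos (by omega)]
      rfl
  · rw [if_neg (by omega), if_pos (by omega)]
    rfl

theorem step_a (hn : 16 ≤ n) {ma mb ma' mb' : Fin 3 → ℕ} {LA LB : List (ℕ × ℤ × ℤ)} {r : Fin 3}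
    (S : StepOK (n % 6) (ma r) (mb r) (ma' r) (mb' r) LA LB) {X Y : ℤ} (hX : 0 ≤ X) (h1 : n < Y)
    (h2 : X < Y) :
    cnt (allL n LA LB) X Y + (fam n ma mb r X Y).toNat = (fam (n + 1) ma' mb' r X Y).toNat := by
  have e4 : cnt (allL n LA LB) X Y = cnt LA (X - n) (Y - 2 * n) +
      eA (n % 6) (X - n) (Y - 2 * n) := by
    rw [cnt_all hn, cntB_zero hn S.sB S.rB (by omega), cnt_shift]
    unfold eA
    rw [if_neg (show ¬(3 ≤ X - n ∧ X - n < n - e3 (n % 6) + 1 ∧ LbPat (X - n) (Y - n)) from by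
      unfold LbPat; omega)]
    rw [Nat.zero_add, Nat.add_zero]
    congr 1
    congr 1
    · refine if_congr ?_ rfl rfl
      omega
    · refine if_congr ?_ rfl rfl
      unfold LaPat
      have e : (Y - n) % 6 = (n % 6 + (Y - 2 * n)) % 6 := by omega
      rw [e]
      constructor
      · rintro ⟨k1, k2, k3⟩
        exact ⟨by omega, k3⟩
      · rintro ⟨k1, k3⟩
        exact ⟨by omega, by omega, k3⟩
  rw [e4, fam_a hX (by omega) h2, fam_a hX (by omega) h2,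
    FA_mod (show (n + 1) % 6 % 6 = (n % 6 + 1) % 6 by omega)]
  have e5 : X - (n + 1) = X - n - 1 := by ring
  have e6 : Y - 2 * (n + 1) = Y - 2 * n - 2 := by ring
  rw [e5, e6]
  by_cases hz : -15 ≤ X - n ∧ X - n < 5 ∧ -15 ≤ Y - 2 * n ∧ Y - 2 * n < 5
  · exact S.nA _ _ hz.1 hz.2.1 hz.2.2.1 hz.2.2.2
  · rw [S.oA _ _ hz, FA_out (by omega), FA_out (by omega), Nat.zero_add]
    exact farA hz

theorem step_b (hn : 16 ≤ n) {ma mb ma' mb' : Fin 3 → ℕ} {LA LB : List (ℕ × ℤ × ℤ)} {r : Fin 3}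
    (S : StepOK (n % 6) (ma r) (mb r) (ma' r) (mb' r) LA LB) {X Y : ℤ} (hY : 0 ≤ Y) (h1 : n < X)
    (h2 : Y < X) :
    cnt (allL n LA LB) X Y + (fam n ma mb r X Y).toNat = (fam (n + 1) ma' mb' r X Y).toNat := by
  have e4 : cnt (allL n LA LB) X Y = cnt LB (X - 2 * n) (Y - n) +
      eB (n % 6) (X - 2 * n) (Y - n) := by
    rw [cnt_all hn, cntA_zero hn S.sA S.rA (by omega), cnt_shift]
    unfold eB
    rw [if_neg (show ¬(0 ≤ Y - n ∧ Y - n < n - e2 (n % 6) ∧ LaPat (Y - n) (X - n)) from by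
      unfold LaPat; omega)]
    rw [Nat.zero_add, Nat.zero_add]
    congr 1
    congr 1
    · refine if_congr ?_ rfl rfl
      omega
    · refine if_congr ?_ rfl rfl
      unfold LbPat
      have e : (X - n) % 6 = (n % 6 + (X - 2 * n)) % 6 := by omega
      rw [e]
      constructor
      · rintro ⟨k1, k2, k3⟩
        exact ⟨by omega, k3⟩
      · rintro ⟨k1, k3⟩
        exact ⟨by omega, by omega, k3⟩
  rw [e4, fam_b hY (by omega) h2, fam_b hY (by omega) h2,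
    FB_mod (show (n + 1) % 6 % 6 = (n % 6 + 1) % 6 by omega)]
  have e5 : X - 2 * (n + 1) = X - 2 * n - 2 := by ring
  have e6 : Y - (n + 1) = Y - n - 1 := by ring
  rw [e5, e6]
  by_cases hz : -15 ≤ X - 2 * n ∧ X - 2 * n < 5 ∧ -15 ≤ Y - n ∧ Y - n < 5
  · exact S.nB _ _ hz.1 hz.2.1 hz.2.2.1 hz.2.2.2
  · rw [S.oB _ _ hz, FB_out (by omega), FB_out (by omega), Nat.zero_add]
    exact farB hz

/-- One step of the families. -/
theorem fam_step (hn : 16 ≤ n) {ma mb ma' mb' : Fin 3 → ℕ} (LA LB : Fin 3 → List (ℕ × ℤ × ℤ))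
    (hc : stepChk (n % 6) ma mb ma' mb' LA LB = true) :
    Ext (shape (fam n ma mb)) (shape (fam (n + 1) ma' mb')) := by
  refine ext_step _ _ (fun r => allL n (LA r) (LB r)) ?_ ?_ ?_ ?_
  · intro r t ht
    have S := stepChk_spec hc r
    unfold allL DL LaL LbL DaL DbL at ht
    simp only [List.mem_append] at ht
    rcases ht with ht | ht | ht | ht | ht
    · exact shift_lt S.sA t ht
    · exact shift_lt S.sB t ht
    · split_ifs at ht
      · obtain ⟨m, _, rfl⟩ := List.mem_map.1 ht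
        norm_num
      · obtain ⟨m, _, rfl⟩ := List.mem_map.1 ht
        norm_num
    · obtain ⟨m, _, rfl⟩ := List.mem_map.1 ht
      norm_num
    · obtain ⟨m, _, rfl⟩ := List.mem_map.1 ht
      norm_num
  · intro r X Y h
    have := fam_true h
    exact ⟨this.1, this.2.1⟩
  · intro r X Y hX hY
    have S := stepChk_spec hc r
    by_cases h1 : X < n ∧ Y < n
    · exact step_sqr hn S hX hY h1.1 h1.2
    · rcases lt_trichotomy X Y with h | h | h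
      · by_cases h2 : Y = n
        · subst h2
          exact step_a0 hn S hX h
        · exact step_a hn S hX (by omega) h
      · exact step_diag hn S (by omega) h
      · by_cases h2 : X = n
        · subst h2
          exact step_b0 hn S hY h
        · exact step_b hn S hY (by omega) h
  · intro r X Y h
    have S := stepChk_spec hc r
    show cnt (allL n (LA r) (LB r)) X Y = 0
    rw [cnt_all hn, cnt_shift, cnt_shift, S.oA _ _ (by omega), S.oB _ _ (by omega),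
      if_neg (by omega)]
    rw [if_neg (show ¬(0 ≤ Y - n ∧ Y - n < n - e2 (n % 6) ∧ LaPat (Y - n) (X - n)) from by
      unfold LaPat; omega)]
    rw [if_neg (show ¬(3 ≤ X - n ∧ X - n < n - e3 (n % 6) + 1 ∧ LbPat (X - n) (Y - n)) from by
      unfold LbPat; omega)]

end Pool.Agent.RepCube
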