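import Pool.Agent.RepCube.Fold
import Pool.Agent.RepCube.Fam

/-!
# The periodic families of tiles
-/

namespace Pool.Agent.RepCube

/-- Pattern of the tiles of the right side of the first wing. -/
def LaPat (z x : ℤ) : Prop := (z % 6 = 0 ∧ x = 0) ∨ (z % 6 = 1 ∧ (x = -1 ∨ x = 0)) ∨
  (z % 6 = 2 ∧ (x = -2 ∨ x = -1)) ∨ (z % 6 = 3 ∧ x = -2)

/-- Pattern of the tiles of the upper side of the second wing. -/
def LbPat (k y : ℤ) : Prop := (k % 6 = 3 ∧ y = 2) ∨ (k % 6 = 4 ∧ (y = 1 ∨ y = 2)) ∨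
  (k % 6 = 5 ∧ (y = 0 ∨ y = 1)) ∨ (k % 6 = 0 ∧ y = 0)

instance (z x : ℤ) : Decidable (LaPat z x) := by unfold LaPat; infer_instance
instance (z x : ℤ) : Decidable (LbPat z x) := by unfold LbPat; infer_instance

/-- Tiles of the right side of the first wing. -/
def LaL (n : ℤ) (M : ℕ) : List (ℕ × ℤ × ℤ) :=
  (List.range M).map fun m : ℕ => (48, n - 2, n + 6 * (m : ℤ))

/-- Tiles of the upper side of the second wing. -/
def LbL (n : ℤ) (M : ℕ) : List (ℕ × ℤ × ℤ) :=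
  (List.range M).map fun m : ℕ => (56, n + 6 * (m : ℤ) + 3, n)

/-- Tiles of the diagonal side of the first wing. -/
def DaL (n : ℤ) (M : ℕ) : List (ℕ × ℤ × ℤ) :=
  (List.range M).map fun m : ℕ => (6, 3 * (m : ℤ), n + 3 * (m : ℤ))

/-- Tiles of the diagonal side of the second wing. -/
def DbL (n : ℤ) (M : ℕ) : List (ℕ × ℤ × ℤ) :=
  (List.range M).map fun m : ℕ => (17, n + 3 * (m : ℤ), 3 * (m : ℤ))

theorem off48 : off 48 = [(0, 2), (1, 2), (0, 3), (1, 1), (2, 1), (2, 0)] := by decide +kernel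
theorem off56 : off 56 = [(0, 2), (1, 2), (1, 1), (2, 1), (2, 0), (3, 0)] := by decide +kernel
theorem off6 : off 6 = [(0, 0), (0, 1), (1, 1), (1, 2), (2, 2), (2, 3)] := by decide +kernel
theorem off17 : off 17 = [(0, 0), (1, 0), (1, 1), (2, 1), (2, 2), (3, 2)] := by decide +kernel

theorem cnt_one (t : ℕ × ℤ × ℤ) (X Y : ℤ) : cnt [t] X Y =
    if (X - t.2.1, Y - t.2.2) ∈ off t.1 then 1 else 0 := by
  rw [cnt_cons, cnt_nil, Nat.add_zero]
  unfold hit
  rw [show (decide ((X - t.2.1, Y - t.2.2) ∈ off t.1)).toNat =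
    if (X - t.2.1, Y - t.2.2) ∈ off t.1 then 1 else 0 from by
      by_cases h : (X - t.2.1, Y - t.2.2) ∈ off t.1 <;> simp [h]]

theorem range_succ_map {α : Type*} (f : ℕ → α) (M : ℕ) :
    (List.range (M + 1)).map f = (List.range M).map f ++ [f M] := by
  rw [List.range_succ, List.map_append]
  rfl

theorem cnt_LaL (n : ℤ) (M : ℕ) (X Y : ℤ) : cnt (LaL n M) X Y =
    if 0 ≤ Y - n ∧ Y - n < 6 * M ∧ LaPat (Y - n) (X - n) then 1 else 0 := by
  induction M with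
  | zero =>
    rw [if_neg (by push_cast; omega)]
    rfl
  | succ M ih =>
    unfold LaL at *
    rw [range_succ_map, cnt_append, ih, cnt_one]
    simp only [off48, List.mem_cons, List.not_mem_nil, or_false, Prod.mk.injEq]
    push_cast
    by_cases hz : 6 * (M : ℤ) ≤ Y - n ∧ Y - n < 6 * (M : ℤ) + 6
    · rw [if_neg (show ¬(0 ≤ Y - n ∧ Y - n < 6 * (M : ℤ) ∧ LaPat (Y - n) (X - n)) from
        fun h => by omega), Nat.zero_add]
      have hi : Y - n = 6 * M ∨ Y - n = 6 * M + 1 ∨ Y - n = 6 * M + 2 ∨ Y - n = 6 * M + 3 ∨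
        Y - n = 6 * M + 4 ∨ Y - n = 6 * M + 5 := by omega
      refine if_congr ?_ rfl rfl
      unfold LaPat
      rcases hi with hi | hi | hi | hi | hi | hi <;> rw [hi] <;> omega
    · rw [if_neg (show ¬(X - (n - 2) = 0 ∧ Y - (n + 6 * (M : ℤ)) = 2 ∨
        X - (n - 2) = 1 ∧ Y - (n + 6 * (M : ℤ)) = 2 ∨
        X - (n - 2) = 0 ∧ Y - (n + 6 * (M : ℤ)) = 3 ∨
        X - (n - 2) = 1 ∧ Y - (n + 6 * (M : ℤ)) = 1 ∨
        X - (n - 2) = 2 ∧ Y - (n + 6 * (M : ℤ)) = 1 ∨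
        X - (n - 2) = 2 ∧ Y - (n + 6 * (M : ℤ)) = 0) by omega), Nat.add_zero]
      refine if_congr ?_ rfl rfl
      constructor
      · rintro ⟨h1, h2, h3⟩
        exact ⟨h1, by omega, h3⟩
      · rintro ⟨h1, h2, h3⟩
        exact ⟨h1, by omega, h3⟩

theorem cnt_LbL (n : ℤ) (M : ℕ) (X Y : ℤ) : cnt (LbL n M) X Y =
    if 3 ≤ X - n ∧ X - n < 6 * M + 1 ∧ LbPat (X - n) (Y - n) then 1 else 0 := by
  induction M with
  | zero =>
    rw [if_neg (by push_cast; omega)]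
    rfl
  | succ M ih =>
    unfold LbL at *
    rw [range_succ_map, cnt_append, ih, cnt_one]
    simp only [off56, List.mem_cons, List.not_mem_nil, or_false, Prod.mk.injEq]
    push_cast
    by_cases hz : 6 * (M : ℤ) + 1 ≤ X - n ∧ X - n < 6 * (M : ℤ) + 7
    · rw [if_neg (show ¬(3 ≤ X - n ∧ X - n < 6 * (M : ℤ) + 1 ∧ LbPat (X - n) (Y - n)) from
        fun h => by omega), Nat.zero_add]
      have hi : X - n = 6 * M + 1 ∨ X - n = 6 * M + 2 ∨ X - n = 6 * M + 3 ∨ X - n = 6 * M + 4 ∨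
        X - n = 6 * M + 5 ∨ X - n = 6 * M + 6 := by omega
      refine if_congr ?_ rfl rfl
      unfold LbPat
      rcases hi with hi | hi | hi | hi | hi | hi <;> rw [hi] <;> omega
    · rw [if_neg (show ¬(X - (n + 6 * (M : ℤ) + 3) = 0 ∧ Y - n = 2 ∨
        X - (n + 6 * (M : ℤ) + 3) = 1 ∧ Y - n = 2 ∨
        X - (n + 6 * (M : ℤ) + 3) = 1 ∧ Y - n = 1 ∨
        X - (n + 6 * (M : ℤ) + 3) = 2 ∧ Y - n = 1 ∨
        X - (n + 6 * (M : ℤ) + 3) = 2 ∧ Y - n = 0 ∨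
        X - (n + 6 * (M : ℤ) + 3) = 3 ∧ Y - n = 0) by omega), Nat.add_zero]
      refine if_congr ?_ rfl rfl
      constructor
      · rintro ⟨h1, h2, h3⟩
        exact ⟨h1, by omega, h3⟩
      · rintro ⟨h1, h2, h3⟩
        exact ⟨h1, by omega, h3⟩

theorem cnt_DaL (n : ℤ) (M : ℕ) (X Y : ℤ) : cnt (DaL n M) X Y =
    if 0 ≤ X ∧ X < 3 * M ∧ (Y - n = X ∨ Y - n = X + 1) then 1 else 0 := by
  induction M with
  | zero =>
    rw [if_neg (by push_cast; omega)]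
    rfl
  | succ M ih =>
    unfold DaL at *
    rw [range_succ_map, cnt_append, ih, cnt_one]
    simp only [off6, List.mem_cons, List.not_mem_nil, or_false, Prod.mk.injEq]
    push_cast
    split_ifs <;> omega

theorem cnt_DbL (n : ℤ) (M : ℕ) (X Y : ℤ) : cnt (DbL n M) X Y =
    if 0 ≤ Y ∧ Y < 3 * M ∧ (X - n = Y ∨ X - n = Y + 1) then 1 else 0 := by
  induction M with
  | zero =>
    rw [if_neg (by push_cast; omega)]
    rfl
  | succ M ih =>
    unfold DbL at *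
    rw [range_succ_map, cnt_append, ih, cnt_one]
    simp only [off17, List.mem_cons, List.not_mem_nil, or_false, Prod.mk.injEq]
    push_cast
    split_ifs <;> omega

/-- Where the periodic families stop. -/
def e1 (ν : ℤ) : ℤ := 9 + ν % 3
/-- Where the periodic families stop. -/
def e2 (ν : ℤ) : ℤ := 7 + (ν + 5) % 6
/-- Where the periodic families stop. -/
def e3 (ν : ℤ) : ℤ := 10 + (ν + 2) % 6

/-- The periodic tiles near the first tip. -/
def eA (ν dx dy : ℤ) : ℕ :=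
  (if ν % 2 = 0 ∧ dx < -e1 ν ∧ (dy = dx ∨ dy = dx + 1) then 1 else 0) +
  (if dy < -e2 ν ∧ LaPat (ν + dy) dx then 1 else 0)

/-- The periodic tiles near the second tip. -/
def eB (ν dx dy : ℤ) : ℕ :=
  (if ν % 2 = 1 ∧ dy < -e1 ν ∧ (dx = dy ∨ dx = dy + 1) then 1 else 0) +
  (if dx < 1 - e3 ν ∧ LbPat (ν + dx) dy then 1 else 0)

end Pool.Agent.RepCube
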