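import Pool.Agent.RepCube.Tiling

/-!
# Checking a tiling with bit masks
-/

namespace Pool.Agent.RepCube

/-- Cells of a tile. -/
def tcells (t : ℕ × ℤ × ℤ) : List (ℤ × ℤ) := (off t.1).map fun o => (t.2.1 + o.1, t.2.2 + o.2)

/-- Cells of a list of tiles. -/
def lcells (L : List (ℕ × ℤ × ℤ)) : List (ℤ × ℤ) := L.flatMap tcells

theorem hit_eq {t : ℕ × ℤ × ℤ} (ht : t.1 < 64) (X Y : ℤ) :
    (hit t X Y).toNat = (tcells t).count (X, Y) := by
  have hinj : Function.Injective fun o : ℤ × ℤ => (t.2.1 + o.1, t.2.2 + o.2) := by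
    intro o o' h
    simp only [Prod.mk.injEq] at h
    ext <;> omega
  have e : (X, Y) = (fun o : ℤ × ℤ => (t.2.1 + o.1, t.2.2 + o.2)) (X - t.2.1, Y - t.2.2) := by
    simp
  unfold tcells hit
  rw [e, List.count_map_of_injective _ _ hinj, List.Nodup.count (off_card t.1 ht).1]
  by_cases h : (X - t.2.1, Y - t.2.2) ∈ off t.1
  · simp [h]
  · simp [h]

theorem cnt_eq {L : List (ℕ × ℤ × ℤ)} (hL : ∀ t ∈ L, t.1 < 64) (X Y : ℤ) :
    cnt L X Y = (lcells L).count (X, Y) := by
  induction L with
  | nil => rfl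
  | cons t L ih =>
    rw [cnt_cons, ih (fun t ht => hL t (List.mem_cons_of_mem _ ht)), hit_eq (hL t (by simp))]
    unfold lcells
    rw [List.flatMap_cons, List.count_append]

/-- Put cells into a mask, checking that they are new and in the box. -/
def putCells (W : ℕ) : List (ℤ × ℤ) → ℕ → Option ℕ
  | [], M => some M
  | c :: C, M =>
    if 0 ≤ c.1 ∧ c.1 < W ∧ 0 ≤ c.2 ∧ c.2 < W ∧
        M.testBit (W * c.1.toNat + c.2.toNat) = false then
      putCells W C (M ||| 1 <<< (W * c.1.toNat + c.2.toNat))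
    else none

theorem testBit_put (M i j : ℕ) : (M ||| 1 <<< i).testBit j = (M.testBit j || decide (i = j)) := by
  rw [Nat.testBit_or, Nat.one_shiftLeft, Nat.testBit_two_pow]

theorem idx_inj {W i j i' j' : ℕ} (hj : j < W) (hj' : j' < W) (h : W * i + j = W * i' + j') :
    i = i' ∧ j = j' := by
  have hW : 0 < W := by omega
  have h1 : (W * i + j) / W = i := by
    rw [Nat.mul_add_div hW, Nat.div_eq_of_lt hj]; rfl
  have h2 : (W * i' + j') / W = i' := by
    rw [Nat.mul_add_div hW, Nat.div_eq_of_lt hj']; rfl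
  have e : i = i' := by rw [← h1, ← h2, h]
  subst e
  omega

theorem putCells_spec (W : ℕ) : ∀ (C : List (ℤ × ℤ)) (M M' : ℕ), putCells W C M = some M' →
    (∀ c ∈ C, 0 ≤ c.1 ∧ c.1 < W ∧ 0 ≤ c.2 ∧ c.2 < W) ∧
    ∀ i j : ℕ, i < W → j < W → (M'.testBit (W * i + j)).toNat =
      (M.testBit (W * i + j)).toNat + C.count ((i : ℤ), (j : ℤ)) := by
  intro C
  induction C with
  | nil =>
    intro M M' h
    simp only [putCells, Option.some.injEq] at h
    subst h
    refine ⟨by simp, ?_⟩
    intro i j _ _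
    simp
  | cons c C ih =>
    intro M M' h
    unfold putCells at h
    split_ifs at h with hc
    obtain ⟨c1, c2, c3, c4, c5⟩ := hc
    obtain ⟨i1, i2⟩ := ih _ _ h
    constructor
    · intro d hd
      rcases List.mem_cons.1 hd with rfl | hd
      · exact ⟨c1, c2, c3, c4⟩
      · exact i1 d hd
    · intro i j hi hj
      rw [i2 i j hi hj, testBit_put, List.count_cons]
      by_cases e : c = ((i : ℤ), (j : ℤ))
      · subst e
        simp only [Int.toNat_natCast] at c5 ⊢
        rw [c5]
        simp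
        omega
      · have e1 : ¬(W * c.1.toNat + c.2.toNat = W * i + j) := by
          intro h'
          obtain ⟨k1, k2⟩ := idx_inj (by omega) hj h'
          apply e
          ext <;> simp <;> omega
        rw [decide_eq_false e1, Bool.or_false]
        simp [e]

/-- Translate of a list of tiles. -/
def shiftL (a b : ℤ) (L : List (ℕ × ℤ × ℤ)) : List (ℕ × ℤ × ℤ) :=
  L.map fun t => (t.1, t.2.1 + a, t.2.2 + b)

theorem cnt_shift (a b : ℤ) (L : List (ℕ × ℤ × ℤ)) (X Y : ℤ) :
    cnt (shiftL a b L) X Y = cnt L (X - a) (Y - b) := by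
  induction L with
  | nil => rfl
  | cons t L ih =>
    unfold shiftL at *
    rw [List.map_cons, cnt_cons, cnt_cons, ih]
    unfold hit
    simp only
    have e1 : X - (t.2.1 + a) = X - a - t.2.1 := by ring
    have e2 : Y - (t.2.2 + b) = Y - b - t.2.2 := by ring
    rw [e1, e2]

theorem shift_lt {a b : ℤ} {L : List (ℕ × ℤ × ℤ)} (h : ∀ t ∈ L, t.1 < 64) :
    ∀ t ∈ shiftL a b L, t.1 < 64 := by
  intro t ht
  unfold shiftL at ht
  obtain ⟨t', h', rfl⟩ := List.mem_map.1 ht
  exact h t' h'

/-- Check near a tip: the tiles `L` and the indicator `e` fill the difference between `f` and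
`g` in the box `[-15, 5)²`. -/
def nearChk (f g : ℤ → ℤ → Bool) (e : ℤ → ℤ → ℕ) (L : List (ℕ × ℤ × ℤ)) : Bool :=
  match putCells 20 (lcells (shiftL 15 15 L)) 0 with
  | none => false
  | some M => (List.range 20).all fun i => (List.range 20).all fun j =>
      decide ((M.testBit (20 * i + j)).toNat + e ((i : ℤ) - 15) ((j : ℤ) - 15) +
        (f ((i : ℤ) - 15) ((j : ℤ) - 15)).toNat = (g ((i : ℤ) - 15) ((j : ℤ) - 15)).toNat)

theorem nearChk_spec {f g : ℤ → ℤ → Bool} {e : ℤ → ℤ → ℕ} {L : List (ℕ × ℤ × ℤ)}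
    (hL : ∀ t ∈ L, t.1 < 64) (h : nearChk f g e L = true) :
    (∀ x y, -15 ≤ x → x < 5 → -15 ≤ y → y < 5 → cnt L x y + e x y + (f x y).toNat =
      (g x y).toNat) ∧
    ∀ x y, ¬(-15 ≤ x ∧ x < 5 ∧ -15 ≤ y ∧ y < 5) → cnt L x y = 0 := by
  unfold nearChk at h
  cases hM : putCells 20 (lcells (shiftL 15 15 L)) 0 with
  | none => rw [hM] at h; simp at h
  | some M =>
    rw [hM] at h
    simp only at h
    obtain ⟨p1, p2⟩ := putCells_spec 20 _ _ _ hM
    rw [List.all_eq_true] at h
    constructor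
    · intro x y x0 x1 y0 y1
      have hi : (x + 15).toNat < 20 := by omega
      have hj : (y + 15).toNat < 20 := by omega
      have h1 := h _ (List.mem_range.2 hi)
      rw [List.all_eq_true] at h1
      have h2 := decide_eq_true_iff.1 (h1 _ (List.mem_range.2 hj))
      rw [p2 _ _ hi hj] at h2
      have ex : (((x + 15).toNat : ℕ) : ℤ) = x + 15 := Int.toNat_of_nonneg (by omega)
      have ey : (((y + 15).toNat : ℕ) : ℤ) = y + 15 := Int.toNat_of_nonneg (by omega)
      rw [ex, ey, ← cnt_eq (shift_lt hL), cnt_shift] at h2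
      have ex' : x + 15 - 15 = x := by ring
      have ey' : y + 15 - 15 = y := by ring
      rw [ex', ey'] at h2
      simpa using h2
    · intro x y hxy
      have e1 : cnt L x y = cnt (shiftL 15 15 L) (x + 15) (y + 15) := by
        rw [cnt_shift]
        congr 1 <;> ring
      rw [e1, cnt_eq (shift_lt hL), List.count_eq_zero]
      intro hm
      have := p1 _ hm
      simp only at this
      omega

end Pool.Agent.RepCube
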