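import Pool.Agent.RepCube.FamStep

/-!
# Periodic families
-/

namespace Pool.Agent.RepCube

/-- Windows of the three quadrants. -/
abbrev Win := List (ℕ × ℕ)

/-- Tiles near the tips of the three quadrants. -/
abbrev Tls := List (List (ℕ × ℤ × ℤ) × List (ℕ × ℤ × ℤ))

/-- First windows. -/
def wa (w : Win) (r : Fin 3) : ℕ := (w.getD r.val (0, 0)).1

/-- Second windows. -/
def wb (w : Win) (r : Fin 3) : ℕ := (w.getD r.val (0, 0)).2

/-- Tiles near the first tips. -/
def ta (t : Tls) (r : Fin 3) : List (ℕ × ℤ × ℤ) := (t.getD r.val ([], [])).1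

/-- Tiles near the second tips. -/
def tb (t : Tls) (r : Fin 3) : List (ℕ × ℤ × ℤ) := (t.getD r.val ([], [])).2

/-- The shape with given windows. -/
def famW (w : Win) (n : ℤ) : QS := fam n (wa w) (wb w)

/-- Check for a net. -/
def netW (ν : ℤ) (w : Win) : Bool := netChk ν (wa w) (wb w)

/-- Check for a step. -/
def stepW (ν : ℤ) (w w' : Win) (t : Tls) : Bool :=
  stepChk ν (wa w) (wb w) (wa w') (wb w') (ta t) (tb t)

/-- Periodic shapes. -/
def per (W : List Win) (n : ℤ) : QS := famW (W.getD (n % 6).toNat []) n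

theorem per_eq {W : List Win} {n : ℤ} {k : ℕ} (h : n % 6 = k) : per W n = famW (W.getD k []) n := by
  unfold per
  rw [h, Int.toNat_natCast]

theorem famW_step {n : ℤ} (hn : 16 ≤ n) {ν : ℤ} (hν : n % 6 = ν) {w w' : Win} {t : Tls}
    (h : stepW ν w w' t = true) : Ext (shape (famW w n)) (shape (famW w' (n + 1))) := by
  subst hν
  exact fam_step hn (ta t) (tb t) h

theorem famW_good {n : ℤ} (hn : 16 ≤ n) {ν : ℤ} (hν : n % 6 = ν) {w : Win}
    (h : netW ν w = true) : Good n (famW w n) := by
  subst hν
  exact fam_good hn h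

/-- Periodic step. -/
def perStep (W W' : List Win) (T : List Tls) : Bool :=
  (List.range 6).all fun k =>
    stepW (k : ℤ) (W.getD k []) (W'.getD ((k + 1) % 6) []) (T.getD k [])

/-- Periodic nets. -/
def perNet (W : List Win) : Bool := (List.range 6).all fun k => netW (k : ℤ) (W.getD k [])

theorem per_step {W W' : List Win} {T : List Tls} (h : perStep W W' T = true) {n : ℤ}
    (hn : 16 ≤ n) : Ext (shape (per W n)) (shape (per W' (n + 1))) := by
  unfold perStep at h
  rw [List.all_eq_true] at h
  have hk : (n % 6).toNat < 6 := by omega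
  have h1 := h _ (List.mem_range.2 hk)
  have e1 : n % 6 = ((n % 6).toNat : ℤ) := by omega
  have e2 : (n + 1) % 6 = ((((n % 6).toNat + 1) % 6 : ℕ) : ℤ) := by omega
  rw [per_eq e1, per_eq e2]
  exact famW_step hn e1 h1

theorem per_good {W : List Win} (h : perNet W = true) {n : ℤ} (hn : 16 ≤ n) :
    Good n (per W n) := by
  unfold perNet at h
  rw [List.all_eq_true] at h
  have hk : (n % 6).toNat < 6 := by omega
  have h1 := h _ (List.mem_range.2 hk)
  have e1 : n % 6 = ((n % 6).toNat : ℤ) := by omega
  rw [per_eq e1]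
  exact famW_good hn e1 h1

/-- A periodic chain of shapes with nets above it. -/
structure Fam where
  /-- the chain -/
  T : List Win
  /-- the nets -/
  B : List Win
  /-- tiles between members of the chain -/
  tT : List Tls
  /-- tiles between the chain and the nets -/
  tB : List Tls
  okT : perStep T T tT = true
  okB : perStep T B tB = true
  okN : perNet B = true

theorem Fam.chain (F : Fam) {n : ℤ} (hn : 16 ≤ n) (k : ℕ) :
    Ext (shape (per F.T n)) (shape (per F.T (n + k))) := by
  induction k with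
  | zero =>
    rw [Nat.cast_zero, add_zero]
    exact Ext.refl _
  | succ k ih =>
    refine ih.trans ?_
    have := per_step F.okT (n := n + k) (by omega)
    rw [show n + ((k + 1 : ℕ) : ℤ) = n + k + 1 by push_cast; ring]
    exact this

/-- From the chain to a net. -/
theorem Fam.top (F : Fam) {n : ℤ} (hn : 16 ≤ n) {c : ℕ} (hc : n < c) :
    Ext (shape (per F.T n)) (shape (per F.B c)) := by
  obtain ⟨k, hk⟩ : ∃ k : ℕ, (c : ℤ) = n + k + 1 := ⟨(c - n - 1).toNat, by omega⟩
  have h1 := F.chain hn k
  have h2 := per_step F.okB (n := n + k) (by omega)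
  rw [hk]
  exact h1.trans h2

theorem Fam.rep (F : Fam) {b c : ℕ} {Q : QS} (G : Good b Q) {n : ℤ} (hn : 16 ≤ n) (hc : n < c)
    (h : Ext (shape Q) (shape (per F.T n))) : Rep b c :=
  assemble G (per_good F.okN (by omega)) (h.trans (F.top hn hc))

/-- Several steps. -/
def walk : ℕ → Win → List (Tls × Win) → Bool
  | _, _, [] => true
  | k, w, p :: L => stepW (k : ℤ) w p.2 p.1 && walk ((k + 1) % 6) p.2 L

/-- The last windows. -/
def lastW : Win → List (Tls × Win) → Win
  | w, [] => w
  | _, p :: L => lastW p.2 L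

theorem walk_ext (L : List (Tls × Win)) : ∀ (k : ℕ) (w : Win) (n : ℤ), walk k w L = true →
    n % 6 = k → 16 ≤ n → Ext (shape (famW w n)) (shape (famW (lastW w L) (n + L.length))) := by
  induction L with
  | nil =>
    intro k w n _ _ _
    simp only [lastW, List.length_nil, Nat.cast_zero, add_zero]
    exact Ext.refl _
  | cons p L ih =>
    intro k w n h hk hn
    unfold walk at h
    rw [Bool.and_eq_true] at h
    have h1 := famW_step hn hk h.1
    have h2 := ih ((k + 1) % 6) p.2 (n + 1) h.2 (by push_cast; omega) (by omega)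
    have e : n + 1 + (L.length : ℤ) = n + ((p :: L).length : ℕ) := by
      rw [List.length_cons]; push_cast; ring
    rw [e] at h2
    exact h1.trans h2

/-- Check of a chain from a net to a member of the periodic chain. -/
def walkNT (T : List Win) (k : ℕ) (w : Win) (L : List (Tls × Win)) : Bool :=
  netW (k : ℤ) w && (decide (lastW w L = T.getD ((k + L.length) % 6) []) && walk k w L)

theorem walkNT_rep (F : Fam) {k : ℕ} {w : Win} {L : List (Tls × Win)}
    (h : walkNT F.T k w L = true) {b c : ℕ} (hb : 16 ≤ b) (hk : b % 6 = k)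
    (hc : b + L.length < c) : Rep b c := by
  unfold walkNT at h
  simp only [Bool.and_eq_true, decide_eq_true_eq] at h
  obtain ⟨h2, h3, h4⟩ := h
  have e1 : (b : ℤ) % 6 = (k : ℤ) := by omega
  have G1 : Good b (famW w b) := famW_good (by omega) e1 h2
  have h5 := walk_ext L k w b h4 e1 (by omega)
  have e2 : ((b : ℤ) + (L.length : ℤ)) % 6 = (((k + L.length) % 6 : ℕ) : ℤ) := by
    push_cast; omega
  rw [h3, ← per_eq e2] at h5
  exact F.rep G1 (by omega) (by omega) h5

/-- Check of a chain from a net to a net of a larger cube. -/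
def walkNN (d k : ℕ) (w : Win) (L : List (Tls × Win)) : Bool :=
  decide (L.length = d) && (netW (k : ℤ) w && (netW (((k + d) % 6 : ℕ) : ℤ) (lastW w L) &&
    walk k w L))

theorem walkNN_rep {d k : ℕ} {w : Win} {L : List (Tls × Win)} (h : walkNN d k w L = true) {b : ℕ}
    (hb : 16 ≤ b) (hk : b % 6 = k) : Rep b (b + d) := by
  unfold walkNN at h
  simp only [Bool.and_eq_true, decide_eq_true_eq] at h
  obtain ⟨h1, h2, h3, h4⟩ := h
  have e1 : (b : ℤ) % 6 = (k : ℤ) := by omega
  have e2 : ((b + d : ℕ) : ℤ) % 6 = (((k + d) % 6 : ℕ) : ℤ) := by push_cast; omega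
  have G1 : Good b (famW w b) := famW_good (by omega) e1 h2
  have G2 : Good ((b + d : ℕ) : ℤ) (famW (lastW w L) ((b + d : ℕ) : ℤ)) :=
    famW_good (by push_cast; omega) e2 h3
  have h5 := walk_ext L k w b h4 e1 (by omega)
  rw [h1] at h5
  have e3 : (b : ℤ) + (d : ℤ) = ((b + d : ℕ) : ℤ) := by push_cast; ring
  rw [e3] at h5
  exact assemble G1 G2 h5

/-- Check of data for all residues. -/
def walkAll (d : ℕ) (D : List (Win × List (Tls × Win))) : Bool :=
  (List.range 6).all fun k => walkNN d k (D.getD k ([], [])).1 (D.getD k ([], [])).2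

theorem walkAll_rep {d : ℕ} {D : List (Win × List (Tls × Win))} (h : walkAll d D = true) {b : ℕ}
    (hb : 16 ≤ b) : Rep b (b + d) := by
  unfold walkAll at h
  rw [List.all_eq_true] at h
  exact walkNN_rep (h _ (List.mem_range.2 (Nat.mod_lt b (by norm_num)))) hb rfl

end Pool.Agent.RepCube
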