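import Pool.Agent.RepCube.QSlot

/-!
# Good quadrant data give nets: conclusion
-/

namespace Pool.Agent.RepCube

open Set

variable {n : ℤ} {Q : Fin 3 → ℤ → ℤ → Bool}

instance (Q : Fin 3 → ℤ → ℤ → Bool) (c : Cell) : Decidable (QMem Q c) := by
  unfold QMem; infer_instance

/-- The cells of the shape. -/
noncomputable def cells (n : ℤ) (Q : Fin 3 → ℤ → ℤ → Bool) : Finset Cell :=
  ((Finset.Icc (-(3 * n)) (3 * n)) ×ˢ (Finset.Icc (-(3 * n)) (3 * n))).filter (QMem Q)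

theorem Good.mem_cells (G : Good n Q) (c : Cell) : c ∈ cells n Q ↔ QMem Q c := by
  unfold cells
  rw [Finset.mem_filter, Finset.mem_product, Finset.mem_Icc, Finset.mem_Icc]
  refine ⟨fun h => h.2, fun h => ⟨?_, h⟩⟩
  have hd := G.dom' h.2
  have hp := pos_q h.1
  have hn := G.npos
  unfold Dom at hd
  revert hp hd
  generalize qx c = X
  generalize qy c = Y
  intro hd hp
  obtain ⟨x, y⟩ := c
  match h : qr (x, y) with
  | 0 =>
    rw [h] at hp
    simp only [pos, Prod.mk.injEq] at hp ⊢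
    omega
  | 1 =>
    rw [h] at hp
    simp only [pos, Prod.mk.injEq] at hp ⊢
    omega
  | 2 =>
    rw [h] at hp
    simp only [pos, Prod.mk.injEq] at hp ⊢
    omega

theorem Good.inj (G : Good n Q) {c d : Cell} (hc : QMem Q c) (hd : QMem Q d)
    (h : ctr (pC n c) (uC n c) (vC n c) = ctr (pC n d) (uC n d) (vC n d)) : c = d := by
  rw [ctrC, ctrC] at h
  obtain ⟨e1, e2, e3, e4⟩ := slotCtr_inj G.npos h
  have dc := G.dom' hc.2
  have dd := G.dom' hd.2
  rw [← pos_q hc.1, ← pos_q hd.1]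
  cases hf : sF n (qx c) (qy c)
  · have hf' : sF n (qx d) (qy d) = false := by rw [← e1, hf]
    have key : ∀ X Y : ℤ, Dom n X Y → sF n X Y = false → sR n X Y = 0 ∧ sX n X Y = X ∧
        sZ n X Y = Y := by
      intro X Y hD hs
      unfold Dom at hD
      unfold sF at hs
      unfold sR sX sZ
      split_ifs at hs ⊢
      simp_all
    obtain ⟨a1, a2, a3⟩ := key _ _ dc hf
    obtain ⟨b1, b2, b3⟩ := key _ _ dd hf'
    rw [a1, b1, add_zero, add_zero] at e2
    rw [a2, b2] at e3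
    rw [a3, b3] at e4
    rw [e2, e3, e4]
  · have hf' : sF n (qx d) (qy d) = true := by rw [← e1, hf]
    obtain ⟨i, hi, hi'⟩ := far_cand dc hc.2 hf
    obtain ⟨j, hj, hj'⟩ := far_cand dd hd.2 hf'
    rw [← e2, ← e3, ← e4] at hj hj'
    obtain ⟨r1, r2, r3, r4⟩ := slot_range dc
    have hij := (G.cand _ r1 r2 r3 r4).2 i j hi hj
    subst hij
    rw [hi'] at hj'
    simp only [Prod.mk.injEq] at hj'
    rw [hj'.1, hj'.2.1, hj'.2.2]

/-- Every slot is covered. -/
theorem Good.cover (G : Good n Q) (f : Bool) (r : Fin 3) {x z : ℤ} (h1 : 0 ≤ x) (h2 : x < n)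
    (h3 : 0 ≤ z) (h4 : z < n) : ∃ c, QMem Q c ∧
      ctr (pC n c) (uC n c) (vC n c) = slotCtr n f r x z := by
  cases f
  · refine ⟨pos r x z, (qmem_pos h1 h3).2 (G.sqr r x z h1 h2 h3 h4), ?_⟩
    obtain ⟨e1, e2, e3, -⟩ := q_pos r h1 h3
    rw [ctrC, e1, e2, e3]
    unfold sF sR sX sZ
    simp only [h2, h4, if_true]
    rw [add_zero]
  · obtain ⟨i, hi⟩ := (G.cand r h1 h2 h3 h4).1
    obtain ⟨a1, a2, a3, a4, a5, a6⟩ := slot_cand h1 h2 h3 h4 hi
    have a7 := candQ_spec hi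
    revert a1 a2 a3 a4 a5 a6 a7
    generalize candPos n r x z i = t
    obtain ⟨q, X, Y⟩ := t
    intro a1 a2 a3 a4 a5 a6 a7
    simp only at a1 a2 a3 a4 a5 a6 a7
    refine ⟨pos q X Y, (qmem_pos a1 a2).2 a7, ?_⟩
    obtain ⟨e1, e2, e3, -⟩ := q_pos q a1 a2
    rw [ctrC, e1, e2, e3, a3, a4, a5, a6]

theorem qmem0 {a b : ℤ} (ha : 0 ≤ a) : QMem Q (a, b) ↔ 0 ≤ b ∧ Q 0 a b = true := by
  obtain ⟨e1, e2, e3⟩ := q_case0 (b := b) ha
  unfold QMem
  rw [e1, e2, e3]
  constructor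
  · rintro ⟨h1, h2⟩
    refine ⟨?_, h2⟩
    simp only at h1
    omega
  · rintro ⟨h1, h2⟩
    refine ⟨?_, h2⟩
    simp only
    omega

theorem qmem1 {a b : ℤ} (ha : a < 0) (hb : 0 ≤ b) : QMem Q (a, b) ↔ Q 1 b (-a - 1) = true := by
  obtain ⟨e1, e2, e3⟩ := q_case1 ha hb
  unfold QMem
  rw [e1, e2, e3]
  refine ⟨fun h => h.2, fun h => ⟨?_, h⟩⟩
  simp only
  omega

theorem qmem2 {a b : ℤ} (ha : a < 0) (hb : b < 0) :
    QMem Q (a, b) ↔ Q 2 (-a - 1) (-b - 1) = true := by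
  obtain ⟨e1, e2, e3⟩ := q_case2 ha hb
  unfold QMem
  rw [e1, e2, e3]
  refine ⟨fun h => h.2, fun h => ⟨?_, h⟩⟩
  simp only
  omega

theorem Good.le_of0 (G : Good n Q) {r : Fin 3} {Y : ℤ} (h : Q r 0 Y = true) : Y ≤ n := by
  by_contra hh
  rw [(G.val0 r Y (not_le.1 hh)).1] at h
  exact absurd h (by simp)

theorem Good.le_of1 (G : Good n Q) {r : Fin 3} {Y : ℤ} (h : Q r Y 0 = true) : Y ≤ n := by
  by_contra hh
  rw [(G.val0 r Y (not_le.1 hh)).2] at h
  exact absurd h (by simp)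

theorem Good.pinchA (G : Good n Q) {a b : ℤ} (h1 : QMem Q (a, b)) (h2 : QMem Q (a + 1, b + 1)) :
    QMem Q (a + 1, b) ∨ QMem Q (a, b + 1) := by
  have hn := G.npos
  rcases lt_trichotomy a (-1) with ha | ha | ha
  · rcases lt_trichotomy b (-1) with hb | hb | hb
    · rw [qmem2 (by omega) (by omega)] at h1 h2
      rw [qmem2 (by omega) (by omega), qmem2 (by omega) (by omega)]
      have e1 : -a - 1 = -(a + 1) - 1 + 1 := by ring
      have e2 : -b - 1 = -(b + 1) - 1 + 1 := by ring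
      rw [e1, e2] at h1
      rw [e1, e2]
      exact (G.pin1 2 _ _ h2 h1).symm
    · subst hb
      rw [qmem2 (by omega) (by norm_num)] at h1
      rw [qmem1 (by omega) (by norm_num)] at h2
      norm_num at h1 h2
      left
      rw [qmem2 (by omega) (by norm_num)]
      norm_num
      have e2 := G.le_of1 h1
      exact G.sqr 2 _ _ (by omega) (by omega) le_rfl hn
    · rw [qmem1 (by omega) (by omega)] at h1 h2
      rw [qmem1 (by omega) (by omega), qmem1 (by omega) (by omega)]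
      have e1 : -a - 1 = -(a + 1) - 1 + 1 := by ring
      rw [e1] at h1 ⊢
      exact Or.inl (G.pin2 1 _ _ (by omega) (by omega) h2 h1)
  · subst ha
    rw [show (-1 : ℤ) + 1 = 0 by norm_num] at h2 ⊢
    obtain ⟨hb1, h2'⟩ := (qmem0 le_rfl).1 h2
    have e1 := G.le_of0 h2'
    rcases lt_or_ge b 0 with hb | hb
    · right
      have : b = -1 := by omega
      subst this
      rw [qmem1 (by norm_num) (by norm_num)]
      exact G.sqr 1 _ _ (by norm_num) (by norm_num; omega) (by norm_num) (by norm_num; omega)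
    · left
      rw [qmem0 le_rfl]
      exact ⟨hb, G.sqr 0 _ _ le_rfl hn hb (by omega)⟩
  · have ha0 : 0 ≤ a := by omega
    rw [qmem0 ha0] at h1
    rw [qmem0 (by omega)] at h2
    rw [qmem0 (by omega), qmem0 ha0]
    rcases G.pin1 0 a b h1.2 h2.2 with h | h
    · exact Or.inl ⟨h1.1, h⟩
    · exact Or.inr ⟨by omega, h⟩

theorem Good.pinchB (G : Good n Q) {a b : ℤ} (h1 : QMem Q (a + 1, b)) (h2 : QMem Q (a, b + 1)) :
    QMem Q (a, b) ∨ QMem Q (a + 1, b + 1) := by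
  have hn := G.npos
  rcases lt_trichotomy a (-1) with ha | ha | ha
  · rcases lt_trichotomy b (-1) with hb | hb | hb
    · rw [qmem2 (by omega) (by omega)] at h1 h2
      rw [qmem2 (by omega) (by omega), qmem2 (by omega) (by omega)]
      have e1 : -a - 1 = -(a + 1) - 1 + 1 := by ring
      have e2 : -b - 1 = -(b + 1) - 1 + 1 := by ring
      rw [e1] at h2
      rw [e2] at h1
      rw [e1, e2]
      exact Or.inr (G.pin2 2 _ _ (by omega) (by omega) h2 h1)
    · subst hb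
      rw [qmem1 (by omega) (by norm_num)] at h2
      norm_num at h2
      have e2 := G.le_of0 h2
      right
      rw [qmem1 (by omega) (by norm_num)]
      norm_num
      exact G.sqr 1 _ _ le_rfl hn (by omega) (by omega)
    · rw [qmem1 (by omega) (by omega)] at h1 h2
      rw [qmem1 (by omega) (by omega), qmem1 (by omega) (by omega)]
      have e1 : -a - 1 = -(a + 1) - 1 + 1 := by ring
      rw [e1] at h2 ⊢
      exact (G.pin1 1 _ _ h1 h2).symm
  · subst ha
    rw [show (-1 : ℤ) + 1 = 0 by norm_num] at h1 ⊢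
    obtain ⟨hb, h1'⟩ := (qmem0 le_rfl).1 h1
    rw [qmem1 (by norm_num) (by omega)] at h2
    norm_num at h2
    have e1 := G.le_of1 h2
    left
    rw [qmem1 (by norm_num) hb]
    norm_num
    exact G.sqr 1 _ _ hb (by omega) le_rfl hn
  · have ha0 : 0 ≤ a := by omega
    rw [qmem0 (by omega)] at h1
    rw [qmem0 ha0] at h2
    rw [qmem0 (by omega), qmem0 (by omega)]
    exact Or.inl ⟨h1.1, G.pin2 0 a b ha0 h1.1 h1.2 h2.2⟩

/-- The combinatorial net. -/
noncomputable def Good.net (G : Good n Q) : CNet (cells n Q) n where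
  p := pC n
  u := uC n
  v := vC n
  valid c hc := validC (G.dom' ((G.mem_cells c).1 hc).2)
  hor a b h1 h2 := by
    rw [G.mem_cells] at h1 h2
    obtain ⟨e1, e2⟩ := G.horC h1 h2
    exact ⟨fun i => by rw [e1]; rfl, fun i => by rw [e2]⟩
  ver a b h1 h2 := by
    rw [G.mem_cells] at h1 h2
    obtain ⟨e1, e2⟩ := G.verC h1 h2
    exact ⟨fun i => by rw [e1]; rfl, fun i => by rw [e2]⟩
  pinch1 a b h1 h2 := by
    rw [G.mem_cells] at h1 h2 ⊢
    rw [G.mem_cells]
    exact G.pinchA h1 h2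
  pinch2 a b h1 h2 := by
    rw [G.mem_cells] at h1 h2 ⊢
    rw [G.mem_cells]
    exact G.pinchB h1 h2
  inj c hc d hd h := G.inj ((G.mem_cells c).1 hc) ((G.mem_cells d).1 hd) h
  cov i j k h1 h2 h3 a s t ha s0 s1 t0 t1 := by
    have key : ∃ (f : Bool) (r : Fin 3) (x z : ℤ), (0 ≤ x ∧ x < n ∧ 0 ≤ z ∧ z < n) ∧
        slotCtr n f r x z i = 2 * a ∧ slotCtr n f r x z j = 2 * s + 1 ∧
        slotCtr n f r x z k = 2 * t + 1 := by
      have hc : (i = 0 ∧ j = 1 ∧ k = 2) ∨ (i = 0 ∧ j = 2 ∧ k = 1) ∨ (i = 1 ∧ j = 0 ∧ k = 2) ∨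
          (i = 1 ∧ j = 2 ∧ k = 0) ∨ (i = 2 ∧ j = 0 ∧ k = 1) ∨ (i = 2 ∧ j = 1 ∧ k = 0) := by
        have key0 : ∀ i j k : Fin 3, i ≠ j → j ≠ k → i ≠ k →
            (i = 0 ∧ j = 1 ∧ k = 2) ∨ (i = 0 ∧ j = 2 ∧ k = 1) ∨ (i = 1 ∧ j = 0 ∧ k = 2) ∨
            (i = 1 ∧ j = 2 ∧ k = 0) ∨ (i = 2 ∧ j = 0 ∧ k = 1) ∨ (i = 2 ∧ j = 1 ∧ k = 0) := by
          decide
        exact key0 i j k h1 h2 h3
      rcases ha with ha | ha
      · subst ha
        rcases hc with ⟨rfl, rfl, rfl⟩ | ⟨rfl, rfl, rfl⟩ | ⟨rfl, rfl, rfl⟩ | ⟨rfl, rfl, rfl⟩ |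
          ⟨rfl, rfl, rfl⟩ | ⟨rfl, rfl, rfl⟩
        · exact ⟨false, 1, s, t, ⟨s0, s1, t0, t1⟩, by simp [slotCtr, RR, R3]⟩
        · exact ⟨false, 1, t, s, ⟨t0, t1, s0, s1⟩, by simp [slotCtr, RR, R3]⟩
        · exact ⟨false, 2, t, s, ⟨t0, t1, s0, s1⟩, by simp [slotCtr, RR, R3]⟩
        · exact ⟨false, 2, s, t, ⟨s0, s1, t0, t1⟩, by simp [slotCtr, RR, R3]⟩
        · exact ⟨false, 0, s, t, ⟨s0, s1, t0, t1⟩, by simp [slotCtr, RR]⟩
        · exact ⟨false, 0, t, s, ⟨t0, t1, s0, s1⟩, by simp [slotCtr, RR]⟩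
      · subst ha
        rcases hc with ⟨rfl, rfl, rfl⟩ | ⟨rfl, rfl, rfl⟩ | ⟨rfl, rfl, rfl⟩ | ⟨rfl, rfl, rfl⟩ |
          ⟨rfl, rfl, rfl⟩ | ⟨rfl, rfl, rfl⟩
        · exact ⟨true, 2, t, s, ⟨t0, t1, s0, s1⟩, by simp [slotCtr, RR, R3]⟩
        · exact ⟨true, 2, s, t, ⟨s0, s1, t0, t1⟩, by simp [slotCtr, RR, R3]⟩
        · exact ⟨true, 0, s, t, ⟨s0, s1, t0, t1⟩, by simp [slotCtr, RR]⟩
        · exact ⟨true, 0, t, s, ⟨t0, t1, s0, s1⟩, by simp [slotCtr, RR]⟩
        · exact ⟨true, 1, t, s, ⟨t0, t1, s0, s1⟩, by simp [slotCtr, RR, R3]⟩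
        · exact ⟨true, 1, s, t, ⟨s0, s1, t0, t1⟩, by simp [slotCtr, RR, R3]⟩
    obtain ⟨f, r, x, z, ⟨x0, x1, z0, z1⟩, e1, e2, e3⟩ := key
    obtain ⟨c, hc, hc'⟩ := G.cover f r x0 x1 z0 z1
    refine ⟨c, (G.mem_cells c).2 hc, ?_⟩
    rw [hc']
    exact ⟨e1, e2, e3⟩

/-- The number of cells. -/
theorem Good.card (G : Good n Q) : ((cells n Q).card : ℤ) = 6 * n ^ 2 := by
  have h : (cells n Q).card = ((Finset.univ : Finset (Bool × Fin 3)) ×ˢ
      (Finset.Ico (0 : ℤ) n ×ˢ Finset.Ico (0 : ℤ) n)).card := by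
    refine Finset.card_bij (fun c _ => ((sF n (qx c) (qy c), qr c + sR n (qx c) (qy c)),
      (sX n (qx c) (qy c), sZ n (qx c) (qy c)))) ?_ ?_ ?_
    · intro c hc
      rw [G.mem_cells] at hc
      obtain ⟨h1, h2, h3, h4⟩ := slot_range (G.dom' hc.2)
      simp only [Finset.mem_product, Finset.mem_univ, Finset.mem_Ico, true_and]
      exact ⟨⟨h1, h2⟩, h3, h4⟩
    · intro c hc d hd h
      rw [G.mem_cells] at hc hd
      simp only [Prod.mk.injEq] at h
      apply G.inj hc hd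
      rw [ctrC, ctrC, h.1.1, h.1.2, h.2.1, h.2.2]
    · rintro ⟨⟨f, r⟩, x, z⟩ h
      simp only [Finset.mem_product, Finset.mem_univ, Finset.mem_Ico, true_and] at h
      obtain ⟨⟨x0, x1⟩, z0, z1⟩ := h
      obtain ⟨c, hc, hc'⟩ := G.cover f r x0 x1 z0 z1
      refine ⟨c, (G.mem_cells c).2 hc, ?_⟩
      rw [ctrC] at hc'
      obtain ⟨e1, e2, e3, e4⟩ := slotCtr_inj G.npos hc'
      rw [e1, e2, e3, e4]
  have hn := G.npos
  rw [h, Finset.card_product, Finset.card_product, Finset.card_univ, Int.card_Ico]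
  have e : Fintype.card (Bool × Fin 3) = 6 := rfl
  rw [e]
  push_cast
  rw [Int.toNat_of_nonneg (by omega)]
  ring

/-- Paths inside the shape. -/
def Conn (P : Finset Cell) (c d : Cell) : Prop :=
  Relation.ReflTransGen (fun x y => x ∈ P ∧ y ∈ P ∧ Adj x y) c d

theorem Adj.symm' {c d : Cell} (h : Adj c d) : Adj d c := by
  unfold Adj at h ⊢
  omega

theorem Conn.symm' {P : Finset Cell} {c d : Cell} (h : Conn P c d) : Conn P d c := by
  unfold Conn at h ⊢
  induction h with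
  | refl => exact Relation.ReflTransGen.refl
  | tail _ h2 ih =>
    exact Relation.ReflTransGen.head ⟨h2.2.1, h2.1, h2.2.2.symm'⟩ ih

theorem Conn.trans' {P : Finset Cell} {c d e : Cell} (h : Conn P c d) (h' : Conn P d e) :
    Conn P c e := Relation.ReflTransGen.trans h h'

theorem Conn.single {P : Finset Cell} {c d : Cell} (h1 : c ∈ P) (h2 : d ∈ P) (h3 : Adj c d) :
    Conn P c d := Relation.ReflTransGen.single ⟨h1, h2, h3⟩

theorem adj_pos1 (r : Fin 3) (X Y : ℤ) : Adj (pos r (X - 1) Y) (pos r X Y) := by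
  match r with
  | 0 => simp [Adj, pos]
  | 1 => simp [Adj, pos]
  | 2 => simp [Adj, pos]

theorem adj_pos2 (r : Fin 3) (X Y : ℤ) : Adj (pos r X (Y - 1)) (pos r X Y) := by
  match r with
  | 0 => simp [Adj, pos]
  | 1 => simp [Adj, pos]
  | 2 => simp [Adj, pos]

theorem Good.conn0 (G : Good n Q) (r : Fin 3) (k : ℕ) : ∀ X Y : ℤ, Q r X Y = true →
    X + Y = k → Conn (cells n Q) (pos r 0 0) (pos r X Y) := by
  induction k with
  | zero =>
    intro X Y h hk
    obtain ⟨h1, h2, -⟩ := G.dom r X Y h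
    have e1 : X = 0 := by push_cast at hk; omega
    have e2 : Y = 0 := by push_cast at hk; omega
    rw [e1, e2]
    exact Relation.ReflTransGen.refl
  | succ k ih =>
    intro X Y h hk
    obtain ⟨h1, h2, -⟩ := G.dom r X Y h
    push_cast at hk
    have hm : pos r X Y ∈ cells n Q := (G.mem_cells _).2 ((qmem_pos h1 h2).2 h)
    rcases G.par r X Y h (by omega) with h' | h'
    · obtain ⟨g1, g2, -⟩ := G.dom r _ _ h'
      exact (ih (X - 1) Y h' (by omega)).trans' (Conn.single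
        ((G.mem_cells _).2 ((qmem_pos g1 g2).2 h')) hm (adj_pos1 r X Y))
    · obtain ⟨g1, g2, -⟩ := G.dom r _ _ h'
      exact (ih X (Y - 1) h' (by omega)).trans' (Conn.single
        ((G.mem_cells _).2 ((qmem_pos g1 g2).2 h')) hm (adj_pos2 r X Y))

theorem Good.mem00 (G : Good n Q) (r : Fin 3) : pos r 0 0 ∈ cells n Q := by
  have hn := G.npos
  exact (G.mem_cells _).2 ((qmem_pos le_rfl le_rfl).2 (G.sqr r 0 0 le_rfl hn le_rfl hn))

theorem Good.connected (G : Good n Q) {c : Cell} (hc : c ∈ cells n Q) :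
    Conn (cells n Q) (0, 0) c := by
  have h01 : Conn (cells n Q) (pos 0 0 0) (pos 1 0 0) :=
    Conn.single (G.mem00 0) (G.mem00 1) (by simp [Adj, pos])
  have h12 : Conn (cells n Q) (pos 1 0 0) (pos 2 0 0) :=
    Conn.single (G.mem00 1) (G.mem00 2) (by simp [Adj, pos])
  have hq := (G.mem_cells c).1 hc
  have hd := G.dom' hq.2
  have hp := pos_q hq.1
  have h0 := G.conn0 (qr c) (qx c + qy c).toNat (qx c) (qy c) hq.2
    (by rw [Int.toNat_of_nonneg (by unfold Dom at hd; omega)])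
  rw [hp] at h0
  match h : qr c with
  | 0 => rw [h] at h0; exact h0
  | 1 => rw [h] at h0; exact h01.trans' h0
  | 2 => rw [h] at h0; exact (h01.trans' h12).trans' h0

theorem abs_pos_cell (r : Fin 3) (X Y : ℤ) :
    X + Y ≤ |(pos r X Y).1| + |(pos r X Y).2| := by
  match r with
  | 0 =>
    show X + Y ≤ |X| + |Y|
    have := le_abs_self X
    have := le_abs_self Y
    linarith
  | 1 =>
    show X + Y ≤ |-Y - 1| + |X|
    have := le_abs_self X
    have := neg_abs_le (-Y - 1)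
    linarith
  | 2 =>
    show X + Y ≤ |-X - 1| + |-Y - 1|
    have := neg_abs_le (-X - 1)
    have := neg_abs_le (-Y - 1)
    linarith

theorem Good.escape (G : Good n Q) (r : Fin 3) {X Y : ℤ} (hX : 0 ≤ X) (hY : 0 ≤ Y)
    (h : Q r X Y = false) (k : ℕ) : ∃ X' Y', 0 ≤ X' ∧ 0 ≤ Y' ∧ X' + Y' = X + Y + k ∧
      Q r X' Y' = false ∧ Relation.ReflTransGen
        (fun x y => x ∉ cells n Q ∧ y ∉ cells n Q ∧ Adj x y) (pos r X Y) (pos r X' Y') := by
  have key : ∀ X Y, 0 ≤ X → 0 ≤ Y → Q r X Y = false → pos r X Y ∉ cells n Q := by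
    intro X Y hX hY hf hm
    rw [G.mem_cells, qmem_pos hX hY, hf] at hm
    exact absurd hm (by decide)
  induction k with
  | zero => exact ⟨X, Y, hX, hY, by simp, h, Relation.ReflTransGen.refl⟩
  | succ k ih =>
    obtain ⟨X', Y', h1, h2, h3, h4, h5⟩ := ih
    cases hr : Q r (X' + 1) Y'
    · refine ⟨X' + 1, Y', by omega, h2, by push_cast; omega, hr, h5.tail ⟨key _ _ h1 h2 h4,
        key _ _ (by omega) h2 hr, ?_⟩⟩
      have := adj_pos1 r (X' + 1) Y'
      simpa using this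
    · cases hu : Q r X' (Y' + 1)
      · refine ⟨X', Y' + 1, h1, by omega, by push_cast; omega, hu, h5.tail ⟨key _ _ h1 h2 h4,
          key _ _ h1 (by omega) hu, ?_⟩⟩
        have := adj_pos2 r X' (Y' + 1)
        simpa using this
      · rw [G.pin2 r X' Y' h1 h2 hr hu] at h4
        exact absurd h4 (by decide)

theorem Good.noHoles (G : Good n Q) : NoHoles (cells n Q) := by
  intro c hc N
  by_cases h4 : 0 ≤ c.1 ∧ c.2 < 0
  · have hk : ∀ k : ℕ, ((c.1 + k, c.2) : Cell) ∉ cells n Q ∧ Relation.ReflTransGen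
        (fun x y => x ∉ cells n Q ∧ y ∉ cells n Q ∧ Adj x y) c (c.1 + k, c.2) := by
      intro k
      have key : ∀ k : ℕ, ((c.1 + k, c.2) : Cell) ∉ cells n Q := by
        intro k hm
        rw [G.mem_cells] at hm
        exact hm.1 ⟨by show 0 ≤ c.1 + k; omega, h4.2⟩
      refine ⟨key k, ?_⟩
      induction k with
      | zero =>
        have : ((c.1 + ((0 : ℕ) : ℤ), c.2) : Cell) = c := by ext <;> simp
        rw [this]
      | succ k ih =>
        refine ih.tail ⟨key k, key (k + 1), Or.inl ⟨rfl, Or.inl ?_⟩⟩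
        show c.1 + ((k + 1 : ℕ) : ℤ) = c.1 + (k : ℤ) + 1
        push_cast
        ring
    refine ⟨_, ?_, (hk N.toNat).2⟩
    simp only
    have := le_abs_self (c.1 + (N.toNat : ℤ))
    have := abs_nonneg c.2
    have := Int.self_le_toNat N
    omega
  · have hq : Q (qr c) (qx c) (qy c) = false := by
      cases hh : Q (qr c) (qx c) (qy c)
      · rfl
      · exact absurd ((G.mem_cells c).2 ⟨h4, hh⟩) hc
    have hnn : 0 ≤ qx c ∧ 0 ≤ qy c := by
      unfold qx qy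
      split_ifs <;> omega
    obtain ⟨X', Y', h1, h2, h3, h4', h5⟩ := G.escape (qr c) hnn.1 hnn.2 hq N.toNat
    rw [pos_q h4] at h5
    refine ⟨_, ?_, h5⟩
    have := abs_pos_cell (qr c) X' Y'
    have := Int.self_le_toNat N
    omega

theorem Good.polyomino (G : Good n Q) : IsPolyomino (cells n Q) :=
  ⟨⟨_, G.mem00 0⟩, fun _ hc _ hd => (G.connected hc).symm'.trans' (G.connected hd), G.noHoles⟩

/-- Good quadrant data describe a net. -/
theorem Good.isNet {m : ℕ} (G : Good (m : ℤ) Q) : IsNet (cells m Q) m :=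
  G.net.isNet rfl (by have := G.npos; exact_mod_cast this) G.polyomino

end Pool.Agent.RepCube
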