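import Pool.Agent.RepCube.Quad

/-!
# Good quadrant data give nets
-/

namespace Pool.Agent.RepCube

open Set

/-- The allowed positions in a quadrant. -/
def Dom (n X Y : ℤ) : Prop := 0 ≤ X ∧ 0 ≤ Y ∧ ((X < n ∧ Y < n) ∨
    (n ≤ Y ∧ X < Y ∧ Y < 3 * n ∧ (X < n ∨ Y < 2 * n)) ∨
    (n ≤ X ∧ Y < X ∧ X < 3 * n ∧ (Y < n ∨ X < 2 * n)))

theorem right0 {n X Y : ℤ} (h : Dom n X Y) (h' : Dom n (X + 1) Y) :
    P0 n (X + 1) Y = P0 n X Y + U0 n X Y ∧ V0 n (X + 1) Y = V0 n X Y := by
  unfold Dom at h h'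
  unfold P0 U0 V0
  constructor
  · split_ifs <;> first
      | omega
      | (ext i; fin_cases i <;> simp <;> omega)
  · split_ifs <;> first
      | omega
      | rfl

theorem up0 {n X Y : ℤ} (h : Dom n X Y) (h' : Dom n X (Y + 1)) :
    P0 n X (Y + 1) = P0 n X Y + V0 n X Y ∧ U0 n X (Y + 1) = U0 n X Y := by
  unfold Dom at h h'
  unfold P0 U0 V0
  constructor
  · split_ifs <;> first
      | omega
      | (ext i; fin_cases i <;> simp <;> omega)
  · split_ifs <;> first
      | omega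
      | rfl

theorem valid0 {n X Y : ℤ} (h : Dom n X Y) : Valid n (P0 n X Y) (U0 n X Y) (V0 n X Y) := by
  unfold Dom at h
  unfold P0 U0 V0
  split_ifs
  · refine ⟨2, 0, 1, by decide, by decide, by decide, ?_⟩; simp; omega
  · refine ⟨0, 2, 1, by decide, by decide, by decide, ?_⟩; simp; omega
  · refine ⟨2, 0, 1, by decide, by decide, by decide, ?_⟩; simp; omega
  · refine ⟨0, 1, 2, by decide, by decide, by decide, ?_⟩; simp; omega
  · refine ⟨1, 0, 2, by decide, by decide, by decide, ?_⟩; simp; omega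
  · refine ⟨2, 0, 1, by decide, by decide, by decide, ?_⟩; simp; omega
  · refine ⟨1, 2, 0, by decide, by decide, by decide, ?_⟩; simp; omega

theorem R3_add (f g : V3) : R3 (f + g) = R3 f + R3 g := by
  ext i; fin_cases i <;> simp [R3]

theorem R3_neg (f : V3) : R3 (-f) = -R3 f := by
  ext i; fin_cases i <;> simp [R3]

theorem valid_R3 {n : ℤ} {p u v : V3} (h : Valid n p u v) : Valid n (R3 p) (R3 u) (R3 v) := by
  obtain ⟨i, j, k, h⟩ := h
  refine ⟨i + 1, j + 1, k + 1, ?_⟩
  have key : ∀ (f : V3) (t : Fin 3), R3 f (t + 1) = f t := by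
    intro f t
    fin_cases t <;> rfl
  simp only [key]
  obtain ⟨a, b, c, h⟩ := h
  exact ⟨fun e => a (add_right_cancel e), fun e => b (add_right_cancel e),
    fun e => c (add_right_cancel e), h⟩

/-- Rotation of a square: the frame is turned. -/
theorem valid_turn {n : ℤ} {p u v : V3} (h : Valid n p u v) : Valid n (p + v) (-v) u := by
  obtain ⟨i, j, k, h1, h2, h3, h⟩ := h
  refine ⟨i, k, j, h3, h2.symm, h1, ?_⟩
  simp only [Pi.add_apply, Pi.neg_apply]
  omega

/-- State of a cell of the plane. -/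
def pC (n : ℤ) (c : Cell) : V3 :=
  match qr c with
  | 0 => P0 n (qx c) (qy c)
  | 1 => R3 (P0 n (qx c) (qy c) + V0 n (qx c) (qy c))
  | 2 => R3 (R3 (P0 n (qx c) (qy c) + V0 n (qx c) (qy c) + U0 n (qx c) (qy c)))

/-- State of a cell of the plane. -/
def uC (n : ℤ) (c : Cell) : V3 :=
  match qr c with
  | 0 => U0 n (qx c) (qy c)
  | 1 => R3 (-V0 n (qx c) (qy c))
  | 2 => R3 (R3 (-U0 n (qx c) (qy c)))

/-- State of a cell of the plane. -/
def vC (n : ℤ) (c : Cell) : V3 :=
  match qr c with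
  | 0 => V0 n (qx c) (qy c)
  | 1 => R3 (U0 n (qx c) (qy c))
  | 2 => R3 (R3 (-V0 n (qx c) (qy c)))

theorem validC {n : ℤ} {c : Cell} (h : Dom n (qx c) (qy c)) :
    Valid n (pC n c) (uC n c) (vC n c) := by
  have h0 := valid0 h
  unfold pC uC vC
  match qr c with
  | 0 => exact h0
  | 1 => exact valid_R3 (valid_turn h0)
  | 2 =>
    have h1 := valid_R3 (valid_R3 (valid_turn (valid_turn h0)))
    exact h1

theorem q_case0 {a b : ℤ} (h : 0 ≤ a) : qr (a, b) = 0 ∧ qx (a, b) = a ∧ qy (a, b) = b :=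
  ⟨if_pos h, if_pos h, if_pos h⟩

theorem q_case1 {a b : ℤ} (h : a < 0) (h' : 0 ≤ b) :
    qr (a, b) = 1 ∧ qx (a, b) = b ∧ qy (a, b) = -a - 1 := by
  have h1 : ¬ (0 : ℤ) ≤ a := by omega
  exact ⟨(if_neg h1).trans (if_pos h'), (if_neg h1).trans (if_pos h'),
    (if_neg h1).trans (if_pos h')⟩

theorem q_case2 {a b : ℤ} (h : a < 0) (h' : b < 0) :
    qr (a, b) = 2 ∧ qx (a, b) = -a - 1 ∧ qy (a, b) = -b - 1 := by
  have h1 : ¬ (0 : ℤ) ≤ a := by omega
  have h2 : ¬ (0 : ℤ) ≤ b := by omega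
  exact ⟨(if_neg h1).trans (if_neg h2), (if_neg h1).trans (if_neg h2),
    (if_neg h1).trans (if_neg h2)⟩

variable {n : ℤ} {Q : Fin 3 → ℤ → ℤ → Bool}

theorem Good.dom' (G : Good n Q) {r : Fin 3} {X Y : ℤ} (h : Q r X Y = true) : Dom n X Y :=
  G.dom r X Y h

theorem Good.horC (G : Good n Q) {a b : ℤ} (h1 : QMem Q (a, b)) (h2 : QMem Q (a + 1, b)) :
    pC n (a + 1, b) = pC n (a, b) + uC n (a, b) ∧ vC n (a + 1, b) = vC n (a, b) := by
  have d1 := G.dom' h1.2
  have d2 := G.dom' h2.2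
  have k1 := h1.1
  have k2 := h2.1
  simp only at k1 k2
  by_cases ha : 0 ≤ a
  · obtain ⟨e1, e2, e3⟩ := q_case0 (b := b) ha
    obtain ⟨f1, f2, f3⟩ := q_case0 (a := a + 1) (b := b) (by omega)
    rw [e2, e3] at d1
    rw [f2, f3] at d2
    unfold pC uC vC
    simp only [e1, e2, e3, f1, f2, f3]
    exact right0 d1 d2
  · by_cases ha' : a = -1
    · subst ha'
      have hb : 0 ≤ b := by by_contra hb; exact k2 ⟨by norm_num, by omega⟩
      obtain ⟨e1, e2, e3⟩ := q_case1 (a := -1) (b := b) (by norm_num) hb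
      obtain ⟨f1, f2, f3⟩ := q_case0 (a := -1 + 1) (b := b) (by norm_num)
      have g1 := h1.2
      have g2 := h2.2
      rw [e1, e2, e3] at g1
      rw [f1, f2, f3] at g2
      norm_num at g1 g2
      have hbn : b < n := by
        by_contra hbn
        rcases eq_or_lt_of_le (not_lt.1 hbn) with h | h
        · subst h
          exact G.val1 0 ⟨g2, g1⟩
        · rw [(G.val0 0 b h).1] at g2
          exact absurd g2 (by simp)
      have hn := G.npos
      unfold pC uC vC
      simp only [e1, e2, e3, f1, f2, f3]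
      norm_num
      unfold P0 U0 V0
      rw [if_pos hbn, if_pos hn, if_pos hn, if_pos hbn, if_pos hn, if_pos hbn,
        if_pos hbn, if_pos hn, if_pos hn, if_pos hbn]
      constructor
      · ext i; fin_cases i <;> simp [R3]
      · ext i; fin_cases i <;> simp [R3]
    · by_cases hb : 0 ≤ b
      · obtain ⟨e1, e2, e3⟩ := q_case1 (a := a) (b := b) (by omega) hb
        obtain ⟨f1, f2, f3⟩ := q_case1 (a := a + 1) (b := b) (by omega) hb
        rw [e2, e3] at d1
        rw [f2, f3] at d2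
        have ey : -(a + 1) - 1 + 1 = -a - 1 := by ring
        obtain ⟨r1, r2⟩ := up0 d2 (by rw [ey]; exact d1)
        rw [ey] at r1 r2
        unfold pC uC vC
        simp only [e1, e2, e3, f1, f2, f3]
        rw [← r1, ← R3_add, add_neg_cancel_right, r2]
        exact ⟨rfl, rfl⟩
      · have hb' : b < 0 := by omega
        obtain ⟨e1, e2, e3⟩ := q_case2 (a := a) (b := b) (by omega) hb'
        obtain ⟨f1, f2, f3⟩ := q_case2 (a := a + 1) (b := b) (by omega) hb'
        rw [e2, e3] at d1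
        rw [f2, f3] at d2
        have ey : -(a + 1) - 1 + 1 = -a - 1 := by ring
        obtain ⟨r1, r2⟩ := right0 d2 (by rw [ey]; exact d1)
        rw [ey] at r1 r2
        unfold pC uC vC
        simp only [e1, e2, e3, f1, f2, f3]
        have e4 : P0 n (-(a + 1) - 1) (-b - 1) + V0 n (-(a + 1) - 1) (-b - 1) +
            U0 n (-(a + 1) - 1) (-b - 1) = P0 n (-a - 1) (-b - 1) + V0 n (-a - 1) (-b - 1) := by
          rw [r1, r2]; abel
        rw [e4, ← R3_add, ← R3_add, add_neg_cancel_right, r2]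
        exact ⟨rfl, rfl⟩

theorem Good.verC (G : Good n Q) {a b : ℤ} (h1 : QMem Q (a, b)) (h2 : QMem Q (a, b + 1)) :
    pC n (a, b + 1) = pC n (a, b) + vC n (a, b) ∧ uC n (a, b + 1) = uC n (a, b) := by
  have d1 := G.dom' h1.2
  have d2 := G.dom' h2.2
  have k1 := h1.1
  have k2 := h2.1
  simp only at k1 k2
  by_cases ha : 0 ≤ a
  · obtain ⟨e1, e2, e3⟩ := q_case0 (b := b) ha
    obtain ⟨f1, f2, f3⟩ := q_case0 (b := b + 1) ha
    rw [e2, e3] at d1
    rw [f2, f3] at d2
    unfold pC uC vC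
    simp only [e1, e2, e3, f1, f2, f3]
    exact up0 d1 d2
  · have ha0 : a < 0 := by omega
    by_cases hb0 : 0 ≤ b
    · obtain ⟨e1, e2, e3⟩ := q_case1 (a := a) (b := b) ha0 hb0
      obtain ⟨f1, f2, f3⟩ := q_case1 (a := a) (b := b + 1) ha0 (by omega)
      rw [e2, e3] at d1
      rw [f2, f3] at d2
      obtain ⟨r1, r2⟩ := right0 d1 d2
      unfold pC uC vC
      simp only [e1, e2, e3, f1, f2, f3]
      rw [r1, r2, ← R3_add]
      exact ⟨by congr 1; abel, rfl⟩
    · by_cases hb' : b = -1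
      · subst hb'
        obtain ⟨e1, e2, e3⟩ := q_case2 (a := a) (b := -1) ha0 (by norm_num)
        obtain ⟨f1, f2, f3⟩ := q_case1 (a := a) (b := -1 + 1) ha0 (by norm_num)
        have g1 := h1.2
        have g2 := h2.2
        rw [e1, e2, e3] at g1
        rw [f1, f2, f3] at g2
        norm_num at g1 g2
        have hbn : -a - 1 < n := by
          by_contra hbn
          rcases eq_or_lt_of_le (not_lt.1 hbn) with h | h
          · rw [← h] at g1 g2
            exact G.val1 1 ⟨g2, g1⟩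
          · rw [(G.val0 1 (-a - 1) h).1] at g2
            exact absurd g2 (by simp)
        have hn := G.npos
        unfold pC uC vC
        simp only [e1, e2, e3, f1, f2, f3]
        norm_num
        unfold P0 U0 V0
        rw [if_pos hbn, if_pos hn, if_pos hn, if_pos hbn, if_pos hn, if_pos hbn,
          if_pos hn, if_pos hbn, if_pos hbn, if_pos hn]
        constructor
        · ext i; fin_cases i <;> simp [R3]
        · ext i; fin_cases i <;> simp [R3]
      · have hb2 : b + 1 < 0 := by omega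
        obtain ⟨e1, e2, e3⟩ := q_case2 (a := a) (b := b) ha0 (by omega)
        obtain ⟨f1, f2, f3⟩ := q_case2 (a := a) (b := b + 1) ha0 hb2
        rw [e2, e3] at d1
        rw [f2, f3] at d2
        have ey : -(b + 1) - 1 + 1 = -b - 1 := by ring
        obtain ⟨r1, r2⟩ := up0 d2 (by rw [ey]; exact d1)
        rw [ey] at r1 r2
        unfold pC uC vC
        simp only [e1, e2, e3, f1, f2, f3]
        rw [← r1, ← r2, ← R3_add, ← R3_add]
        exact ⟨by congr 2; abel, rfl⟩

end Pool.Agent.RepCube
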