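import Pool.Agent.RepCube.QNet

/-!
# Good quadrant data give nets: slots
-/

namespace Pool.Agent.RepCube

open Set

/-- `false` for the cells of the three squares. -/
def sF (n X Y : ℤ) : Bool := if Y < n then (if X < n then false else if X < 2 * n then true
    else true)
  else if X < Y then (if n ≤ X then true else if Y < 2 * n then true
    else true)
  else true

/-- Face of the image. -/
def sR (n X Y : ℤ) : Fin 3 := if Y < n then (if X < n then 0 else if X < 2 * n then 2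
    else 1)
  else if X < Y then (if n ≤ X then 2 else if Y < 2 * n then 0
    else 1)
  else 0

/-- First coordinate of the image. -/
def sX (n X Y : ℤ) : ℤ := if Y < n then (if X < n then X else if X < 2 * n then X - n
    else Y)
  else if X < Y then (if n ≤ X then Y - n else if Y < 2 * n then X
    else 3 * n - 1 - Y)
  else 2 * n - 1 - Y

/-- Second coordinate of the image. -/
def sZ (n X Y : ℤ) : ℤ := if Y < n then (if X < n then Y else if X < 2 * n then Y
    else 3 * n - 1 - X)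
  else if X < Y then (if n ≤ X then 2 * n - 1 - X else if Y < 2 * n then Y - n
    else X)
  else X - n

theorem ctr0 {n X Y : ℤ} : ctr (P0 n X Y) (U0 n X Y) (V0 n X Y) =
    slotCtr n (sF n X Y) (sR n X Y) (sX n X Y) (sZ n X Y) := by
  unfold P0 U0 V0 sF sR sX sZ
  split_ifs <;> (ext i; fin_cases i <;> simp [ctr, slotCtr, RR, R3] <;> ring)

theorem RR_slotCtr (q : Fin 3) (n : ℤ) (f : Bool) (r : Fin 3) (x z : ℤ) :
    RR q (slotCtr n f r x z) = slotCtr n f (q + r) x z := by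
  fin_cases q <;> fin_cases r <;> cases f <;> rfl

theorem ctrC (n : ℤ) (c : Cell) : ctr (pC n c) (uC n c) (vC n c) =
    slotCtr n (sF n (qx c) (qy c)) (qr c + sR n (qx c) (qy c)) (sX n (qx c) (qy c))
      (sZ n (qx c) (qy c)) := by
  rw [← RR_slotCtr, ← ctr0]
  unfold pC uC vC
  match qr c with
  | 0 => rfl
  | 1 => ext i; fin_cases i <;> simp [ctr, RR, R3] <;> ring
  | 2 => ext i; fin_cases i <;> simp [ctr, RR, R3] <;> ring

/-- The six possible positions of a slot of a far face. -/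
def candPos (n : ℤ) (r : Fin 3) (x z : ℤ) (i : Fin 6) : Fin 3 × ℤ × ℤ :=
  match i with
  | 0 => (r, x, n + z)
  | 1 => (r + 1, n + x, z)
  | 2 => (r, n + z, 2 * n - 1 - x)
  | 3 => (r + 1, 2 * n - 1 - z, n + x)
  | 4 => (r + 2, z, 3 * n - 1 - x)
  | 5 => (r + 2, 3 * n - 1 - z, x)

/-- Which of the six positions belongs to the shape. -/
def candQ (n : ℤ) (Q : Fin 3 → ℤ → ℤ → Bool) (r : Fin 3) (x z : ℤ) (i : Fin 6) : Bool :=
  match i with
  | 0 => Q r x (n + z)
  | 1 => Q (r + 1) (n + x) z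
  | 2 => Q r (n + z) (2 * n - 1 - x) && decide (n ≤ x + z)
  | 3 => Q (r + 1) (2 * n - 1 - z) (n + x) && decide (n ≤ x + z)
  | 4 => Q (r + 2) z (3 * n - 1 - x)
  | 5 => Q (r + 2) (3 * n - 1 - z) x

theorem six_unique : ∀ f : Fin 6 → Bool, (f 0).toNat + (f 1).toNat + (f 2).toNat + (f 3).toNat +
    (f 4).toNat + (f 5).toNat = 1 → (∃ i, f i = true) ∧ ∀ i j, f i = true → f j = true → i = j := by
  decide

variable {n : ℤ} {Q : Fin 3 → ℤ → ℤ → Bool}

theorem Good.cand (G : Good n Q) (r : Fin 3) {x z : ℤ} (h1 : 0 ≤ x) (h2 : x < n) (h3 : 0 ≤ z)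
    (h4 : z < n) : (∃ i, candQ n Q r x z i = true) ∧
      ∀ i j, candQ n Q r x z i = true → candQ n Q r x z j = true → i = j :=
  six_unique (candQ n Q r x z) (G.one r x z h1 h2 h3 h4)

theorem candQ_spec {r : Fin 3} {x z : ℤ} {i : Fin 6} (h : candQ n Q r x z i = true) :
    Q (candPos n r x z i).1 (candPos n r x z i).2.1 (candPos n r x z i).2.2 = true := by
  match i with
  | 0 => exact h
  | 1 => exact h
  | 2 => exact (Bool.and_eq_true _ _ ▸ h).1
  | 3 => exact (Bool.and_eq_true _ _ ▸ h).1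
  | 4 => exact h
  | 5 => exact h

theorem fin3_add (q : Fin 3) : q + 2 + 1 = q ∧ q + 1 + 2 = q ∧ q + 0 = q := by
  fin_cases q <;> decide

/-- Every far cell is at one of the six positions of its slot. -/
theorem far_cand {q : Fin 3} {X Y : ℤ} (hD : Dom n X Y) (hQ : Q q X Y = true)
    (hf : sF n X Y = true) :
    ∃ i, candQ n Q (q + sR n X Y) (sX n X Y) (sZ n X Y) i = true ∧
      candPos n (q + sR n X Y) (sX n X Y) (sZ n X Y) i = (q, X, Y) := by
  obtain ⟨g1, g2, g3⟩ := fin3_add q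
  unfold Dom at hD
  unfold sF at hf
  unfold sR sX sZ
  split_ifs at hf ⊢ with c1 c2 c3 c4 c5 c6
  · refine ⟨1, ?_, ?_⟩
    · show Q (q + 2 + 1) (n + (X - n)) Y = true
      rw [g1, add_sub_cancel]; exact hQ
    · show (q + 2 + 1, n + (X - n), Y) = (q, X, Y)
      rw [g1, add_sub_cancel]
  · refine ⟨5, ?_, ?_⟩
    · show Q (q + 1 + 2) (3 * n - 1 - (3 * n - 1 - X)) Y = true
      rw [g2, sub_sub_cancel]; exact hQ
    · show (q + 1 + 2, 3 * n - 1 - (3 * n - 1 - X), Y) = (q, X, Y)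
      rw [g2, sub_sub_cancel]
  · refine ⟨3, ?_, ?_⟩
    · show (Q (q + 2 + 1) (2 * n - 1 - (2 * n - 1 - X)) (n + (Y - n)) &&
        decide (n ≤ (Y - n) + (2 * n - 1 - X))) = true
      rw [g1, sub_sub_cancel, add_sub_cancel, hQ, Bool.true_and, decide_eq_true_eq]
      omega
    · show (q + 2 + 1, 2 * n - 1 - (2 * n - 1 - X), n + (Y - n)) = (q, X, Y)
      rw [g1, sub_sub_cancel, add_sub_cancel]
  · refine ⟨0, ?_, ?_⟩
    · show Q (q + 0) X (n + (Y - n)) = true
      rw [g3, add_sub_cancel]; exact hQ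
    · show (q + 0, X, n + (Y - n)) = (q, X, Y)
      rw [g3, add_sub_cancel]
  · refine ⟨4, ?_, ?_⟩
    · show Q (q + 1 + 2) X (3 * n - 1 - (3 * n - 1 - Y)) = true
      rw [g2, sub_sub_cancel]; exact hQ
    · show (q + 1 + 2, X, 3 * n - 1 - (3 * n - 1 - Y)) = (q, X, Y)
      rw [g2, sub_sub_cancel]
  · refine ⟨2, ?_, ?_⟩
    · show (Q (q + 0) (n + (X - n)) (2 * n - 1 - (2 * n - 1 - Y)) &&
        decide (n ≤ (2 * n - 1 - Y) + (X - n))) = true
      rw [g3, sub_sub_cancel, add_sub_cancel, hQ, Bool.true_and, decide_eq_true_eq]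
      omega
    · show (q + 0, n + (X - n), 2 * n - 1 - (2 * n - 1 - Y)) = (q, X, Y)
      rw [g3, sub_sub_cancel, add_sub_cancel]

theorem slot_range {X Y : ℤ} (hD : Dom n X Y) : 0 ≤ sX n X Y ∧ sX n X Y < n ∧ 0 ≤ sZ n X Y ∧
    sZ n X Y < n := by
  unfold Dom at hD
  unfold sX sZ
  split_ifs <;> omega

/-- The slot of a candidate position. -/
theorem slot_cand {r : Fin 3} {x z : ℤ} {i : Fin 6} (h1 : 0 ≤ x) (h2 : x < n) (h3 : 0 ≤ z)
    (h4 : z < n) (h : candQ n Q r x z i = true) :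
    0 ≤ (candPos n r x z i).2.1 ∧ 0 ≤ (candPos n r x z i).2.2 ∧
    sF n (candPos n r x z i).2.1 (candPos n r x z i).2.2 = true ∧
    (candPos n r x z i).1 + sR n (candPos n r x z i).2.1 (candPos n r x z i).2.2 = r ∧
    sX n (candPos n r x z i).2.1 (candPos n r x z i).2.2 = x ∧
    sZ n (candPos n r x z i).2.1 (candPos n r x z i).2.2 = z := by
  obtain ⟨g1, g2, g3⟩ := fin3_add r
  have g4 : r + 1 + 2 = r := g2
  have g5 : r + 2 + 1 = r := g1
  match i with
  | 0 =>
    show 0 ≤ x ∧ 0 ≤ n + z ∧ sF n x (n + z) = true ∧ r + sR n x (n + z) = r ∧ sX n x (n + z) = x ∧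
      sZ n x (n + z) = z
    have c1 : ¬ n + z < n := by omega
    have c2 : x < n + z := by omega
    have c3 : ¬ n ≤ x := by omega
    have c4 : n + z < 2 * n := by omega
    unfold sF sR sX sZ
    simp only [c1, c2, c3, c4, if_true, if_false]
    refine ⟨h1, by omega, trivial, g3, trivial, by ring⟩
  | 1 =>
    show 0 ≤ n + x ∧ 0 ≤ z ∧ sF n (n + x) z = true ∧ r + 1 + sR n (n + x) z = r ∧
      sX n (n + x) z = x ∧ sZ n (n + x) z = z
    have c2 : ¬ n + x < n := by omega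
    have c3 : n + x < 2 * n := by omega
    unfold sF sR sX sZ
    simp only [h4, c2, c3, if_true, if_false]
    refine ⟨by omega, h3, trivial, g4, by ring, trivial⟩
  | 2 =>
    have hd : n ≤ x + z := of_decide_eq_true (Bool.and_eq_true _ _ ▸ h).2
    show 0 ≤ n + z ∧ 0 ≤ 2 * n - 1 - x ∧ sF n (n + z) (2 * n - 1 - x) = true ∧
      r + sR n (n + z) (2 * n - 1 - x) = r ∧
      sX n (n + z) (2 * n - 1 - x) = x ∧ sZ n (n + z) (2 * n - 1 - x) = z
    have c1 : ¬ 2 * n - 1 - x < n := by omega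
    have c2 : ¬ n + z < 2 * n - 1 - x := by omega
    unfold sF sR sX sZ
    simp only [c1, c2, if_false]
    refine ⟨by omega, by omega, trivial, g3, by ring, by ring⟩
  | 3 =>
    have hd : n ≤ x + z := of_decide_eq_true (Bool.and_eq_true _ _ ▸ h).2
    show 0 ≤ 2 * n - 1 - z ∧ 0 ≤ n + x ∧ sF n (2 * n - 1 - z) (n + x) = true ∧
      r + 1 + sR n (2 * n - 1 - z) (n + x) = r ∧
      sX n (2 * n - 1 - z) (n + x) = x ∧ sZ n (2 * n - 1 - z) (n + x) = z
    have c1 : ¬ n + x < n := by omega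
    have c2 : 2 * n - 1 - z < n + x := by omega
    have c3 : n ≤ 2 * n - 1 - z := by omega
    unfold sF sR sX sZ
    simp only [c1, c2, c3, if_true, if_false]
    refine ⟨by omega, by omega, trivial, g4, by ring, by ring⟩
  | 4 =>
    show 0 ≤ z ∧ 0 ≤ 3 * n - 1 - x ∧ sF n z (3 * n - 1 - x) = true ∧
      r + 2 + sR n z (3 * n - 1 - x) = r ∧
      sX n z (3 * n - 1 - x) = x ∧ sZ n z (3 * n - 1 - x) = z
    have c1 : ¬ 3 * n - 1 - x < n := by omega
    have c2 : z < 3 * n - 1 - x := by omega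
    have c3 : ¬ n ≤ z := by omega
    have c4 : ¬ 3 * n - 1 - x < 2 * n := by omega
    unfold sF sR sX sZ
    simp only [c1, c2, c3, c4, if_true, if_false]
    refine ⟨h3, by omega, trivial, g5, by ring, trivial⟩
  | 5 =>
    show 0 ≤ 3 * n - 1 - z ∧ 0 ≤ x ∧ sF n (3 * n - 1 - z) x = true ∧
      r + 2 + sR n (3 * n - 1 - z) x = r ∧
      sX n (3 * n - 1 - z) x = x ∧ sZ n (3 * n - 1 - z) x = z
    have c2 : ¬ 3 * n - 1 - z < n := by omega
    have c3 : ¬ 3 * n - 1 - z < 2 * n := by omega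
    unfold sF sR sX sZ
    simp only [h2, c2, c3, if_true, if_false]
    refine ⟨by omega, h1, trivial, g5, trivial, by ring⟩

end Pool.Agent.RepCube
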