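import Pool.Agent.RepCube.CNet

/-!
# Nets given by three quadrants
-/

namespace Pool.Agent.RepCube

open Set

/-- Position in the plane of the cell `(X, Y)` of the quadrant `r`. -/
def pos (r : Fin 3) (X Y : ℤ) : Cell :=
  match r with
  | 0 => (X, Y)
  | 1 => (-Y - 1, X)
  | 2 => (-X - 1, -Y - 1)

/-- Quadrant of a cell. -/
def qr (c : Cell) : Fin 3 := if 0 ≤ c.1 then 0 else if 0 ≤ c.2 then 1 else 2

/-- First coordinate in the quadrant. -/
def qx (c : Cell) : ℤ := if 0 ≤ c.1 then c.1 else if 0 ≤ c.2 then c.2 else -c.1 - 1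

/-- Second coordinate in the quadrant. -/
def qy (c : Cell) : ℤ := if 0 ≤ c.1 then c.2 else if 0 ≤ c.2 then -c.1 - 1 else -c.2 - 1

/-- The shape described by three quadrants. -/
def QMem (Q : Fin 3 → ℤ → ℤ → Bool) (c : Cell) : Prop :=
  ¬(0 ≤ c.1 ∧ c.2 < 0) ∧ Q (qr c) (qx c) (qy c) = true

theorem pos_q {c : Cell} (h : ¬(0 ≤ c.1 ∧ c.2 < 0)) : pos (qr c) (qx c) (qy c) = c := by
  obtain ⟨x, y⟩ := c
  simp only at h
  unfold qr qx qy
  by_cases h1 : 0 ≤ x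
  · simp [pos, h1]
  · by_cases h2 : 0 ≤ y
    · simp [pos, h1, h2]
    · simp [pos, h1, h2]

theorem q_pos (r : Fin 3) {X Y : ℤ} (hX : 0 ≤ X) (hY : 0 ≤ Y) :
    qr (pos r X Y) = r ∧ qx (pos r X Y) = X ∧ qy (pos r X Y) = Y ∧
      ¬(0 ≤ (pos r X Y).1 ∧ (pos r X Y).2 < 0) := by
  have h1 : ¬ (0 : ℤ) ≤ -Y - 1 := by omega
  have h2 : ¬ (0 : ℤ) ≤ -X - 1 := by omega
  match r with
  | 0 =>
    refine ⟨if_pos hX, if_pos hX, if_pos hX, ?_⟩
    show ¬(0 ≤ X ∧ Y < 0)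
    omega
  | 1 =>
    refine ⟨(if_neg h1).trans (if_pos hX), (if_neg h1).trans (if_pos hX),
      ((if_neg h1).trans (if_pos hX)).trans ?_, ?_⟩
    · show -(-Y - 1) - 1 = Y
      ring
    · show ¬(0 ≤ -Y - 1 ∧ X < 0)
      omega
  | 2 =>
    refine ⟨(if_neg h2).trans (if_neg h1), ((if_neg h2).trans (if_neg h1)).trans ?_,
      ((if_neg h2).trans (if_neg h1)).trans ?_, ?_⟩
    · show -(-X - 1) - 1 = X
      ring
    · show -(-Y - 1) - 1 = Y
      ring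
    · show ¬(0 ≤ -X - 1 ∧ -Y - 1 < 0)
      omega

theorem qmem_pos {Q : Fin 3 → ℤ → ℤ → Bool} {r : Fin 3} {X Y : ℤ} (hX : 0 ≤ X) (hY : 0 ≤ Y) :
    QMem Q (pos r X Y) ↔ Q r X Y = true := by
  obtain ⟨h1, h2, h3, h4⟩ := q_pos r hX hY
  unfold QMem
  rw [h1, h2, h3]
  exact ⟨fun h => h.2, fun h => ⟨h4, h⟩⟩

/-- Good quadrant data: they describe a net of the cube of side `n`. -/
structure Good (n : ℤ) (Q : Fin 3 → ℤ → ℤ → Bool) : Prop where
  npos : 0 < n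
  dom : ∀ r X Y, Q r X Y = true → 0 ≤ X ∧ 0 ≤ Y ∧ ((X < n ∧ Y < n) ∨
    (n ≤ Y ∧ X < Y ∧ Y < 3 * n ∧ (X < n ∨ Y < 2 * n)) ∨
    (n ≤ X ∧ Y < X ∧ X < 3 * n ∧ (Y < n ∨ X < 2 * n)))
  sqr : ∀ r X Y, 0 ≤ X → X < n → 0 ≤ Y → Y < n → Q r X Y = true
  one : ∀ r x z, 0 ≤ x → x < n → 0 ≤ z → z < n →
    (Q r x (n + z)).toNat + (Q (r + 1) (n + x) z).toNat +
    (Q r (n + z) (2 * n - 1 - x) && decide (n ≤ x + z)).toNat +
    (Q (r + 1) (2 * n - 1 - z) (n + x) && decide (n ≤ x + z)).toNat +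
    (Q (r + 2) z (3 * n - 1 - x)).toNat + (Q (r + 2) (3 * n - 1 - z) x).toNat = 1
  par : ∀ r X Y, Q r X Y = true → ¬(X = 0 ∧ Y = 0) →
    Q r (X - 1) Y = true ∨ Q r X (Y - 1) = true
  pin1 : ∀ r X Y, Q r X Y = true → Q r (X + 1) (Y + 1) = true →
    Q r (X + 1) Y = true ∨ Q r X (Y + 1) = true
  pin2 : ∀ r X Y, 0 ≤ X → 0 ≤ Y → Q r (X + 1) Y = true → Q r X (Y + 1) = true →
    Q r X Y = true
  val0 : ∀ r Y, n < Y → Q r 0 Y = false ∧ Q r Y 0 = false
  val1 : ∀ r, ¬(Q r 0 n = true ∧ Q (r + 1) n 0 = true)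

/-! ### The folding map on a quadrant -/

/-- Image of the lower left corner. -/
def P0 (n X Y : ℤ) : V3 :=
  if Y < n then (if X < n then ![X, Y, 0] else if X < 2 * n then ![n, Y, X - n]
    else ![3 * n - X, Y, n])
  else if X < Y then (if n ≤ X then ![n, 2 * n - X, Y - n] else if Y < 2 * n then ![X, n, Y - n]
    else ![X, 3 * n - Y, n])
  else ![2 * n - Y, n, X - n]

/-- Image of the first unit vector. -/
def U0 (n X Y : ℤ) : V3 :=
  if Y < n then (if X < n then ![1, 0, 0] else if X < 2 * n then ![0, 0, 1]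
    else ![-1, 0, 0])
  else if X < Y then (if n ≤ X then ![0, -1, 0] else if Y < 2 * n then ![1, 0, 0]
    else ![1, 0, 0])
  else ![0, 0, 1]

/-- Image of the second unit vector. -/
def V0 (n X Y : ℤ) : V3 :=
  if Y < n then (if X < n then ![0, 1, 0] else if X < 2 * n then ![0, 1, 0]
    else ![0, 1, 0])
  else if X < Y then (if n ≤ X then ![0, 0, 1] else if Y < 2 * n then ![0, 0, 1]
    else ![0, -1, 0])
  else ![-1, 0, 0]

/-- Rotation of space. -/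
def R3 (f : V3) : V3 := ![f 2, f 0, f 1]

/-- Rotation of space, iterated. -/
def RR (r : Fin 3) (f : V3) : V3 :=
  match r with
  | 0 => f
  | 1 => R3 f
  | 2 => R3 (R3 f)

/-- Slots: the lattice squares of the surface. `(false, r, x, z)` belongs to a face containing the
origin, `(true, r, x, z)` to one of the other faces. -/
def slotCtr (n : ℤ) (far : Bool) (r : Fin 3) (x z : ℤ) : V3 :=
  if far then RR r ![2 * x + 1, 2 * n, 2 * z + 1] else RR r ![2 * x + 1, 2 * z + 1, 0]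

theorem slotCtr_inj {n : ℤ} (hn : 0 < n) {f f' : Bool} {r r' : Fin 3} {x x' z z' : ℤ}
    (h : slotCtr n f r x z = slotCtr n f' r' x' z') : f = f' ∧ r = r' ∧ x = x' ∧ z = z' := by
  have h0 := congrFun h 0
  have h1 := congrFun h 1
  have h2 := congrFun h 2
  cases f <;> cases f' <;> fin_cases r <;> fin_cases r' <;>
    simp [slotCtr, RR, R3] at h0 h1 h2 ⊢ <;> omega

end Pool.Agent.RepCube
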