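import Pool.Agent.RepCube.DataF1
import Pool.Agent.RepCube.DataP2
import Pool.Agent.RepCube.DataD1
import Pool.Agent.RepCube.DataD2
import Pool.Agent.RepCube.DataD3
import Pool.Agent.RepCube.DataD4

/-!
# Dividing a net of a cube into a net of a smaller cube and nets of unit cubes
-/

namespace Pool.Agent.Results.MP_404bc2_co.RepCubeDivision

open Pool.Agent.RepCube

/-- If `16 ≤ b < c`, and moreover `b` is congruent to `0`, `1` or `2` modulo `6` or `c ≤ b + 3`,
then some polyomino which is a net of the cube of side `c` can be divided into one polyomino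
which is a net of the cube of side `b` and `c ^ 2 - b ^ 2` polyominoes which are nets of the unit
cube. -/
theorem result (b c : ℕ) (hb : 16 ≤ b) (hbc : b < c) (h : b % 6 ≤ 2 ∨ c ≤ b + 3) :
    ∃ (P R : Finset Cell) (U : Finset (Finset Cell)), IsNet P c ∧ IsNet R b ∧
      U.card = c ^ 2 - b ^ 2 ∧ (∀ S ∈ U, IsNet S 1) ∧
      (∀ S ∈ U, ∀ S' ∈ U, S ≠ S' → Disjoint S S') ∧ (∀ S ∈ U, Disjoint R S) ∧
      P = R ∪ U.biUnion id := by
  change Rep b c
  rcases (show c = b + 1 ∨ c = b + 2 ∨ c = b + 3 ∨ b + 4 ≤ c by omega) with rfl | rfl | rfl | hc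
  · exact walkAll_rep D1_ok hb
  · exact walkAll_rep D2_ok hb
  · exact walkAll_rep D3_ok hb
  · rcases (show b % 6 = 0 ∨ b % 6 = 1 ∨ b % 6 = 2 by omega) with h0 | h0 | h0
    · exact F0_rep0 hb h0 (by omega)
    · exact F1_rep1 hb h0 (by omega)
    · rcases (show c = b + 4 ∨ b + 4 < c by omega) with rfl | hc'
      · exact walkNN_rep D4_2_ok hb h0
      · exact P2_rep hb h0 hc'

end Pool.Agent.Results.MP_404bc2_co.RepCubeDivision
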