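import Pool.Agent.RepCube.Glue

/-!
# Explicit shapes given by bit masks on a `40 × 40` grid
-/

namespace Pool.Agent.RepCube

/-- Component of a triple. -/
def sel (m : ℕ × ℕ × ℕ) (r : Fin 3) : ℕ :=
  match r with
  | 0 => m.1
  | 1 => m.2.1
  | 2 => m.2.2

/-- Bit of a mask. -/
def gb (m : ℕ) (X Y : ℕ) : Bool := decide (X < 40) && (decide (Y < 40) && m.testBit (40 * X + Y))

/-- The shape of a triple of masks. -/
def mkQ (m : ℕ × ℕ × ℕ) : QS := fun r X Y =>
  decide (0 ≤ X ∧ 0 ≤ Y) && gb (sel m r) X.toNat Y.toNat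

theorem mkQ_nat (m : ℕ × ℕ × ℕ) (r : Fin 3) (X Y : ℕ) : mkQ m r X Y = gb (sel m r) X Y := by
  unfold mkQ
  have : decide ((0 : ℤ) ≤ X ∧ (0 : ℤ) ≤ Y) = true := decide_eq_true ⟨by omega, by omega⟩
  rw [this]
  simp

theorem mkQ_true {m : ℕ × ℕ × ℕ} {r : Fin 3} {X Y : ℤ} (h : mkQ m r X Y = true) :
    ∃ x y : ℕ, X = x ∧ Y = y ∧ x < 40 ∧ y < 40 ∧ gb (sel m r) x y = true := by
  unfold mkQ at h
  rw [Bool.and_eq_true, decide_eq_true_eq] at h
  obtain ⟨⟨h1, h2⟩, h3⟩ := h
  have h4 := h3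
  unfold gb at h4
  simp only [Bool.and_eq_true, decide_eq_true_eq] at h4
  exact ⟨X.toNat, Y.toNat, by omega, by omega, h4.1, h4.2.1, h3⟩

/-- Check of a step between explicit shapes. -/
def smallStep (m m' : ℕ × ℕ × ℕ) (t : List (List (ℕ × ℤ × ℤ))) : Bool :=
  [(0 : Fin 3), 1, 2].all fun r =>
    (t.getD r.val []).all (fun t => decide (t.1 < 64)) &&
    decide (putCells 40 (lcells (t.getD r.val [])) (sel m r) = some (sel m' r))

theorem smallStep_ext {m m' : ℕ × ℕ × ℕ} {t : List (List (ℕ × ℤ × ℤ))}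
    (h : smallStep m m' t = true) : Ext (shape (mkQ m)) (shape (mkQ m')) := by
  unfold smallStep at h
  rw [List.all_eq_true] at h
  have h' : ∀ r : Fin 3, (∀ s ∈ t.getD r.val [], s.1 < 64) ∧
      putCells 40 (lcells (t.getD r.val [])) (sel m r) = some (sel m' r) := by
    intro r
    have hr : r ∈ [(0 : Fin 3), 1, 2] := by fin_cases r <;> decide
    have := h r hr
    rw [Bool.and_eq_true, decide_eq_true_eq] at this
    exact ⟨fun s hs => of_decide_eq_true (List.all_eq_true.1 this.1 s hs), this.2⟩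
  have hz : ∀ (r : Fin 3) (X Y : ℤ), ¬(0 ≤ X ∧ X < 40 ∧ 0 ≤ Y ∧ Y < 40) →
      cnt (t.getD r.val []) X Y = 0 := by
    intro r X Y hXY
    rw [cnt_eq (h' r).1, List.count_eq_zero]
    intro hm
    have := (putCells_spec 40 _ _ _ (h' r).2).1 _ hm
    simp only at this
    omega
  refine ext_step _ _ (fun r => t.getD r.val []) (fun r => (h' r).1) ?_ ?_ ?_
  · intro r X Y hX
    obtain ⟨x, y, rfl, rfl, _⟩ := mkQ_true hX
    omega
  · intro r X Y hX hY
    by_cases hXY : 0 ≤ X ∧ X < 40 ∧ 0 ≤ Y ∧ Y < 40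
    · obtain ⟨x, rfl⟩ := Int.eq_ofNat_of_zero_le hX
      obtain ⟨y, rfl⟩ := Int.eq_ofNat_of_zero_le hY
      have hx : x < 40 := by omega
      have hy : y < 40 := by omega
      rw [mkQ_nat, mkQ_nat, cnt_eq (h' r).1]
      have := (putCells_spec 40 _ _ _ (h' r).2).2 x y hx hy
      unfold gb
      rw [decide_eq_true hx, decide_eq_true hy, Bool.true_and, Bool.true_and, Bool.true_and,
        Bool.true_and, this]
      exact Nat.add_comm _ _
    · have e1 : ∀ m, mkQ m r X Y = false := by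
        intro m
        cases hq : mkQ m r X Y
        · rfl
        · obtain ⟨x, y, rfl, rfl, h1, h2, _⟩ := mkQ_true hq
          omega
      rw [hz r X Y hXY, e1, e1]
      rfl
  · intro r X Y hXY
    exact hz r X Y (by omega)

/-- Check that an explicit shape is a net. -/
def goodChk (n : ℕ) (m : ℕ × ℕ × ℕ) : Bool :=
  decide (0 < n ∧ n ≤ 40) && [(0 : Fin 3), 1, 2].all fun r =>
    ((List.range 40).all fun X => (List.range 40).all fun Y =>
      (!(gb (sel m r) X Y) || ((decide ((X < n ∧ Y < n) ∨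
        (n ≤ Y ∧ X < Y ∧ Y < 3 * n ∧ (X < n ∨ Y < 2 * n)) ∨
        (n ≤ X ∧ Y < X ∧ X < 3 * n ∧ (Y < n ∨ X < 2 * n)))) &&
        (decide (X = 0 ∧ Y = 0) || (decide (0 < X) && gb (sel m r) (X - 1) Y) ||
          (decide (0 < Y) && gb (sel m r) X (Y - 1))) &&
        (!(gb (sel m r) (X + 1) (Y + 1)) || gb (sel m r) (X + 1) Y || gb (sel m r) X (Y + 1)))) &&
      (!(gb (sel m r) (X + 1) Y) || !(gb (sel m r) X (Y + 1)) || gb (sel m r) X Y) &&
      (!(decide (X < n ∧ Y < n)) || gb (sel m r) X Y)) &&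
    ((List.range n).all fun x => (List.range n).all fun z =>
      decide ((gb (sel m r) x (n + z)).toNat + (gb (sel m (r + 1)) (n + x) z).toNat +
        (gb (sel m r) (n + z) (2 * n - 1 - x) && decide (n ≤ x + z)).toNat +
        (gb (sel m (r + 1)) (2 * n - 1 - z) (n + x) && decide (n ≤ x + z)).toNat +
        (gb (sel m (r + 2)) z (3 * n - 1 - x)).toNat +
        (gb (sel m (r + 2)) (3 * n - 1 - z) x).toNat = 1)) &&
    ((List.range 40).all fun Y => decide (Y ≤ n) ||
      (!(gb (sel m r) 0 Y) && !(gb (sel m r) Y 0))) &&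
    !(gb (sel m r) 0 n && gb (sel m (r + 1)) n 0)

theorem goodChk_good {n : ℕ} {m : ℕ × ℕ × ℕ} (h : goodChk n m = true) : Good n (mkQ m) := by
  unfold goodChk at h
  rw [Bool.and_eq_true, decide_eq_true_eq, List.all_eq_true] at h
  obtain ⟨hn, h⟩ := h
  have h' : ∀ r : Fin 3, _ := fun r => h r (by fin_cases r <;> decide)
  simp only [Bool.and_eq_true, List.all_eq_true, List.mem_range] at h'
  have k1 := fun r => (h' r).1.1.1
  have k2 := fun r => (h' r).1.1.2
  have k3 := fun r => (h' r).1.2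
  have k4 := fun r => (h' r).2
  clear h h'
  refine ⟨by omega, ?_, ?_, ?_, ?_, ?_, ?_, ?_, ?_⟩
  · intro r X Y hQ
    obtain ⟨x, y, rfl, rfl, hx, hy, hg⟩ := mkQ_true hQ
    have := (k1 r x hx y hy).1.1
    rw [hg] at this
    simp only [Bool.not_true, Bool.false_or, Bool.and_eq_true, decide_eq_true_eq] at this
    have := this.1.1
    omega
  · intro r X Y hX hX' hY hY'
    obtain ⟨x, rfl⟩ := Int.eq_ofNat_of_zero_le hX
    obtain ⟨y, rfl⟩ := Int.eq_ofNat_of_zero_le hY
    rw [mkQ_nat]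
    have hx : x < n := by omega
    have hy : y < n := by omega
    have := (k1 r x (by omega) y (by omega)).2
    rw [decide_eq_true (show x < n ∧ y < n from ⟨hx, hy⟩), Bool.not_true, Bool.false_or] at this
    exact this
  · intro r x z hx hx' hz hz'
    obtain ⟨x, rfl⟩ := Int.eq_ofNat_of_zero_le hx
    obtain ⟨z, rfl⟩ := Int.eq_ofNat_of_zero_le hz
    have hx1 : x < n := by omega
    have hz1 : z < n := by omega
    have := k2 r x hx1 z hz1
    rw [decide_eq_true_eq] at this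
    have e1 : (n : ℤ) + (z : ℤ) = ((n + z : ℕ) : ℤ) := by push_cast; ring
    have e2 : (n : ℤ) + (x : ℤ) = ((n + x : ℕ) : ℤ) := by push_cast; ring
    have e3 : 2 * (n : ℤ) - 1 - (x : ℤ) = ((2 * n - 1 - x : ℕ) : ℤ) := by omega
    have e4 : 2 * (n : ℤ) - 1 - (z : ℤ) = ((2 * n - 1 - z : ℕ) : ℤ) := by omega
    have e5 : 3 * (n : ℤ) - 1 - (x : ℤ) = ((3 * n - 1 - x : ℕ) : ℤ) := by omega
    have e6 : 3 * (n : ℤ) - 1 - (z : ℤ) = ((3 * n - 1 - z : ℕ) : ℤ) := by omega
    have e7 : decide ((n : ℤ) ≤ (x : ℤ) + (z : ℤ)) = decide (n ≤ x + z) := by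
      congr 1
      apply propext
      omega
    rw [e1, e2, e3, e4, e5, e6, e7, mkQ_nat, mkQ_nat, mkQ_nat, mkQ_nat, mkQ_nat, mkQ_nat]
    exact this
  · intro r X Y hQ h0
    obtain ⟨x, y, rfl, rfl, hx, hy, hg⟩ := mkQ_true hQ
    have := (k1 r x hx y hy).1.1
    rw [hg] at this
    simp only [Bool.not_true, Bool.false_or, Bool.and_eq_true, decide_eq_true_eq,
      Bool.or_eq_true] at this
    rcases this.1.2 with (h1 | h1) | h1
    · omega
    · left
      have e : (x : ℤ) - 1 = ((x - 1 : ℕ) : ℤ) := by omega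
      rw [e, mkQ_nat]
      exact h1.2
    · right
      have e : (y : ℤ) - 1 = ((y - 1 : ℕ) : ℤ) := by omega
      rw [e, mkQ_nat]
      exact h1.2
  · intro r X Y hQ hQ'
    obtain ⟨x, y, rfl, rfl, hx, hy, hg⟩ := mkQ_true hQ
    have e1 : (x : ℤ) + 1 = ((x + 1 : ℕ) : ℤ) := by push_cast; ring
    have e2 : (y : ℤ) + 1 = ((y + 1 : ℕ) : ℤ) := by push_cast; ring
    rw [e1, e2, mkQ_nat] at hQ'
    have := (k1 r x hx y hy).1.1
    rw [hg, hQ'] at this
    simp only [Bool.not_true, Bool.false_or, Bool.and_eq_true, Bool.or_eq_true] at this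
    rw [e1, e2, mkQ_nat, mkQ_nat]
    exact this.2
  · intro r X Y hX hY hQ hQ'
    obtain ⟨x, rfl⟩ := Int.eq_ofNat_of_zero_le hX
    obtain ⟨y, rfl⟩ := Int.eq_ofNat_of_zero_le hY
    have e1 : (x : ℤ) + 1 = ((x + 1 : ℕ) : ℤ) := by push_cast; ring
    have e2 : (y : ℤ) + 1 = ((y + 1 : ℕ) : ℤ) := by push_cast; ring
    rw [e1, mkQ_nat] at hQ
    rw [e2, mkQ_nat] at hQ'
    rw [mkQ_nat]
    have hx : x < 40 := by
      unfold gb at hQ
      simp only [Bool.and_eq_true, decide_eq_true_eq] at hQ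
      omega
    have hy : y < 40 := by
      unfold gb at hQ'
      simp only [Bool.and_eq_true, decide_eq_true_eq] at hQ'
      omega
    have := (k1 r x hx y hy).1.2
    rw [hQ, hQ'] at this
    simp only [Bool.not_true, Bool.false_or] at this
    exact this
  · intro r Y hY
    constructor
    · cases hQ : mkQ m r 0 Y
      · rfl
      · obtain ⟨x, y, ex, rfl, hx, hy, hg⟩ := mkQ_true hQ
        have := k3 r y hy
        have ex' : x = 0 := by omega
        rw [ex'] at hg
        rw [hg] at this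
        simp at this
        omega
    · cases hQ : mkQ m r Y 0
      · rfl
      · obtain ⟨x, y, rfl, ey, hx, hy, hg⟩ := mkQ_true hQ
        have := k3 r x hx
        have ey' : y = 0 := by omega
        rw [ey'] at hg
        rw [hg] at this
        simp at this
        omega
  · intro r
    rintro ⟨h1, h2⟩
    have := k4 r
    have e0 : mkQ m r 0 (n : ℤ) = gb (sel m r) 0 n := mkQ_nat m r 0 n
    have e0' : mkQ m (r + 1) (n : ℤ) 0 = gb (sel m (r + 1)) n 0 := mkQ_nat m (r + 1) n 0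
    rw [← e0, ← e0', h1, h2] at this
    exact absurd this (by decide)

/-- Check that an explicit shape is a given member of a family. -/
def linkChk (n : ℕ) (m : ℕ × ℕ × ℕ) (w : Win) : Bool :=
  decide (n ≤ 18) && [(0 : Fin 3), 1, 2].all fun r =>
    (List.range 40).all fun X => (List.range 40).all fun Y =>
      decide (gb (sel m r) X Y = famW w (n : ℤ) r (X : ℤ) (Y : ℤ))

theorem famW_lt {n : ℤ} (hn : n ≤ 18) {w : Win} {r : Fin 3} {X Y : ℤ}
    (h : famW w n r X Y = true) : X < 40 ∧ Y < 40 := by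
  obtain ⟨h0, h1, h2⟩ := fam_true h
  rcases h2 with h2 | ⟨a1, a2, a3⟩ | ⟨a1, a2, a3⟩
  · omega
  · by_cases hb : -8 ≤ X - n ∧ X - n < 3 ∧ -8 ≤ Y - 2 * n ∧ Y - 2 * n < 3
    · omega
    · rw [FA_out hb, tA_iff] at a3
      omega
  · by_cases hb : -8 ≤ X - 2 * n ∧ X - 2 * n < 3 ∧ -8 ≤ Y - n ∧ Y - n < 3
    · omega
    · rw [FB_out hb, tB_iff] at a3
      have := gg_spec (n % 6 + (X - 2 * n))
      omega

theorem link {n : ℕ} {m : ℕ × ℕ × ℕ} {w : Win} (h : linkChk n m w = true) :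
    shape (mkQ m) = shape (famW w (n : ℤ)) := by
  unfold linkChk at h
  rw [Bool.and_eq_true, decide_eq_true_eq, List.all_eq_true] at h
  obtain ⟨hn, h⟩ := h
  have h' : ∀ r : Fin 3, _ := fun r => h r (by fin_cases r <;> decide)
  simp only [List.all_eq_true, List.mem_range, decide_eq_true_eq] at h'
  have e : mkQ m = famW w (n : ℤ) := by
    funext r X Y
    by_cases hXY : 0 ≤ X ∧ X < 40 ∧ 0 ≤ Y ∧ Y < 40
    · obtain ⟨x, rfl⟩ := Int.eq_ofNat_of_zero_le hXY.1
      obtain ⟨y, rfl⟩ := Int.eq_ofNat_of_zero_le hXY.2.2.1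
      rw [mkQ_nat]
      exact h' r x (by omega) y (by omega)
    · have e1 : mkQ m r X Y = false := by
        cases hq : mkQ m r X Y
        · rfl
        · obtain ⟨x, y, rfl, rfl, h1, h2, _⟩ := mkQ_true hq
          omega
      have e2 : famW w (n : ℤ) r X Y = false := by
        cases hq : famW w (n : ℤ) r X Y
        · rfl
        · have h1 := famW_lt (by omega) hq
          have h2 := fam_true hq
          omega
      rw [e1, e2]
  rw [e]

end Pool.Agent.RepCube
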