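import Pool.Agent.RepCube.Unit
import Pool.Agent.RepCube.QFin

/-!
# Adding nets of unit cubes to a shape
-/

namespace Pool.Agent.RepCube

open Set

/-- `B` is obtained from `A` by adding pairwise disjoint nets of unit cubes, disjoint from `A`. -/
def Ext (A B : Set Cell) : Prop :=
  ∃ U : Finset (Finset Cell), (∀ R ∈ U, IsNet R 1 ∧ R.card = 6) ∧
    (∀ R ∈ U, ∀ S ∈ U, R ≠ S → Disjoint R S) ∧ (∀ R ∈ U, ∀ c ∈ R, c ∉ A) ∧
    ∀ c, c ∈ B ↔ c ∈ A ∨ ∃ R ∈ U, c ∈ R

theorem Ext.refl (A : Set Cell) : Ext A A :=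
  ⟨∅, by simp, by simp, by simp, by simp⟩

theorem Ext.trans {A B C : Set Cell} (h1 : Ext A B) (h2 : Ext B C) : Ext A C := by
  classical
  obtain ⟨U, u1, u2, u3, u4⟩ := h1
  obtain ⟨V, v1, v2, v3, v4⟩ := h2
  have huv : ∀ R ∈ U, ∀ S ∈ V, Disjoint R S := by
    intro R hR S hS
    rw [Finset.disjoint_left]
    intro c hc hc'
    exact v3 S hS c hc' ((u4 c).2 (Or.inr ⟨R, hR, hc⟩))
  refine ⟨U ∪ V, ?_, ?_, ?_, ?_⟩
  · intro R hR
    rcases Finset.mem_union.1 hR with h | h
    · exact u1 R h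
    · exact v1 R h
  · intro R hR S hS hne
    rcases Finset.mem_union.1 hR with h | h <;> rcases Finset.mem_union.1 hS with h' | h'
    · exact u2 R h S h' hne
    · exact huv R h S h'
    · exact (huv S h' R h).symm
    · exact v2 R h S h' hne
  · intro R hR c hc
    rcases Finset.mem_union.1 hR with h | h
    · exact u3 R h c hc
    · exact fun hA => v3 R h c hc ((u4 c).2 (Or.inl hA))
  · intro c
    rw [v4, u4]
    constructor
    · rintro ((h | ⟨R, hR, h⟩) | ⟨R, hR, h⟩)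
      · exact Or.inl h
      · exact Or.inr ⟨R, Finset.mem_union_left _ hR, h⟩
      · exact Or.inr ⟨R, Finset.mem_union_right _ hR, h⟩
    · rintro (h | ⟨R, hR, h⟩)
      · exact Or.inl (Or.inl h)
      · rcases Finset.mem_union.1 hR with h' | h'
        · exact Or.inl (Or.inr ⟨R, h', h⟩)
        · exact Or.inr ⟨R, h', h⟩

theorem Ext.single {A B : Set Cell} (R : Finset Cell) (h : IsNet R 1) (hc : R.card = 6)
    (hd : ∀ c ∈ R, c ∉ A) (hB : ∀ c, c ∈ B ↔ c ∈ A ∨ c ∈ R) : Ext A B := by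
  refine ⟨{R}, ?_, ?_, ?_, ?_⟩
  · intro S hS
    rw [Finset.mem_singleton.1 hS]
    exact ⟨h, hc⟩
  · intro S hS S' hS' hne
    exact absurd ((Finset.mem_singleton.1 hS).trans (Finset.mem_singleton.1 hS').symm) hne
  · intro S hS
    rw [Finset.mem_singleton.1 hS]
    exact hd
  · intro c
    rw [hB]
    simp

/-- Shapes given by three quadrants. -/
abbrev QS := Fin 3 → ℤ → ℤ → Bool

/-- The set of cells of a shape. -/
def shape (Q : QS) : Set Cell := {c | QMem Q c}

/-- The tile `t` covers the cell. -/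
def hit (t : ℕ × ℤ × ℤ) (X Y : ℤ) : Bool := decide ((X - t.2.1, Y - t.2.2) ∈ off t.1)

/-- Number of tiles of the list covering the cell. -/
def cnt (L : List (ℕ × ℤ × ℤ)) (X Y : ℤ) : ℕ := (L.map fun t => (hit t X Y).toNat).sum

theorem cnt_nil (X Y : ℤ) : cnt [] X Y = 0 := rfl

theorem cnt_cons (t : ℕ × ℤ × ℤ) (L : List (ℕ × ℤ × ℤ)) (X Y : ℤ) :
    cnt (t :: L) X Y = (hit t X Y).toNat + cnt L X Y := by
  simp [cnt]

theorem cnt_append (L L' : List (ℕ × ℤ × ℤ)) (X Y : ℤ) :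
    cnt (L ++ L') X Y = cnt L X Y + cnt L' X Y := by
  simp [cnt]

theorem pos_inj (r : Fin 3) {X Y X' Y' : ℤ} (h : pos r X Y = pos r X' Y') : X = X' ∧ Y = Y' := by
  match r with
  | 0 =>
    simp only [pos, Prod.mk.injEq] at h
    omega
  | 1 =>
    simp only [pos, Prod.mk.injEq] at h
    omega
  | 2 =>
    simp only [pos, Prod.mk.injEq] at h
    omega

theorem mem_tile {r : Fin 3} {t : ℕ × ℤ × ℤ} {c : Cell} :
    c ∈ tile r t.1 t.2.1 t.2.2 ↔ ∃ X Y, hit t X Y = true ∧ c = pos r X Y := by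
  unfold tile hit
  rw [List.mem_toFinset, List.mem_map]
  constructor
  · rintro ⟨o, ho, rfl⟩
    refine ⟨_, _, ?_, rfl⟩
    rw [decide_eq_true_iff]
    have : ((t.2.1 + o.1 - t.2.1, t.2.2 + o.2 - t.2.2) : ℤ × ℤ) = o := by ext <;> simp
    rw [this]
    exact ho
  · rintro ⟨X, Y, h, rfl⟩
    rw [decide_eq_true_iff] at h
    exact ⟨_, h, by congr 1 <;> ring⟩

theorem tile_card (r : Fin 3) {s : ℕ} (hs : s < 64) (X Y : ℤ) : (tile r s X Y).card = 6 := by
  obtain ⟨h1, h2⟩ := off_card s hs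
  unfold tile
  rw [List.toFinset_card_of_nodup, List.length_map, h2]
  refine h1.map ?_
  intro o o' h
  obtain ⟨e1, e2⟩ := pos_inj r h
  ext <;> omega

theorem qmem_iff {Q : QS} {c : Cell} :
    QMem Q c ↔ ¬(0 ≤ c.1 ∧ c.2 < 0) ∧ Q (qr c) (qx c) (qy c) = true := Iff.rfl

theorem q_nonneg {c : Cell} (h : ¬(0 ≤ c.1 ∧ c.2 < 0)) : 0 ≤ qx c ∧ 0 ≤ qy c := by
  unfold qx qy
  split_ifs <;> omega

theorem ext_list (r : Fin 3) (L : List (ℕ × ℤ × ℤ)) (hs : ∀ t ∈ L, t.1 < 64) :
    ∀ Q Q' : QS, (∀ r', r' ≠ r → Q' r' = Q r') →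
      (∀ X Y, Q' r X Y = true → 0 ≤ X ∧ 0 ≤ Y) →
      (∀ X Y, 0 ≤ X → 0 ≤ Y → cnt L X Y + (Q r X Y).toNat = (Q' r X Y).toNat) →
      (∀ X Y, ¬(0 ≤ X ∧ 0 ≤ Y) → cnt L X Y = 0) →
      Ext (shape Q) (shape Q') := by
  induction L with
  | nil =>
    intro Q Q' h1 h2 h3 _
    have e : shape Q = shape Q' := by
      ext c
      show QMem Q c ↔ QMem Q' c
      rw [qmem_iff, qmem_iff]
      refine and_congr_right fun hc => ?_
      by_cases hr : qr c = r
      · rw [hr]
        have := h3 (qx c) (qy c) (q_nonneg hc).1 (q_nonneg hc).2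
        rw [cnt_nil, Nat.zero_add] at this
        cases h : Q r (qx c) (qy c) <;> cases h' : Q' r (qx c) (qy c) <;> simp_all
      · rw [h1 _ hr]
    rw [e]
    exact Ext.refl _
  | cons t L ih =>
    intro Q Q' h1 h2 h3 h4
    have hk : ∀ X Y, hit t X Y = true → 0 ≤ X ∧ 0 ≤ Y ∧ Q r X Y = false ∧ Q' r X Y = true := by
      intro X Y hh
      by_cases hXY : 0 ≤ X ∧ 0 ≤ Y
      · have := h3 X Y hXY.1 hXY.2
        rw [cnt_cons, hh] at this
        refine ⟨hXY.1, hXY.2, ?_⟩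
        cases h : Q r X Y <;> cases h' : Q' r X Y <;> simp_all
      · have := h4 X Y hXY
        rw [cnt_cons, hh] at this
        simp at this
    let Q1 : QS := fun r' X Y => if r' = r then Q r X Y || hit t X Y else Q r' X Y
    have hQ1 : ∀ X Y, Q1 r X Y = (Q r X Y || hit t X Y) := fun X Y => if_pos rfl
    have hQ1' : ∀ r', r' ≠ r → Q1 r' = Q r' := by
      intro r' hr
      funext X Y
      exact if_neg hr
    have s1 : Ext (shape Q) (shape Q1) := by
      refine Ext.single (tile r t.1 t.2.1 t.2.2) (tile_isNet r (hs t (by simp)) _ _)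
        (tile_card r (hs t (by simp)) _ _) ?_ ?_
      · intro c hc hc'
        obtain ⟨X, Y, hh, rfl⟩ := mem_tile.1 hc
        obtain ⟨k1, k2, k3, _⟩ := hk X Y hh
        have := (qmem_pos (Q := Q) (r := r) k1 k2).1 hc'
        rw [k3] at this
        exact absurd this (by decide)
      · intro c
        show QMem Q1 c ↔ QMem Q c ∨ c ∈ tile r t.1 t.2.1 t.2.2
        rw [mem_tile]
        constructor
        · intro hc
          obtain ⟨hc1, hc2⟩ := hc
          by_cases hr : qr c = r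
          · rw [hr, hQ1, Bool.or_eq_true] at hc2
            rcases hc2 with h | h
            · left
              refine ⟨hc1, ?_⟩
              rw [hr]; exact h
            · right
              refine ⟨_, _, h, ?_⟩
              rw [← hr]
              exact (pos_q hc1).symm
          · left
            rw [hQ1' _ hr] at hc2
            exact ⟨hc1, hc2⟩
        · rintro (hc | ⟨X, Y, hh, rfl⟩)
          · obtain ⟨hc1, hc2⟩ := hc
            refine ⟨hc1, ?_⟩
            by_cases hr : qr c = r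
            · rw [hr] at hc2 ⊢
              rw [hQ1, hc2, Bool.true_or]
            · rw [hQ1' _ hr]
              exact hc2
          · obtain ⟨k1, k2, _, _⟩ := hk X Y hh
            rw [qmem_pos k1 k2, hQ1, hh, Bool.or_true]
    refine s1.trans (ih (fun t' ht' => hs t' (List.mem_cons_of_mem _ ht')) Q1 Q' ?_ h2 ?_ ?_)
    · intro r' hr
      rw [h1 r' hr, hQ1' r' hr]
    · intro X Y hX hY
      have := h3 X Y hX hY
      rw [cnt_cons] at this
      rw [hQ1, ← this]
      cases hh : hit t X Y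
      · simp
      · rw [(hk X Y hh).2.2.1]
        simp
        omega
    · intro X Y hXY
      have := h4 X Y hXY
      rw [cnt_cons] at this
      omega

/-- Adding tiles in the three quadrants. -/
theorem ext_step (Q Q' : QS) (L : Fin 3 → List (ℕ × ℤ × ℤ)) (hs : ∀ r, ∀ t ∈ L r, t.1 < 64)
    (hp : ∀ r X Y, Q' r X Y = true → 0 ≤ X ∧ 0 ≤ Y)
    (hc : ∀ r X Y, 0 ≤ X → 0 ≤ Y → cnt (L r) X Y + (Q r X Y).toNat = (Q' r X Y).toNat)
    (hn : ∀ r X Y, ¬(0 ≤ X ∧ 0 ≤ Y) → cnt (L r) X Y = 0) :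
    Ext (shape Q) (shape Q') := by
  let Q1 : QS := fun r => if r = 0 then Q' r else Q r
  let Q2 : QS := fun r => if r = 2 then Q r else Q' r
  have a1 : Ext (shape Q) (shape Q1) := by
    refine ext_list 0 (L 0) (hs 0) Q Q1 ?_ (hp 0) (hc 0) (hn 0)
    intro r hr
    exact if_neg hr
  have a2 : Ext (shape Q1) (shape Q2) := by
    refine ext_list 1 (L 1) (hs 1) Q1 Q2 ?_ (hp 1) (hc 1) (hn 1)
    intro r hr
    match r, hr with
    | 0, _ => rfl
    | 2, _ => rfl
  have a3 : Ext (shape Q2) (shape Q') := by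
    refine ext_list 2 (L 2) (hs 2) Q2 Q' ?_ (hp 2) (hc 2) (hn 2)
    intro r hr
    exact (if_neg hr).symm
  exact (a1.trans a2).trans a3

/-- The conclusion of the main theorem for one pair. -/
def Rep (b c : ℕ) : Prop :=
  ∃ (P R : Finset Cell) (U : Finset (Finset Cell)), IsNet P c ∧ IsNet R b ∧
    U.card = c ^ 2 - b ^ 2 ∧ (∀ S ∈ U, IsNet S 1) ∧ (∀ S ∈ U, ∀ S' ∈ U, S ≠ S' → Disjoint S S') ∧
    (∀ S ∈ U, Disjoint R S) ∧ P = R ∪ U.biUnion id

theorem assemble {b c : ℕ} {Q Q' : QS} (G : Good b Q) (G' : Good c Q')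
    (h : Ext (shape Q) (shape Q')) : Rep b c := by
  classical
  obtain ⟨U, u1, u2, u3, u4⟩ := h
  have hd : ∀ S ∈ U, Disjoint (cells b Q) S := by
    intro S hS
    rw [Finset.disjoint_left]
    intro c hc hc'
    exact u3 S hS c hc' ((G.mem_cells c).1 hc)
  have hP : cells c Q' = cells b Q ∪ U.biUnion id := by
    ext x
    rw [Finset.mem_union, G'.mem_cells, G.mem_cells, Finset.mem_biUnion]
    exact u4 x
  refine ⟨cells c Q', cells b Q, U, G'.isNet, G.isNet, ?_, fun S hS => (u1 S hS).1, u2, hd, hP⟩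
  have e1 := G.card
  have e2 := G'.card
  have e3 : (cells c Q').card = (cells b Q).card + 6 * U.card := by
    rw [hP, Finset.card_union_of_disjoint]
    · congr 1
      rw [Finset.card_biUnion]
      · have : ∑ u ∈ U, (id u).card = ∑ u ∈ U, 6 :=
          Finset.sum_congr rfl (fun S hS => (u1 S hS).2)
        rw [this]
        simp [mul_comm]
      · exact u2
    · rw [Finset.disjoint_biUnion_right]
      exact hd
  zify at e3
  have e4 : (U.card : ℤ) + (b : ℤ) ^ 2 = (c : ℤ) ^ 2 := by linarith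
  have e5 : U.card + b ^ 2 = c ^ 2 := by exact_mod_cast e4
  omega

end Pool.Agent.RepCube
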