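import Pool.Agent.RepCube.UnitData
import Pool.Agent.RepCube.QFin

/-!
# The 64 oriented nets of the unit cube
-/

namespace Pool.Agent.RepCube

/-- Vector with given coordinates. -/
def toV (a : ℤ × ℤ × ℤ) : V3 := ![a.1, a.2.1, a.2.2]

/-- Cells of a list of entries. -/
def cellsE (E : List Entry) : Finset Cell := (E.map Entry.c).toFinset

/-- The entry of a cell. -/
def ent (E : List Entry) (c : Cell) : Entry := (E.find? (fun e => e.c = c)).getD default

instance (n : ℤ) (p u v : V3) : Decidable (Valid n p u v) := by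
  unfold Valid; infer_instance

instance (c d : Cell) : Decidable (Adj c d) := by
  unfold Adj; infer_instance

/-- Ordered list of cells in which each cell is adjacent to an earlier one. -/
def chainOK : List Cell → List Cell → Bool
  | _, [] => true
  | A, c :: L => (A.any fun d => decide (Adj d c)) && chainOK (c :: A) L

/-- A list of cells which is connected in this order. -/
def connOK : List Cell → Bool
  | [] => false
  | c :: L => chainOK [c] L

/-- The permutations of the three coordinates. -/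
def perms : List (Fin 3 × Fin 3 × Fin 3) :=
  [(0, 1, 2), (0, 2, 1), (1, 0, 2), (1, 2, 0), (2, 0, 1), (2, 1, 0)]

theorem mem_perms : ∀ i j k : Fin 3, i ≠ j → j ≠ k → i ≠ k → (i, j, k) ∈ perms := by
  decide

/-- All squares of the surface of the unit cube occur. -/
def covOK (E : List Entry) : Bool :=
  perms.all fun t => [(0 : ℤ), 2].all fun w => E.any fun e =>
    decide (ctr (toV e.p) (toV e.u) (toV e.v) t.1 = w) &&
    decide (ctr (toV e.p) (toV e.u) (toV e.v) t.2.1 = 1) &&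
    decide (ctr (toV e.p) (toV e.u) (toV e.v) t.2.2 = 1)

theorem covOK_spec {E : List Entry} (h : covOK E = true) (i j k : Fin 3) (h1 : i ≠ j)
    (h2 : j ≠ k) (h3 : i ≠ k) (a : ℤ) (ha : a = 0 ∨ a = 1) : ∃ e ∈ E,
    ctr (toV e.p) (toV e.u) (toV e.v) i = 2 * a ∧
    ctr (toV e.p) (toV e.u) (toV e.v) j = 1 ∧ ctr (toV e.p) (toV e.u) (toV e.v) k = 1 := by
  unfold covOK at h
  rw [List.all_eq_true] at h
  have h' := h _ (mem_perms i j k h1 h2 h3)
  rw [List.all_eq_true] at h'
  have h'' := h' (2 * a) (by rcases ha with rfl | rfl <;> simp)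
  simp only [List.any_eq_true, Bool.and_eq_true, decide_eq_true_eq] at h''
  obtain ⟨e, he, ⟨g1, g2⟩, g3⟩ := h''
  exact ⟨e, he, g1, g2, g3⟩

/-- Every cell outside the list sees no cell of the list in one of the four directions. -/
def rayOK (L : List Cell) : Bool :=
  L.all (fun c => decide (0 ≤ c.1 ∧ c.1 < 6 ∧ 0 ≤ c.2 ∧ c.2 < 6)) &&
  ([0, 1, 2, 3, 4, 5] : List ℤ).all fun x => ([0, 1, 2, 3, 4, 5] : List ℤ).all fun y =>
    decide ((x, y) ∈ L) || L.all (fun p => !(decide (p.2 = y ∧ x < p.1))) ||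
      L.all (fun p => !(decide (p.2 = y ∧ p.1 < x))) ||
      L.all (fun p => !(decide (p.1 = x ∧ y < p.2))) ||
      L.all (fun p => !(decide (p.1 = x ∧ p.2 < y)))

theorem ray_path {P : Finset Cell} {c : Cell} {u v : ℤ} (huv : (u = 1 ∧ v = 0) ∨
    (u = -1 ∧ v = 0) ∨ (u = 0 ∧ v = 1) ∨ (u = 0 ∧ v = -1))
    (h : ∀ k : ℕ, (c.1 + k * u, c.2 + k * v) ∉ P) (k : ℕ) :
    Relation.ReflTransGen (fun x y => x ∉ P ∧ y ∉ P ∧ Adj x y) c (c.1 + k * u, c.2 + k * v) := by
  induction k with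
  | zero =>
    have : (c.1 + ((0 : ℕ) : ℤ) * u, c.2 + ((0 : ℕ) : ℤ) * v) = c := by ext <;> simp
    rw [this]
  | succ k ih =>
    refine ih.tail ⟨h k, h (k + 1), ?_⟩
    rcases huv with ⟨rfl, rfl⟩ | ⟨rfl, rfl⟩ | ⟨rfl, rfl⟩ | ⟨rfl, rfl⟩
    · exact Or.inl ⟨by dsimp only; push_cast; ring, Or.inl (by dsimp only; push_cast; ring)⟩
    · exact Or.inl ⟨by dsimp only; push_cast; ring, Or.inr (by dsimp only; push_cast; ring)⟩
    · exact Or.inr ⟨by dsimp only; push_cast; ring, Or.inl (by dsimp only; push_cast; ring)⟩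
    · exact Or.inr ⟨by dsimp only; push_cast; ring, Or.inr (by dsimp only; push_cast; ring)⟩

theorem noHoles_of_ray {P : Finset Cell} (h : ∀ c : Cell, c ∉ P → ∃ u v : ℤ,
    ((u = 1 ∧ v = 0) ∨ (u = -1 ∧ v = 0) ∨ (u = 0 ∧ v = 1) ∨ (u = 0 ∧ v = -1)) ∧
    ∀ k : ℕ, (c.1 + k * u, c.2 + k * v) ∉ P) : NoHoles P := by
  intro c hc N
  obtain ⟨u, v, huv, hk⟩ := h c hc
  obtain ⟨K, hK⟩ : ∃ K : ℕ, N + |c.1| + |c.2| ≤ (K : ℤ) :=
    ⟨(N + |c.1| + |c.2|).toNat, Int.self_le_toNat _⟩
  refine ⟨_, ?_, ray_path huv hk K⟩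
  have a1 := le_abs_self c.1
  have a2 := neg_abs_le c.1
  have a3 := le_abs_self c.2
  have a4 := neg_abs_le c.2
  dsimp only
  have b1 := le_abs_self (c.1 + K * u)
  have b2 := neg_abs_le (c.1 + K * u)
  have b3 := le_abs_self (c.2 + K * v)
  have b4 := neg_abs_le (c.2 + K * v)
  have b5 := abs_nonneg (c.1 + K * u)
  have b6 := abs_nonneg (c.2 + K * v)
  have b7 := abs_nonneg c.1
  have b8 := abs_nonneg c.2
  rcases huv with ⟨rfl, rfl⟩ | ⟨rfl, rfl⟩ | ⟨rfl, rfl⟩ | ⟨rfl, rfl⟩ <;> linarith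

theorem rayOK_spec {E : List Entry} (h : rayOK (E.map Entry.c) = true) : NoHoles (cellsE E) := by
  unfold rayOK at h
  rw [Bool.and_eq_true] at h
  obtain ⟨h1, h2⟩ := h
  rw [List.all_eq_true] at h1
  have hb : ∀ p ∈ cellsE E, 0 ≤ p.1 ∧ p.1 < 6 ∧ 0 ≤ p.2 ∧ p.2 < 6 := by
    intro p hp
    unfold cellsE at hp
    rw [List.mem_toFinset] at hp
    exact of_decide_eq_true (h1 p hp)
  apply noHoles_of_ray
  intro c hc
  by_cases hx : 0 ≤ c.1 ∧ c.1 < 6
  · by_cases hy : 0 ≤ c.2 ∧ c.2 < 6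
    · have hx' : c.1 ∈ ([0, 1, 2, 3, 4, 5] : List ℤ) := by
        simp only [List.mem_cons, List.not_mem_nil, or_false]; omega
      have hy' : c.2 ∈ ([0, 1, 2, 3, 4, 5] : List ℤ) := by
        simp only [List.mem_cons, List.not_mem_nil, or_false]; omega
      rw [List.all_eq_true] at h2
      have h3 := h2 _ hx'
      rw [List.all_eq_true] at h3
      have h4 := h3 _ hy'
      simp only [Bool.or_eq_true, decide_eq_true_eq, List.all_eq_true, Bool.not_eq_true',
        decide_eq_false_iff_not] at h4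
      have hm : ∀ p, p ∈ cellsE E ↔ p ∈ E.map Entry.c := by
        intro p; unfold cellsE; rw [List.mem_toFinset]
      rcases h4 with (((h4 | h4) | h4) | h4) | h4
      · exact absurd ((hm _).2 h4) hc
      · refine ⟨1, 0, by simp, fun k hk => ?_⟩
        rcases Nat.eq_zero_or_pos k with rfl | hk0
        · exact hc (by simpa using hk)
        · exact h4 _ ((hm _).1 hk) ⟨by ring, by push_cast; omega⟩
      · refine ⟨-1, 0, by simp, fun k hk => ?_⟩
        rcases Nat.eq_zero_or_pos k with rfl | hk0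
        · exact hc (by simpa using hk)
        · exact h4 _ ((hm _).1 hk) ⟨by ring, by push_cast; omega⟩
      · refine ⟨0, 1, by simp, fun k hk => ?_⟩
        rcases Nat.eq_zero_or_pos k with rfl | hk0
        · exact hc (by simpa using hk)
        · exact h4 _ ((hm _).1 hk) ⟨by ring, by push_cast; omega⟩
      · refine ⟨0, -1, by simp, fun k hk => ?_⟩
        rcases Nat.eq_zero_or_pos k with rfl | hk0
        · exact hc (by simpa using hk)
        · exact h4 _ ((hm _).1 hk) ⟨by ring, by push_cast; omega⟩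
    · refine ⟨1, 0, by simp, fun k hk => ?_⟩
      have := hb _ hk
      simp only at this
      omega
  · refine ⟨0, 1, by simp, fun k hk => ?_⟩
    have := hb _ hk
    simp only at this
    omega

/-- The check of a list of entries. -/
def chkE (E : List Entry) : Prop :=
  (∀ e ∈ E, ∀ f ∈ E, e.c = f.c → e = f) ∧
  (∀ e ∈ E, Valid 1 (toV e.p) (toV e.u) (toV e.v)) ∧
  (∀ e ∈ E, ∀ f ∈ E, f.c = (e.c.1 + 1, e.c.2) →
    (∀ i, toV f.p i = toV e.p i + toV e.u i) ∧ ∀ i, toV f.v i = toV e.v i) ∧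
  (∀ e ∈ E, ∀ f ∈ E, f.c = (e.c.1, e.c.2 + 1) →
    (∀ i, toV f.p i = toV e.p i + toV e.v i) ∧ ∀ i, toV f.u i = toV e.u i) ∧
  (∀ e ∈ E, ∀ f ∈ E, f.c = (e.c.1 + 1, e.c.2 + 1) →
    (∃ g ∈ E, g.c = (e.c.1 + 1, e.c.2)) ∨ ∃ g ∈ E, g.c = (e.c.1, e.c.2 + 1)) ∧
  (∀ e ∈ E, ∀ f ∈ E, f.c = (e.c.1 - 1, e.c.2 + 1) →
    (∃ g ∈ E, g.c = (e.c.1 - 1, e.c.2)) ∨ ∃ g ∈ E, g.c = (e.c.1, e.c.2 + 1)) ∧
  (∀ e ∈ E, ∀ f ∈ E, (∀ i, ctr (toV e.p) (toV e.u) (toV e.v) i =
    ctr (toV f.p) (toV f.u) (toV f.v) i) → e.c = f.c) ∧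
  covOK E = true ∧
  connOK (E.map Entry.c) = true ∧
  rayOK (E.map Entry.c) = true

instance (E : List Entry) : Decidable (chkE E) := by
  unfold chkE; infer_instance

theorem chain_conn (P : Finset Cell) (c0 : Cell) : ∀ (L A : List Cell),
    (∀ d ∈ A, d ∈ P ∧ Conn P c0 d) → (∀ d ∈ L, d ∈ P) → chainOK A L = true →
    ∀ d ∈ L, Conn P c0 d := by
  intro L
  induction L with
  | nil => intro A _ _ _ d hd; simp at hd
  | cons c L ih =>
    intro A hA hL h d hd
    simp only [chainOK, Bool.and_eq_true, List.any_eq_true, decide_eq_true_eq] at h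
    obtain ⟨⟨e, he, hec⟩, h2⟩ := h
    have hc : Conn P c0 c := ((hA e he).2).trans'
      (Conn.single (hA e he).1 (hL c List.mem_cons_self) hec)
    rcases List.mem_cons.1 hd with rfl | hd'
    · exact hc
    · refine ih (c :: A) ?_ (fun x hx => hL x (List.mem_cons_of_mem _ hx)) h2 d hd'
      intro x hx
      rcases List.mem_cons.1 hx with rfl | hx
      · exact ⟨hL _ List.mem_cons_self, hc⟩
      · exact hA x hx

theorem chkE_poly {E : List Entry} (h : chkE E) : IsPolyomino (cellsE E) := by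
  obtain ⟨c, L, hc, hL⟩ : ∃ c L, E.map Entry.c = c :: L ∧ chainOK [c] L = true := by
    have h' := h.2.2.2.2.2.2.2.2.1
    revert h'
    generalize E.map Entry.c = M
    intro h'
    match M, h' with
    | c :: L, h' => exact ⟨c, L, rfl, h'⟩
  have hm : ∀ d, d ∈ cellsE E ↔ d ∈ c :: L := by
    intro d; unfold cellsE; rw [hc]; simp
  have hcon : ∀ d ∈ cellsE E, Conn (cellsE E) c d := by
    intro d hd
    rcases List.mem_cons.1 ((hm d).1 hd) with rfl | hd'
    · exact Relation.ReflTransGen.refl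
    · refine chain_conn (cellsE E) c L [c] ?_ (fun x hx => (hm x).2 (List.mem_cons_of_mem _ hx))
        hL d hd'
      intro x hx
      rw [List.mem_singleton.1 hx]
      exact ⟨(hm c).2 List.mem_cons_self, Relation.ReflTransGen.refl⟩
  have hray := rayOK_spec h.2.2.2.2.2.2.2.2.2
  exact ⟨⟨c, (hm c).2 List.mem_cons_self⟩, fun x hx y hy => (hcon x hx).symm'.trans' (hcon y hy),
    hray⟩

theorem ent_spec {E : List Entry} {c : Cell} (hc : c ∈ cellsE E) :
    ent E c ∈ E ∧ (ent E c).c = c := by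
  unfold cellsE at hc
  rw [List.mem_toFinset, List.mem_map] at hc
  obtain ⟨e, he, hec⟩ := hc
  have hs : (E.find? (fun e => decide (e.c = c))).isSome := by
    rw [List.find?_isSome]
    exact ⟨e, he, by simpa using hec⟩
  obtain ⟨f, hf⟩ := Option.isSome_iff_exists.1 hs
  have e1 : ent E c = f := by unfold ent; rw [hf]; rfl
  rw [e1]
  exact ⟨List.mem_of_find?_eq_some hf, by simpa using List.find?_some hf⟩

theorem ent_eq {E : List Entry} (h : chkE E) {c : Cell} {e : Entry} (he : e ∈ E) (hc : e.c = c) :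
    ent E c = e := by
  have hm : c ∈ cellsE E := by
    unfold cellsE
    rw [List.mem_toFinset, List.mem_map]
    exact ⟨e, he, hc⟩
  obtain ⟨h1, h2⟩ := ent_spec hm
  exact h.1 _ h1 _ he (h2.trans hc.symm)

theorem mem_cellsE {E : List Entry} {c : Cell} : c ∈ cellsE E ↔ ∃ e ∈ E, e.c = c := by
  unfold cellsE
  rw [List.mem_toFinset, List.mem_map]

/-- The combinatorial net of a checked list. -/
def chkE_net {E : List Entry} (h : chkE E) : CNet (cellsE E) 1 where
  p c := toV (ent E c).p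
  u c := toV (ent E c).u
  v c := toV (ent E c).v
  valid c hc := h.2.1 _ (ent_spec hc).1
  hor a b h1 h2 := by
    obtain ⟨e1, e2⟩ := ent_spec h1
    obtain ⟨f1, f2⟩ := ent_spec h2
    exact h.2.2.1 _ e1 _ f1 (by rw [e2, f2])
  ver a b h1 h2 := by
    obtain ⟨e1, e2⟩ := ent_spec h1
    obtain ⟨f1, f2⟩ := ent_spec h2
    exact h.2.2.2.1 _ e1 _ f1 (by rw [e2, f2])
  pinch1 a b h1 h2 := by
    obtain ⟨e1, e2⟩ := ent_spec h1
    obtain ⟨f1, f2⟩ := ent_spec h2
    rw [mem_cellsE, mem_cellsE]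
    have := h.2.2.2.2.1 _ e1 _ f1 (by rw [e2, f2])
    rw [e2] at this
    exact this
  pinch2 a b h1 h2 := by
    obtain ⟨e1, e2⟩ := ent_spec h1
    obtain ⟨f1, f2⟩ := ent_spec h2
    rw [mem_cellsE, mem_cellsE]
    have := h.2.2.2.2.2.1 _ e1 _ f1 (by rw [e2, f2]; simp)
    rw [e2] at this
    simpa using this
  inj c hc d hd hcd := by
    obtain ⟨e1, e2⟩ := ent_spec hc
    obtain ⟨f1, f2⟩ := ent_spec hd
    have := h.2.2.2.2.2.2.1 _ e1 _ f1 (fun i => congrFun hcd i)
    rw [e2, f2] at this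
    exact this
  cov i j k h1 h2 h3 a s t ha s0 s1 t0 t1 := by
    have es : s = 0 := by omega
    have et : t = 0 := by omega
    subst es; subst et
    obtain ⟨e, he, g1, g2, g3⟩ := covOK_spec h.2.2.2.2.2.2.2.1 i j k h1 h2 h3 a ha
    refine ⟨e.c, mem_cellsE.2 ⟨e, he, rfl⟩, ?_⟩
    rw [ent_eq h he rfl]
    exact ⟨g1, by rw [g2]; norm_num, by rw [g3]; norm_num⟩

theorem chkE_isNet {E : List Entry} (h : chkE E) : IsNet (cellsE E) 1 :=
  (chkE_net h).isNet (by norm_num) (by norm_num) (chkE_poly h)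

theorem shapes_ok : ∀ E ∈ shapes, chkE E := by
  decide +kernel

/-! ### Translations -/

/-- Translate of a cell. -/
def tr (a b : ℤ) (c : Cell) : Cell := (c.1 + a, c.2 + b)

theorem tr_inj (a b : ℤ) : Function.Injective (tr a b) := by
  intro c d h
  simp only [tr, Prod.mk.injEq] at h
  ext <;> omega

theorem adj_tr {a b : ℤ} {c d : Cell} (h : Adj c d) : Adj (tr a b c) (tr a b d) := by
  unfold Adj tr at *
  simp only
  omega

theorem mem_tr {P : Finset Cell} {a b x y : ℤ} :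
    (x, y) ∈ P.image (tr a b) ↔ (x - a, y - b) ∈ P := by
  rw [Finset.mem_image]
  constructor
  · rintro ⟨c, hc, h⟩
    simp only [tr, Prod.mk.injEq] at h
    have : (x - a, y - b) = c := by ext <;> simp <;> omega
    rw [this]; exact hc
  · intro h
    exact ⟨_, h, by simp [tr]⟩

theorem poly_tr {P : Finset Cell} (a b : ℤ) (h : IsPolyomino P) :
    IsPolyomino (P.image (tr a b)) := by
  refine ⟨h.1.image _, ?_, ?_⟩
  · intro c hc d hd
    obtain ⟨c', hc', rfl⟩ := Finset.mem_image.1 hc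
    obtain ⟨d', hd', rfl⟩ := Finset.mem_image.1 hd
    have hp := h.2.1 c' hc' d' hd'
    induction hp with
    | refl => exact Relation.ReflTransGen.refl
    | tail _ h2 ih =>
      exact (ih h2.1 (Finset.mem_image_of_mem _ h2.1)).tail
        ⟨Finset.mem_image_of_mem _ h2.1, Finset.mem_image_of_mem _ h2.2.1, adj_tr h2.2.2⟩
  · intro c hc N
    have hc' : (c.1 - a, c.2 - b) ∉ P := fun hm => hc (mem_tr.2 hm)
    obtain ⟨d, hd1, hd2⟩ := h.2.2 _ hc' (N + |a| + |b|)
    refine ⟨tr a b d, ?_, ?_⟩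
    · unfold tr
      simp only
      have t1 : |d.1| ≤ |d.1 + a| + |a| := by
        have := abs_sub (d.1 + a) a
        simpa using this
      have t2 : |d.2| ≤ |d.2 + b| + |b| := by
        have := abs_sub (d.2 + b) b
        simpa using this
      linarith
    · have e : c = tr a b (c.1 - a, c.2 - b) := by unfold tr; ext <;> simp
      rw [e]
      clear hd1 hc hc' e
      induction hd2 with
      | refl => exact Relation.ReflTransGen.refl
      | tail _ h2 ih =>
        have key : ∀ x : Cell, x ∉ P → tr a b x ∉ P.image (tr a b) := by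
          intro x hx hm
          obtain ⟨y, hy, hxy⟩ := Finset.mem_image.1 hm
          rw [tr_inj a b hxy] at hy
          exact hx hy
        exact ih.tail ⟨key _ h2.1, key _ h2.2.1, adj_tr h2.2.2⟩

/-- Translate of a combinatorial net. -/
def CNet.translate {P : Finset Cell} {n : ℤ} (N : CNet P n) (a b : ℤ) :
    CNet (P.image (tr a b)) n where
  p c := N.p (c.1 - a, c.2 - b)
  u c := N.u (c.1 - a, c.2 - b)
  v c := N.v (c.1 - a, c.2 - b)
  valid c hc := N.valid _ (mem_tr.1 hc)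
  hor x y h1 h2 := by
    have h1' := mem_tr.1 h1
    have h2' := mem_tr.1 h2
    have e : x + 1 - a = x - a + 1 := by ring
    simp only [e] at h2' ⊢
    exact N.hor _ _ h1' h2'
  ver x y h1 h2 := by
    have h1' := mem_tr.1 h1
    have h2' := mem_tr.1 h2
    have e : y + 1 - b = y - b + 1 := by ring
    simp only [e] at h2' ⊢
    exact N.ver _ _ h1' h2'
  pinch1 x y h1 h2 := by
    have h1' := mem_tr.1 h1
    have h2' := mem_tr.1 h2
    rw [mem_tr, mem_tr]
    have e1 : x + 1 - a = x - a + 1 := by ring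
    have e2 : y + 1 - b = y - b + 1 := by ring
    simp only [e1, e2] at h2' ⊢
    exact N.pinch1 _ _ h1' h2'
  pinch2 x y h1 h2 := by
    have h1' := mem_tr.1 h1
    have h2' := mem_tr.1 h2
    rw [mem_tr, mem_tr]
    have e1 : x + 1 - a = x - a + 1 := by ring
    have e2 : y + 1 - b = y - b + 1 := by ring
    simp only [e1, e2] at h1' h2' ⊢
    exact N.pinch2 _ _ h1' h2'
  inj c hc d hd h := by
    have := N.inj _ (mem_tr.1 hc) _ (mem_tr.1 hd) h
    simp only [Prod.mk.injEq] at this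
    ext <;> omega
  cov i j k h1 h2 h3 r s t hr s0 s1 t0 t1 := by
    obtain ⟨c, hc, h⟩ := N.cov i j k h1 h2 h3 r s t hr s0 s1 t0 t1
    refine ⟨tr a b c, Finset.mem_image_of_mem _ hc, ?_⟩
    have e : ((tr a b c).1 - a, (tr a b c).2 - b) = c := by ext <;> simp [tr]
    rw [e]
    exact h

theorem unit_translate {E : List Entry} (h : E ∈ shapes) (a b : ℤ) :
    IsNet ((cellsE E).image (tr a b)) 1 :=
  ((chkE_net (shapes_ok E h)).translate a b).isNet (by norm_num) (by norm_num)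
    (poly_tr a b (chkE_poly (shapes_ok E h)))

/-- Offsets of the cells of a shape. -/
def off (s : ℕ) : List Cell := (shapes.getD s []).map Entry.c

/-- The tile of shape `s` at the position `(X, Y)` of the quadrant `r`. -/
def tile (r : Fin 3) (s : ℕ) (X Y : ℤ) : Finset Cell :=
  ((off s).map fun o => pos r (X + o.1) (Y + o.2)).toFinset

theorem shapes_length : shapes.length = 64 := by decide

theorem rot_ok : ∀ s < 64,
    ((off s).map fun o => ((-o.2, o.1) : Cell)).toFinset =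
      ((off (rot1.getD s (0, 0, 0)).1).map fun o =>
        ((o.1 + (rot1.getD s (0, 0, 0)).2.1, o.2 + (rot1.getD s (0, 0, 0)).2.2) : Cell)).toFinset ∧
    ((off s).map fun o => ((-o.1, -o.2) : Cell)).toFinset =
      ((off (rot2.getD s (0, 0, 0)).1).map fun o =>
        ((o.1 + (rot2.getD s (0, 0, 0)).2.1, o.2 + (rot2.getD s (0, 0, 0)).2.2) : Cell)).toFinset ∧
    (rot1.getD s (0, 0, 0)).1 < 64 ∧ (rot2.getD s (0, 0, 0)).1 < 64 := by
  decide +kernel

theorem getD_mem {s : ℕ} (hs : s < 64) : shapes.getD s [] ∈ shapes := by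
  have h : s < shapes.length := by rw [shapes_length]; exact hs
  rw [List.getD_eq_getElem _ _ h]
  exact List.getElem_mem h

theorem image_net {s : ℕ} (hs : s < 64) (a b : ℤ) (S : Finset Cell)
    (h : ∀ c, c ∈ S ↔ ∃ o ∈ off s, c = (o.1 + a, o.2 + b)) : IsNet S 1 := by
  have e : S = (cellsE (shapes.getD s [])).image (tr a b) := by
    ext c
    rw [h, Finset.mem_image]
    unfold off cellsE tr
    simp only [List.mem_toFinset]
    constructor
    · rintro ⟨o, ho, rfl⟩; exact ⟨o, ho, rfl⟩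
    · rintro ⟨o, ho, rfl⟩; exact ⟨o, ho, rfl⟩
  rw [e]
  exact unit_translate (getD_mem hs) a b

theorem tile_isNet (r : Fin 3) {s : ℕ} (hs : s < 64) (X Y : ℤ) : IsNet (tile r s X Y) 1 := by
  obtain ⟨h1, h2, h3, h4⟩ := rot_ok s hs
  match r with
  | 0 =>
    refine image_net hs X Y _ fun c => ?_
    unfold tile
    rw [List.mem_toFinset, List.mem_map]
    constructor
    · rintro ⟨o, ho, rfl⟩
      exact ⟨o, ho, by simp [pos, add_comm]⟩
    · rintro ⟨o, ho, rfl⟩
      exact ⟨o, ho, by simp [pos, add_comm]⟩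
  | 1 =>
    refine image_net h3 ((rot1.getD s (0, 0, 0)).2.1 - Y - 1) ((rot1.getD s (0, 0, 0)).2.2 + X) _
      fun c => ?_
    have h1' := Finset.ext_iff.1 h1
    simp only [List.mem_toFinset, List.mem_map] at h1'
    unfold tile
    rw [List.mem_toFinset, List.mem_map]
    constructor
    · rintro ⟨o, ho, rfl⟩
      obtain ⟨o', ho', e⟩ := (h1' (-o.2, o.1)).1 ⟨o, ho, rfl⟩
      simp only [Prod.mk.injEq] at e
      refine ⟨o', ho', ?_⟩
      simp only [pos, Prod.mk.injEq]
      omega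
    · rintro ⟨o, ho, rfl⟩
      obtain ⟨o', ho', e⟩ := (h1' (o.1 + (rot1.getD s (0, 0, 0)).2.1,
        o.2 + (rot1.getD s (0, 0, 0)).2.2)).2 ⟨o, ho, rfl⟩
      simp only [Prod.mk.injEq] at e
      refine ⟨o', ho', ?_⟩
      simp only [pos, Prod.mk.injEq]
      omega
  | 2 =>
    refine image_net h4 ((rot2.getD s (0, 0, 0)).2.1 - X - 1)
      ((rot2.getD s (0, 0, 0)).2.2 - Y - 1) _ fun c => ?_
    have h2' := Finset.ext_iff.1 h2
    simp only [List.mem_toFinset, List.mem_map] at h2'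
    unfold tile
    rw [List.mem_toFinset, List.mem_map]
    constructor
    · rintro ⟨o, ho, rfl⟩
      obtain ⟨o', ho', e⟩ := (h2' (-o.1, -o.2)).1 ⟨o, ho, rfl⟩
      simp only [Prod.mk.injEq] at e
      refine ⟨o', ho', ?_⟩
      simp only [pos, Prod.mk.injEq]
      omega
    · rintro ⟨o, ho, rfl⟩
      obtain ⟨o', ho', e⟩ := (h2' (o.1 + (rot2.getD s (0, 0, 0)).2.1,
        o.2 + (rot2.getD s (0, 0, 0)).2.2)).2 ⟨o, ho, rfl⟩
      simp only [Prod.mk.injEq] at e
      refine ⟨o', ho', ?_⟩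
      simp only [pos, Prod.mk.injEq]
      omega

theorem off_card : ∀ s < 64, (off s).Nodup ∧ (off s).length = 6 := by
  decide +kernel

end Pool.Agent.RepCube
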