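import Pool.Agent.RepCube.CNet

/-!
# The 64 oriented nets of the unit cube: data
-/

namespace Pool.Agent.RepCube

/-- A cell with its image on the surface of the unit cube. -/
structure Entry where
  /-- the cell -/
  c : Cell
  /-- image of the lower left corner -/
  p : ℤ × ℤ × ℤ
  /-- image of the first unit vector -/
  u : ℤ × ℤ × ℤ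
  /-- image of the second unit vector -/
  v : ℤ × ℤ × ℤ
deriving DecidableEq, Inhabited

/-- The oriented nets of the unit cube with their foldings. -/
def shapes : List (List Entry) := [
  [⟨(0, 0), (0, 0, 1), (1, 0, 0), (0, 1, 0)⟩,
   ⟨(0, 1), (0, 1, 1), (1, 0, 0), (0, 0, -1)⟩,
   ⟨(1, 1), (1, 1, 1), (0, -1, 0), (0, 0, -1)⟩,
   ⟨(0, 2), (0, 1, 0), (1, 0, 0), (0, -1, 0)⟩,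
   ⟨(2, 1), (1, 0, 1), (-1, 0, 0), (0, 0, -1)⟩,
   ⟨(3, 1), (0, 0, 1), (0, 1, 0), (0, 0, -1)⟩],
  [⟨(0, 0), (0, 0, 1), (1, 0, 0), (0, 1, 0)⟩,
   ⟨(0, 1), (0, 1, 1), (1, 0, 0), (0, 0, -1)⟩,
   ⟨(0, 2), (0, 1, 0), (1, 0, 0), (0, -1, 0)⟩,
   ⟨(1, 2), (1, 1, 0), (0, 0, 1), (0, -1, 0)⟩,
   ⟨(1, 3), (1, 0, 0), (0, 0, 1), (-1, 0, 0)⟩,
   ⟨(1, 4), (0, 0, 0), (0, 0, 1), (0, 1, 0)⟩],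
  [⟨(0, 0), (0, 0, 1), (1, 0, 0), (0, 1, 0)⟩,
   ⟨(0, 1), (0, 1, 1), (1, 0, 0), (0, 0, -1)⟩,
   ⟨(1, 1), (1, 1, 1), (0, -1, 0), (0, 0, -1)⟩,
   ⟨(2, 1), (1, 0, 1), (-1, 0, 0), (0, 0, -1)⟩,
   ⟨(1, 2), (1, 1, 0), (0, -1, 0), (-1, 0, 0)⟩,
   ⟨(1, 3), (0, 1, 0), (0, -1, 0), (0, 0, 1)⟩],
  [⟨(0, 0), (0, 0, 1), (1, 0, 0), (0, 1, 0)⟩,
   ⟨(0, 1), (0, 1, 1), (1, 0, 0), (0, 0, -1)⟩,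
   ⟨(1, 1), (1, 1, 1), (0, -1, 0), (0, 0, -1)⟩,
   ⟨(1, 2), (1, 1, 0), (0, -1, 0), (-1, 0, 0)⟩,
   ⟨(2, 2), (1, 0, 0), (0, 0, 1), (-1, 0, 0)⟩,
   ⟨(1, 3), (0, 1, 0), (0, -1, 0), (0, 0, 1)⟩],
  [⟨(0, 0), (0, 0, 1), (1, 0, 0), (0, 1, 0)⟩,
   ⟨(0, 1), (0, 1, 1), (1, 0, 0), (0, 0, -1)⟩,
   ⟨(1, 1), (1, 1, 1), (0, -1, 0), (0, 0, -1)⟩,
   ⟨(1, 2), (1, 1, 0), (0, -1, 0), (-1, 0, 0)⟩,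
   ⟨(1, 3), (0, 1, 0), (0, -1, 0), (0, 0, 1)⟩,
   ⟨(2, 3), (0, 0, 0), (1, 0, 0), (0, 0, 1)⟩],
  [⟨(0, 0), (0, 0, 1), (1, 0, 0), (0, 1, 0)⟩,
   ⟨(0, 1), (0, 1, 1), (1, 0, 0), (0, 0, -1)⟩,
   ⟨(1, 1), (1, 1, 1), (0, -1, 0), (0, 0, -1)⟩,
   ⟨(2, 1), (1, 0, 1), (-1, 0, 0), (0, 0, -1)⟩,
   ⟨(1, 2), (1, 1, 0), (0, -1, 0), (-1, 0, 0)⟩,
   ⟨(3, 1), (0, 0, 1), (0, 1, 0), (0, 0, -1)⟩],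
  [⟨(0, 0), (0, 0, 1), (1, 0, 0), (0, 1, 0)⟩,
   ⟨(0, 1), (0, 1, 1), (1, 0, 0), (0, 0, -1)⟩,
   ⟨(1, 1), (1, 1, 1), (0, -1, 0), (0, 0, -1)⟩,
   ⟨(1, 2), (1, 1, 0), (0, -1, 0), (-1, 0, 0)⟩,
   ⟨(2, 2), (1, 0, 0), (0, 0, 1), (-1, 0, 0)⟩,
   ⟨(2, 3), (0, 0, 0), (0, 0, 1), (0, 1, 0)⟩],
  [⟨(0, 0), (0, 0, 1), (1, 0, 0), (0, 1, 0)⟩,
   ⟨(0, 1), (0, 1, 1), (1, 0, 0), (0, 0, -1)⟩,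
   ⟨(1, 1), (1, 1, 1), (0, -1, 0), (0, 0, -1)⟩,
   ⟨(2, 1), (1, 0, 1), (-1, 0, 0), (0, 0, -1)⟩,
   ⟨(3, 1), (0, 0, 1), (0, 1, 0), (0, 0, -1)⟩,
   ⟨(2, 2), (1, 0, 0), (-1, 0, 0), (0, 1, 0)⟩],
  [⟨(0, 0), (0, 0, 1), (1, 0, 0), (0, 1, 0)⟩,
   ⟨(0, 1), (0, 1, 1), (1, 0, 0), (0, 0, -1)⟩,
   ⟨(1, 1), (1, 1, 1), (0, -1, 0), (0, 0, -1)⟩,
   ⟨(2, 1), (1, 0, 1), (-1, 0, 0), (0, 0, -1)⟩,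
   ⟨(2, 2), (1, 0, 0), (-1, 0, 0), (0, 1, 0)⟩,
   ⟨(3, 2), (0, 0, 0), (0, 0, 1), (0, 1, 0)⟩],
  [⟨(0, 0), (0, 0, 1), (1, 0, 0), (0, 1, 0)⟩,
   ⟨(0, 1), (0, 1, 1), (1, 0, 0), (0, 0, -1)⟩,
   ⟨(1, 1), (1, 1, 1), (0, -1, 0), (0, 0, -1)⟩,
   ⟨(2, 1), (1, 0, 1), (-1, 0, 0), (0, 0, -1)⟩,
   ⟨(3, 1), (0, 0, 1), (0, 1, 0), (0, 0, -1)⟩,
   ⟨(3, 2), (0, 0, 0), (0, 1, 0), (1, 0, 0)⟩],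
  [⟨(0, 0), (0, 0, 1), (1, 0, 0), (0, 1, 0)⟩,
   ⟨(1, 0), (1, 0, 1), (0, 0, -1), (0, 1, 0)⟩,
   ⟨(2, 0), (1, 0, 0), (-1, 0, 0), (0, 1, 0)⟩,
   ⟨(1, 1), (1, 1, 1), (0, 0, -1), (-1, 0, 0)⟩,
   ⟨(1, 2), (0, 1, 1), (0, 0, -1), (0, -1, 0)⟩,
   ⟨(1, 3), (0, 0, 1), (0, 0, -1), (1, 0, 0)⟩],
  [⟨(0, 0), (0, 0, 1), (1, 0, 0), (0, 1, 0)⟩,
   ⟨(1, 0), (1, 0, 1), (0, 0, -1), (0, 1, 0)⟩,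
   ⟨(1, 1), (1, 1, 1), (0, 0, -1), (-1, 0, 0)⟩,
   ⟨(2, 1), (1, 1, 0), (0, -1, 0), (-1, 0, 0)⟩,
   ⟨(1, 2), (0, 1, 1), (0, 0, -1), (0, -1, 0)⟩,
   ⟨(1, 3), (0, 0, 1), (0, 0, -1), (1, 0, 0)⟩],
  [⟨(0, 0), (0, 0, 1), (1, 0, 0), (0, 1, 0)⟩,
   ⟨(1, 0), (1, 0, 1), (0, 0, -1), (0, 1, 0)⟩,
   ⟨(1, 1), (1, 1, 1), (0, 0, -1), (-1, 0, 0)⟩,
   ⟨(1, 2), (0, 1, 1), (0, 0, -1), (0, -1, 0)⟩,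
   ⟨(2, 2), (0, 1, 0), (1, 0, 0), (0, -1, 0)⟩,
   ⟨(1, 3), (0, 0, 1), (0, 0, -1), (1, 0, 0)⟩],
  [⟨(0, 0), (0, 0, 1), (1, 0, 0), (0, 1, 0)⟩,
   ⟨(1, 0), (1, 0, 1), (0, 0, -1), (0, 1, 0)⟩,
   ⟨(1, 1), (1, 1, 1), (0, 0, -1), (-1, 0, 0)⟩,
   ⟨(1, 2), (0, 1, 1), (0, 0, -1), (0, -1, 0)⟩,
   ⟨(1, 3), (0, 0, 1), (0, 0, -1), (1, 0, 0)⟩,
   ⟨(2, 3), (0, 0, 0), (0, 1, 0), (1, 0, 0)⟩],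
  [⟨(0, 0), (0, 0, 1), (1, 0, 0), (0, 1, 0)⟩,
   ⟨(1, 0), (1, 0, 1), (0, 0, -1), (0, 1, 0)⟩,
   ⟨(1, 1), (1, 1, 1), (0, 0, -1), (-1, 0, 0)⟩,
   ⟨(2, 1), (1, 1, 0), (0, -1, 0), (-1, 0, 0)⟩,
   ⟨(1, 2), (0, 1, 1), (0, 0, -1), (0, -1, 0)⟩,
   ⟨(3, 1), (1, 0, 0), (0, 0, 1), (-1, 0, 0)⟩],
  [⟨(0, 0), (0, 0, 1), (1, 0, 0), (0, 1, 0)⟩,
   ⟨(1, 0), (1, 0, 1), (0, 0, -1), (0, 1, 0)⟩,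
   ⟨(1, 1), (1, 1, 1), (0, 0, -1), (-1, 0, 0)⟩,
   ⟨(1, 2), (0, 1, 1), (0, 0, -1), (0, -1, 0)⟩,
   ⟨(2, 2), (0, 1, 0), (1, 0, 0), (0, -1, 0)⟩,
   ⟨(2, 3), (0, 0, 0), (1, 0, 0), (0, 0, 1)⟩],
  [⟨(0, 0), (0, 0, 1), (1, 0, 0), (0, 1, 0)⟩,
   ⟨(1, 0), (1, 0, 1), (0, 0, -1), (0, 1, 0)⟩,
   ⟨(1, 1), (1, 1, 1), (0, 0, -1), (-1, 0, 0)⟩,
   ⟨(2, 1), (1, 1, 0), (0, -1, 0), (-1, 0, 0)⟩,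
   ⟨(3, 1), (1, 0, 0), (0, 0, 1), (-1, 0, 0)⟩,
   ⟨(2, 2), (0, 1, 0), (0, -1, 0), (0, 0, 1)⟩],
  [⟨(0, 0), (0, 0, 1), (1, 0, 0), (0, 1, 0)⟩,
   ⟨(1, 0), (1, 0, 1), (0, 0, -1), (0, 1, 0)⟩,
   ⟨(1, 1), (1, 1, 1), (0, 0, -1), (-1, 0, 0)⟩,
   ⟨(2, 1), (1, 1, 0), (0, -1, 0), (-1, 0, 0)⟩,
   ⟨(2, 2), (0, 1, 0), (0, -1, 0), (0, 0, 1)⟩,
   ⟨(3, 2), (0, 0, 0), (1, 0, 0), (0, 0, 1)⟩],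
  [⟨(0, 0), (0, 0, 1), (1, 0, 0), (0, 1, 0)⟩,
   ⟨(1, 0), (1, 0, 1), (0, 0, -1), (0, 1, 0)⟩,
   ⟨(1, 1), (1, 1, 1), (0, 0, -1), (-1, 0, 0)⟩,
   ⟨(2, 1), (1, 1, 0), (0, -1, 0), (-1, 0, 0)⟩,
   ⟨(3, 1), (1, 0, 0), (0, 0, 1), (-1, 0, 0)⟩,
   ⟨(3, 2), (0, 0, 0), (0, 0, 1), (0, 1, 0)⟩],
  [⟨(0, 0), (0, 0, 1), (1, 0, 0), (0, 1, 0)⟩,
   ⟨(1, 0), (1, 0, 1), (0, 0, -1), (0, 1, 0)⟩,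
   ⟨(2, 0), (1, 0, 0), (-1, 0, 0), (0, 1, 0)⟩,
   ⟨(2, 1), (1, 1, 0), (-1, 0, 0), (0, 0, 1)⟩,
   ⟨(3, 1), (0, 1, 0), (0, -1, 0), (0, 0, 1)⟩,
   ⟨(4, 1), (0, 0, 0), (1, 0, 0), (0, 0, 1)⟩],
  [⟨(0, 1), (0, 0, 1), (1, 0, 0), (0, 1, 0)⟩,
   ⟨(1, 1), (1, 0, 1), (0, 0, -1), (0, 1, 0)⟩,
   ⟨(0, 2), (0, 1, 1), (1, 0, 0), (0, 0, -1)⟩,
   ⟨(2, 1), (1, 0, 0), (-1, 0, 0), (0, 1, 0)⟩,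
   ⟨(1, 0), (0, 0, 1), (0, 0, -1), (1, 0, 0)⟩,
   ⟨(3, 1), (0, 0, 0), (0, 0, 1), (0, 1, 0)⟩],
  [⟨(0, 1), (0, 0, 1), (1, 0, 0), (0, 1, 0)⟩,
   ⟨(1, 1), (1, 0, 1), (0, 0, -1), (0, 1, 0)⟩,
   ⟨(0, 2), (0, 1, 1), (1, 0, 0), (0, 0, -1)⟩,
   ⟨(2, 1), (1, 0, 0), (-1, 0, 0), (0, 1, 0)⟩,
   ⟨(2, 0), (1, 0, 1), (-1, 0, 0), (0, 0, -1)⟩,
   ⟨(3, 0), (0, 0, 1), (0, 1, 0), (0, 0, -1)⟩],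
  [⟨(0, 1), (0, 0, 1), (1, 0, 0), (0, 1, 0)⟩,
   ⟨(1, 1), (1, 0, 1), (0, 0, -1), (0, 1, 0)⟩,
   ⟨(0, 2), (0, 1, 1), (1, 0, 0), (0, 0, -1)⟩,
   ⟨(2, 1), (1, 0, 0), (-1, 0, 0), (0, 1, 0)⟩,
   ⟨(3, 1), (0, 0, 0), (0, 0, 1), (0, 1, 0)⟩,
   ⟨(2, 0), (1, 0, 1), (-1, 0, 0), (0, 0, -1)⟩],
  [⟨(0, 1), (0, 0, 1), (1, 0, 0), (0, 1, 0)⟩,
   ⟨(1, 1), (1, 0, 1), (0, 0, -1), (0, 1, 0)⟩,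
   ⟨(0, 2), (0, 1, 1), (1, 0, 0), (0, 0, -1)⟩,
   ⟨(2, 1), (1, 0, 0), (-1, 0, 0), (0, 1, 0)⟩,
   ⟨(3, 1), (0, 0, 0), (0, 0, 1), (0, 1, 0)⟩,
   ⟨(3, 0), (1, 0, 0), (0, 0, 1), (-1, 0, 0)⟩],
  [⟨(0, 1), (0, 0, 1), (1, 0, 0), (0, 1, 0)⟩,
   ⟨(1, 1), (1, 0, 1), (0, 0, -1), (0, 1, 0)⟩,
   ⟨(1, 2), (1, 1, 1), (0, 0, -1), (-1, 0, 0)⟩,
   ⟨(1, 0), (0, 0, 1), (0, 0, -1), (1, 0, 0)⟩,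
   ⟨(1, 3), (0, 1, 1), (0, 0, -1), (0, -1, 0)⟩,
   ⟨(2, 0), (0, 0, 0), (0, 1, 0), (1, 0, 0)⟩],
  [⟨(0, 1), (0, 0, 1), (1, 0, 0), (0, 1, 0)⟩,
   ⟨(1, 1), (1, 0, 1), (0, 0, -1), (0, 1, 0)⟩,
   ⟨(2, 1), (1, 0, 0), (-1, 0, 0), (0, 1, 0)⟩,
   ⟨(1, 2), (1, 1, 1), (0, 0, -1), (-1, 0, 0)⟩,
   ⟨(1, 0), (0, 0, 1), (0, 0, -1), (1, 0, 0)⟩,
   ⟨(1, 3), (0, 1, 1), (0, 0, -1), (0, -1, 0)⟩],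
  [⟨(0, 1), (0, 0, 1), (1, 0, 0), (0, 1, 0)⟩,
   ⟨(1, 1), (1, 0, 1), (0, 0, -1), (0, 1, 0)⟩,
   ⟨(1, 2), (1, 1, 1), (0, 0, -1), (-1, 0, 0)⟩,
   ⟨(1, 0), (0, 0, 1), (0, 0, -1), (1, 0, 0)⟩,
   ⟨(2, 2), (1, 1, 0), (0, -1, 0), (-1, 0, 0)⟩,
   ⟨(1, 3), (0, 1, 1), (0, 0, -1), (0, -1, 0)⟩],
  [⟨(0, 1), (0, 0, 1), (1, 0, 0), (0, 1, 0)⟩,
   ⟨(1, 1), (1, 0, 1), (0, 0, -1), (0, 1, 0)⟩,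
   ⟨(1, 2), (1, 1, 1), (0, 0, -1), (-1, 0, 0)⟩,
   ⟨(1, 0), (0, 0, 1), (0, 0, -1), (1, 0, 0)⟩,
   ⟨(1, 3), (0, 1, 1), (0, 0, -1), (0, -1, 0)⟩,
   ⟨(2, 3), (0, 1, 0), (1, 0, 0), (0, -1, 0)⟩],
  [⟨(0, 1), (0, 0, 1), (1, 0, 0), (0, 1, 0)⟩,
   ⟨(1, 1), (1, 0, 1), (0, 0, -1), (0, 1, 0)⟩,
   ⟨(2, 1), (1, 0, 0), (-1, 0, 0), (0, 1, 0)⟩,
   ⟨(1, 2), (1, 1, 1), (0, 0, -1), (-1, 0, 0)⟩,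
   ⟨(1, 0), (0, 0, 1), (0, 0, -1), (1, 0, 0)⟩,
   ⟨(3, 1), (0, 0, 0), (0, 0, 1), (0, 1, 0)⟩],
  [⟨(0, 1), (0, 0, 1), (1, 0, 0), (0, 1, 0)⟩,
   ⟨(1, 1), (1, 0, 1), (0, 0, -1), (0, 1, 0)⟩,
   ⟨(1, 2), (1, 1, 1), (0, 0, -1), (-1, 0, 0)⟩,
   ⟨(1, 0), (0, 0, 1), (0, 0, -1), (1, 0, 0)⟩,
   ⟨(2, 2), (1, 1, 0), (0, -1, 0), (-1, 0, 0)⟩,
   ⟨(2, 3), (0, 1, 0), (0, -1, 0), (0, 0, 1)⟩],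
  [⟨(0, 1), (0, 0, 1), (1, 0, 0), (0, 1, 0)⟩,
   ⟨(1, 1), (1, 0, 1), (0, 0, -1), (0, 1, 0)⟩,
   ⟨(2, 1), (1, 0, 0), (-1, 0, 0), (0, 1, 0)⟩,
   ⟨(1, 0), (0, 0, 1), (0, 0, -1), (1, 0, 0)⟩,
   ⟨(3, 1), (0, 0, 0), (0, 0, 1), (0, 1, 0)⟩,
   ⟨(2, 2), (1, 1, 0), (-1, 0, 0), (0, 0, 1)⟩],
  [⟨(0, 1), (0, 0, 1), (1, 0, 0), (0, 1, 0)⟩,
   ⟨(1, 1), (1, 0, 1), (0, 0, -1), (0, 1, 0)⟩,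
   ⟨(2, 1), (1, 0, 0), (-1, 0, 0), (0, 1, 0)⟩,
   ⟨(1, 0), (0, 0, 1), (0, 0, -1), (1, 0, 0)⟩,
   ⟨(2, 2), (1, 1, 0), (-1, 0, 0), (0, 0, 1)⟩,
   ⟨(3, 2), (0, 1, 0), (0, -1, 0), (0, 0, 1)⟩],
  [⟨(0, 1), (0, 0, 1), (1, 0, 0), (0, 1, 0)⟩,
   ⟨(1, 1), (1, 0, 1), (0, 0, -1), (0, 1, 0)⟩,
   ⟨(2, 1), (1, 0, 0), (-1, 0, 0), (0, 1, 0)⟩,
   ⟨(1, 0), (0, 0, 1), (0, 0, -1), (1, 0, 0)⟩,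
   ⟨(3, 1), (0, 0, 0), (0, 0, 1), (0, 1, 0)⟩,
   ⟨(3, 2), (0, 1, 0), (0, 0, 1), (1, 0, 0)⟩],
  [⟨(0, 1), (0, 0, 1), (1, 0, 0), (0, 1, 0)⟩,
   ⟨(1, 1), (1, 0, 1), (0, 0, -1), (0, 1, 0)⟩,
   ⟨(2, 1), (1, 0, 0), (-1, 0, 0), (0, 1, 0)⟩,
   ⟨(1, 2), (1, 1, 1), (0, 0, -1), (-1, 0, 0)⟩,
   ⟨(2, 0), (1, 0, 1), (-1, 0, 0), (0, 0, -1)⟩,
   ⟨(1, 3), (0, 1, 1), (0, 0, -1), (0, -1, 0)⟩],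
  [⟨(0, 1), (0, 0, 1), (1, 0, 0), (0, 1, 0)⟩,
   ⟨(1, 1), (1, 0, 1), (0, 0, -1), (0, 1, 0)⟩,
   ⟨(2, 1), (1, 0, 0), (-1, 0, 0), (0, 1, 0)⟩,
   ⟨(1, 2), (1, 1, 1), (0, 0, -1), (-1, 0, 0)⟩,
   ⟨(2, 0), (1, 0, 1), (-1, 0, 0), (0, 0, -1)⟩,
   ⟨(3, 0), (0, 0, 1), (0, 1, 0), (0, 0, -1)⟩],
  [⟨(0, 1), (0, 0, 1), (1, 0, 0), (0, 1, 0)⟩,
   ⟨(1, 1), (1, 0, 1), (0, 0, -1), (0, 1, 0)⟩,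
   ⟨(2, 1), (1, 0, 0), (-1, 0, 0), (0, 1, 0)⟩,
   ⟨(1, 2), (1, 1, 1), (0, 0, -1), (-1, 0, 0)⟩,
   ⟨(3, 1), (0, 0, 0), (0, 0, 1), (0, 1, 0)⟩,
   ⟨(2, 0), (1, 0, 1), (-1, 0, 0), (0, 0, -1)⟩],
  [⟨(0, 1), (0, 0, 1), (1, 0, 0), (0, 1, 0)⟩,
   ⟨(1, 1), (1, 0, 1), (0, 0, -1), (0, 1, 0)⟩,
   ⟨(2, 1), (1, 0, 0), (-1, 0, 0), (0, 1, 0)⟩,
   ⟨(1, 2), (1, 1, 1), (0, 0, -1), (-1, 0, 0)⟩,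
   ⟨(3, 1), (0, 0, 0), (0, 0, 1), (0, 1, 0)⟩,
   ⟨(3, 0), (1, 0, 0), (0, 0, 1), (-1, 0, 0)⟩],
  [⟨(0, 1), (0, 0, 1), (1, 0, 0), (0, 1, 0)⟩,
   ⟨(1, 1), (1, 0, 1), (0, 0, -1), (0, 1, 0)⟩,
   ⟨(2, 1), (1, 0, 0), (-1, 0, 0), (0, 1, 0)⟩,
   ⟨(2, 2), (1, 1, 0), (-1, 0, 0), (0, 0, 1)⟩,
   ⟨(2, 0), (1, 0, 1), (-1, 0, 0), (0, 0, -1)⟩,
   ⟨(3, 0), (0, 0, 1), (0, 1, 0), (0, 0, -1)⟩],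
  [⟨(0, 1), (0, 0, 1), (1, 0, 0), (0, 1, 0)⟩,
   ⟨(1, 1), (1, 0, 1), (0, 0, -1), (0, 1, 0)⟩,
   ⟨(2, 1), (1, 0, 0), (-1, 0, 0), (0, 1, 0)⟩,
   ⟨(3, 1), (0, 0, 0), (0, 0, 1), (0, 1, 0)⟩,
   ⟨(2, 2), (1, 1, 0), (-1, 0, 0), (0, 0, 1)⟩,
   ⟨(2, 0), (1, 0, 1), (-1, 0, 0), (0, 0, -1)⟩],
  [⟨(0, 1), (0, 0, 1), (1, 0, 0), (0, 1, 0)⟩,
   ⟨(1, 1), (1, 0, 1), (0, 0, -1), (0, 1, 0)⟩,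
   ⟨(2, 1), (1, 0, 0), (-1, 0, 0), (0, 1, 0)⟩,
   ⟨(2, 2), (1, 1, 0), (-1, 0, 0), (0, 0, 1)⟩,
   ⟨(2, 0), (1, 0, 1), (-1, 0, 0), (0, 0, -1)⟩,
   ⟨(3, 2), (0, 1, 0), (0, -1, 0), (0, 0, 1)⟩],
  [⟨(0, 1), (0, 0, 1), (1, 0, 0), (0, 1, 0)⟩,
   ⟨(1, 1), (1, 0, 1), (0, 0, -1), (0, 1, 0)⟩,
   ⟨(2, 1), (1, 0, 0), (-1, 0, 0), (0, 1, 0)⟩,
   ⟨(2, 0), (1, 0, 1), (-1, 0, 0), (0, 0, -1)⟩,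
   ⟨(3, 0), (0, 0, 1), (0, 1, 0), (0, 0, -1)⟩,
   ⟨(4, 0), (0, 1, 1), (1, 0, 0), (0, 0, -1)⟩],
  [⟨(0, 1), (0, 0, 1), (1, 0, 0), (0, 1, 0)⟩,
   ⟨(1, 1), (1, 0, 1), (0, 0, -1), (0, 1, 0)⟩,
   ⟨(2, 1), (1, 0, 0), (-1, 0, 0), (0, 1, 0)⟩,
   ⟨(3, 1), (0, 0, 0), (0, 0, 1), (0, 1, 0)⟩,
   ⟨(2, 0), (1, 0, 1), (-1, 0, 0), (0, 0, -1)⟩,
   ⟨(3, 2), (0, 1, 0), (0, 0, 1), (1, 0, 0)⟩],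
  [⟨(0, 1), (0, 0, 1), (1, 0, 0), (0, 1, 0)⟩,
   ⟨(1, 1), (1, 0, 1), (0, 0, -1), (0, 1, 0)⟩,
   ⟨(2, 1), (1, 0, 0), (-1, 0, 0), (0, 1, 0)⟩,
   ⟨(3, 1), (0, 0, 0), (0, 0, 1), (0, 1, 0)⟩,
   ⟨(2, 2), (1, 1, 0), (-1, 0, 0), (0, 0, 1)⟩,
   ⟨(3, 0), (1, 0, 0), (0, 0, 1), (-1, 0, 0)⟩],
  [⟨(0, 1), (0, 0, 1), (1, 0, 0), (0, 1, 0)⟩,
   ⟨(1, 1), (1, 0, 1), (0, 0, -1), (0, 1, 0)⟩,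
   ⟨(2, 1), (1, 0, 0), (-1, 0, 0), (0, 1, 0)⟩,
   ⟨(3, 1), (0, 0, 0), (0, 0, 1), (0, 1, 0)⟩,
   ⟨(3, 2), (0, 1, 0), (0, 0, 1), (1, 0, 0)⟩,
   ⟨(3, 0), (1, 0, 0), (0, 0, 1), (-1, 0, 0)⟩],
  [⟨(0, 2), (0, 0, 1), (1, 0, 0), (0, 1, 0)⟩,
   ⟨(1, 2), (1, 0, 1), (0, 0, -1), (0, 1, 0)⟩,
   ⟨(0, 3), (0, 1, 1), (1, 0, 0), (0, 0, -1)⟩,
   ⟨(1, 1), (0, 0, 1), (0, 0, -1), (1, 0, 0)⟩,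
   ⟨(0, 4), (0, 1, 0), (1, 0, 0), (0, -1, 0)⟩,
   ⟨(1, 0), (0, 1, 1), (0, 0, -1), (0, -1, 0)⟩],
  [⟨(0, 2), (0, 0, 1), (1, 0, 0), (0, 1, 0)⟩,
   ⟨(1, 2), (1, 0, 1), (0, 0, -1), (0, 1, 0)⟩,
   ⟨(0, 3), (0, 1, 1), (1, 0, 0), (0, 0, -1)⟩,
   ⟨(1, 1), (0, 0, 1), (0, 0, -1), (1, 0, 0)⟩,
   ⟨(1, 0), (0, 1, 1), (0, 0, -1), (0, -1, 0)⟩,
   ⟨(2, 0), (0, 1, 0), (1, 0, 0), (0, -1, 0)⟩],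
  [⟨(0, 2), (0, 0, 1), (1, 0, 0), (0, 1, 0)⟩,
   ⟨(1, 2), (1, 0, 1), (0, 0, -1), (0, 1, 0)⟩,
   ⟨(0, 3), (0, 1, 1), (1, 0, 0), (0, 0, -1)⟩,
   ⟨(1, 1), (0, 0, 1), (0, 0, -1), (1, 0, 0)⟩,
   ⟨(2, 1), (0, 0, 0), (0, 1, 0), (1, 0, 0)⟩,
   ⟨(1, 0), (0, 1, 1), (0, 0, -1), (0, -1, 0)⟩],
  [⟨(0, 2), (0, 0, 1), (1, 0, 0), (0, 1, 0)⟩,
   ⟨(1, 2), (1, 0, 1), (0, 0, -1), (0, 1, 0)⟩,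
   ⟨(0, 3), (0, 1, 1), (1, 0, 0), (0, 0, -1)⟩,
   ⟨(2, 2), (1, 0, 0), (-1, 0, 0), (0, 1, 0)⟩,
   ⟨(1, 1), (0, 0, 1), (0, 0, -1), (1, 0, 0)⟩,
   ⟨(1, 0), (0, 1, 1), (0, 0, -1), (0, -1, 0)⟩],
  [⟨(0, 2), (0, 0, 1), (1, 0, 0), (0, 1, 0)⟩,
   ⟨(1, 2), (1, 0, 1), (0, 0, -1), (0, 1, 0)⟩,
   ⟨(0, 3), (0, 1, 1), (1, 0, 0), (0, 0, -1)⟩,
   ⟨(1, 1), (0, 0, 1), (0, 0, -1), (1, 0, 0)⟩,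
   ⟨(2, 1), (0, 0, 0), (0, 1, 0), (1, 0, 0)⟩,
   ⟨(2, 0), (0, 0, 1), (0, 1, 0), (0, 0, -1)⟩],
  [⟨(0, 2), (0, 0, 1), (1, 0, 0), (0, 1, 0)⟩,
   ⟨(1, 2), (1, 0, 1), (0, 0, -1), (0, 1, 0)⟩,
   ⟨(1, 3), (1, 1, 1), (0, 0, -1), (-1, 0, 0)⟩,
   ⟨(1, 1), (0, 0, 1), (0, 0, -1), (1, 0, 0)⟩,
   ⟨(1, 0), (0, 1, 1), (0, 0, -1), (0, -1, 0)⟩,
   ⟨(2, 0), (0, 1, 0), (1, 0, 0), (0, -1, 0)⟩],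
  [⟨(0, 2), (0, 0, 1), (1, 0, 0), (0, 1, 0)⟩,
   ⟨(1, 2), (1, 0, 1), (0, 0, -1), (0, 1, 0)⟩,
   ⟨(1, 3), (1, 1, 1), (0, 0, -1), (-1, 0, 0)⟩,
   ⟨(1, 1), (0, 0, 1), (0, 0, -1), (1, 0, 0)⟩,
   ⟨(2, 1), (0, 0, 0), (0, 1, 0), (1, 0, 0)⟩,
   ⟨(1, 0), (0, 1, 1), (0, 0, -1), (0, -1, 0)⟩],
  [⟨(0, 2), (0, 0, 1), (1, 0, 0), (0, 1, 0)⟩,
   ⟨(1, 2), (1, 0, 1), (0, 0, -1), (0, 1, 0)⟩,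
   ⟨(2, 2), (1, 0, 0), (-1, 0, 0), (0, 1, 0)⟩,
   ⟨(1, 3), (1, 1, 1), (0, 0, -1), (-1, 0, 0)⟩,
   ⟨(1, 1), (0, 0, 1), (0, 0, -1), (1, 0, 0)⟩,
   ⟨(1, 0), (0, 1, 1), (0, 0, -1), (0, -1, 0)⟩],
  [⟨(0, 2), (0, 0, 1), (1, 0, 0), (0, 1, 0)⟩,
   ⟨(1, 2), (1, 0, 1), (0, 0, -1), (0, 1, 0)⟩,
   ⟨(1, 3), (1, 1, 1), (0, 0, -1), (-1, 0, 0)⟩,
   ⟨(1, 1), (0, 0, 1), (0, 0, -1), (1, 0, 0)⟩,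
   ⟨(2, 3), (1, 1, 0), (0, -1, 0), (-1, 0, 0)⟩,
   ⟨(1, 0), (0, 1, 1), (0, 0, -1), (0, -1, 0)⟩],
  [⟨(0, 2), (0, 0, 1), (1, 0, 0), (0, 1, 0)⟩,
   ⟨(1, 2), (1, 0, 1), (0, 0, -1), (0, 1, 0)⟩,
   ⟨(1, 1), (0, 0, 1), (0, 0, -1), (1, 0, 0)⟩,
   ⟨(2, 1), (0, 0, 0), (0, 1, 0), (1, 0, 0)⟩,
   ⟨(1, 0), (0, 1, 1), (0, 0, -1), (0, -1, 0)⟩,
   ⟨(3, 1), (0, 1, 0), (0, 0, 1), (1, 0, 0)⟩],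
  [⟨(0, 2), (0, 0, 1), (1, 0, 0), (0, 1, 0)⟩,
   ⟨(1, 2), (1, 0, 1), (0, 0, -1), (0, 1, 0)⟩,
   ⟨(2, 2), (1, 0, 0), (-1, 0, 0), (0, 1, 0)⟩,
   ⟨(1, 1), (0, 0, 1), (0, 0, -1), (1, 0, 0)⟩,
   ⟨(2, 3), (1, 1, 0), (-1, 0, 0), (0, 0, 1)⟩,
   ⟨(1, 0), (0, 1, 1), (0, 0, -1), (0, -1, 0)⟩],
  [⟨(0, 2), (0, 0, 1), (1, 0, 0), (0, 1, 0)⟩,
   ⟨(1, 2), (1, 0, 1), (0, 0, -1), (0, 1, 0)⟩,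
   ⟨(1, 3), (1, 1, 1), (0, 0, -1), (-1, 0, 0)⟩,
   ⟨(1, 1), (0, 0, 1), (0, 0, -1), (1, 0, 0)⟩,
   ⟨(2, 1), (0, 0, 0), (0, 1, 0), (1, 0, 0)⟩,
   ⟨(2, 0), (0, 0, 1), (0, 1, 0), (0, 0, -1)⟩],
  [⟨(0, 2), (0, 0, 1), (1, 0, 0), (0, 1, 0)⟩,
   ⟨(1, 2), (1, 0, 1), (0, 0, -1), (0, 1, 0)⟩,
   ⟨(1, 1), (0, 0, 1), (0, 0, -1), (1, 0, 0)⟩,
   ⟨(2, 1), (0, 0, 0), (0, 1, 0), (1, 0, 0)⟩,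
   ⟨(2, 0), (0, 0, 1), (0, 1, 0), (0, 0, -1)⟩,
   ⟨(3, 0), (0, 1, 1), (1, 0, 0), (0, 0, -1)⟩],
  [⟨(0, 2), (0, 0, 1), (1, 0, 0), (0, 1, 0)⟩,
   ⟨(1, 2), (1, 0, 1), (0, 0, -1), (0, 1, 0)⟩,
   ⟨(1, 1), (0, 0, 1), (0, 0, -1), (1, 0, 0)⟩,
   ⟨(2, 1), (0, 0, 0), (0, 1, 0), (1, 0, 0)⟩,
   ⟨(3, 1), (0, 1, 0), (0, 0, 1), (1, 0, 0)⟩,
   ⟨(2, 0), (0, 0, 1), (0, 1, 0), (0, 0, -1)⟩],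
  [⟨(0, 2), (0, 0, 1), (1, 0, 0), (0, 1, 0)⟩,
   ⟨(1, 2), (1, 0, 1), (0, 0, -1), (0, 1, 0)⟩,
   ⟨(1, 1), (0, 0, 1), (0, 0, -1), (1, 0, 0)⟩,
   ⟨(2, 1), (0, 0, 0), (0, 1, 0), (1, 0, 0)⟩,
   ⟨(3, 1), (0, 1, 0), (0, 0, 1), (1, 0, 0)⟩,
   ⟨(3, 0), (0, 0, 0), (0, 0, 1), (0, 1, 0)⟩],
  [⟨(0, 3), (0, 0, 1), (1, 0, 0), (0, 1, 0)⟩,
   ⟨(1, 3), (1, 0, 1), (0, 0, -1), (0, 1, 0)⟩,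
   ⟨(1, 2), (0, 0, 1), (0, 0, -1), (1, 0, 0)⟩,
   ⟨(1, 1), (0, 1, 1), (0, 0, -1), (0, -1, 0)⟩,
   ⟨(1, 0), (1, 1, 1), (0, 0, -1), (-1, 0, 0)⟩,
   ⟨(2, 0), (1, 1, 0), (0, -1, 0), (-1, 0, 0)⟩],
  [⟨(0, 3), (0, 0, 1), (1, 0, 0), (0, 1, 0)⟩,
   ⟨(1, 3), (1, 0, 1), (0, 0, -1), (0, 1, 0)⟩,
   ⟨(1, 2), (0, 0, 1), (0, 0, -1), (1, 0, 0)⟩,
   ⟨(1, 1), (0, 1, 1), (0, 0, -1), (0, -1, 0)⟩,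
   ⟨(2, 1), (0, 1, 0), (1, 0, 0), (0, -1, 0)⟩,
   ⟨(1, 0), (1, 1, 1), (0, 0, -1), (-1, 0, 0)⟩],
  [⟨(0, 3), (0, 0, 1), (1, 0, 0), (0, 1, 0)⟩,
   ⟨(1, 3), (1, 0, 1), (0, 0, -1), (0, 1, 0)⟩,
   ⟨(1, 2), (0, 0, 1), (0, 0, -1), (1, 0, 0)⟩,
   ⟨(2, 2), (0, 0, 0), (0, 1, 0), (1, 0, 0)⟩,
   ⟨(1, 1), (0, 1, 1), (0, 0, -1), (0, -1, 0)⟩,
   ⟨(1, 0), (1, 1, 1), (0, 0, -1), (-1, 0, 0)⟩],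
  [⟨(0, 3), (0, 0, 1), (1, 0, 0), (0, 1, 0)⟩,
   ⟨(1, 3), (1, 0, 1), (0, 0, -1), (0, 1, 0)⟩,
   ⟨(2, 3), (1, 0, 0), (-1, 0, 0), (0, 1, 0)⟩,
   ⟨(1, 2), (0, 0, 1), (0, 0, -1), (1, 0, 0)⟩,
   ⟨(1, 1), (0, 1, 1), (0, 0, -1), (0, -1, 0)⟩,
   ⟨(1, 0), (1, 1, 1), (0, 0, -1), (-1, 0, 0)⟩],
  [⟨(0, 3), (0, 0, 1), (1, 0, 0), (0, 1, 0)⟩,
   ⟨(1, 3), (1, 0, 1), (0, 0, -1), (0, 1, 0)⟩,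
   ⟨(1, 2), (0, 0, 1), (0, 0, -1), (1, 0, 0)⟩,
   ⟨(1, 1), (0, 1, 1), (0, 0, -1), (0, -1, 0)⟩,
   ⟨(2, 1), (0, 1, 0), (1, 0, 0), (0, -1, 0)⟩,
   ⟨(2, 0), (0, 1, 1), (1, 0, 0), (0, 0, -1)⟩]]

/-- Index and translation of the rotated shapes (quarter turn). -/
def rot1 : List (ℕ × ℤ × ℤ) := [
  (10, -2, 0), (40, -4, 0), (37, -3, 0), (34, -3, 0), (21, -3, 0), (24, -2, 0), (56, -3, 0),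
  (49, -2, 0), (45, -2, 0), (59, -2, 0), (43, -3, 0), (42, -3, 0), (36, -3, 0), (23, -3, 0),
  (33, -2, 0), (58, -3, 0), (55, -2, 0), (48, -2, 0), (63, -2, 0), (44, -1, 0), (11, -2, 0),
  (15, -2, 0), (12, -2, 0), (13, -2, 0), (41, -3, 0), (38, -3, 0), (35, -3, 0), (22, -3, 0),
  (25, -2, 0), (57, -3, 0), (50, -2, 0), (46, -2, 0), (60, -2, 0), (39, -3, 0), (29, -2, 0),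
  (26, -2, 0), (27, -2, 0), (54, -2, 0), (51, -2, 0), (47, -2, 0), (1, -1, 0), (61, -2, 0),
  (52, -2, 0), (62, -2, 0), (19, -4, 0), (18, -3, 0), (16, -3, 0), (14, -3, 0), (17, -3, 0),
  (32, -3, 0), (30, -3, 0), (28, -3, 0), (20, -3, 0), (2, -2, 0), (53, -3, 0), (31, -3, 0),
  (6, -2, 0), (3, -2, 0), (4, -2, 0), (9, -3, 0), (7, -3, 0), (5, -3, 0), (0, -3, 0), (8, -3, 0)]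

/-- Index and translation of the rotated shapes (half turn). -/
def rot2 : List (ℕ × ℤ × ℤ) := [
  (43, -3, -2), (1, -1, -4), (54, -2, -3), (29, -2, -3), (15, -2, -3), (41, -3, -2), (6, -2, -3),
  (32, -3, -2), (18, -3, -2), (9, -3, -2), (62, -2, -3), (52, -2, -3), (27, -2, -3),
  (13, -2, -3), (39, -3, -2), (4, -2, -3), (31, -3, -2), (17, -3, -2), (8, -3, -2), (19, -4, -1),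
  (42, -3, -2), (58, -3, -2), (36, -3, -2), (23, -3, -2), (61, -2, -3), (51, -2, -3),
  (26, -2, -3), (12, -2, -3), (38, -3, -2), (3, -2, -3), (30, -3, -2), (16, -3, -2), (7, -3, -2),
  (47, -2, -3), (57, -3, -2), (35, -3, -2), (22, -3, -2), (53, -3, -2), (28, -3, -2),
  (14, -3, -2), (40, -4, -1), (5, -3, -2), (20, -3, -2), (0, -3, -2), (44, -1, -4), (63, -2, -3),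
  (55, -2, -3), (33, -2, -3), (48, -2, -3), (60, -2, -3), (50, -2, -3), (25, -2, -3),
  (11, -2, -3), (37, -3, -2), (2, -2, -3), (46, -2, -3), (56, -3, -2), (34, -3, -2),
  (21, -3, -2), (59, -2, -3), (49, -2, -3), (24, -2, -3), (10, -2, -3), (45, -2, -3)]

end Pool.Agent.RepCube
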