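import Pool.Agent.RepCube.Glue

/-!
# Several layers at once
-/

namespace Pool.Agent.RepCube

/-- The sum of `f 0, ..., f (k - 1)`. -/
def sumk (f : ℕ → ℕ) : ℕ → ℕ
  | 0 => 0
  | k + 1 => sumk f k + f k

/-- The periodic tiles of the layer `i` near the first tip. -/
def eAw (ν i x y : ℤ) : ℕ :=
  (if (ν + i) % 2 = 0 ∧ x < -e1 ν ∧ (y = x + i ∨ y = x + i + 1) then 1 else 0) +
  (if y < -e2 (ν - i) ∧ LaPat (ν + y - i) (x - i) then 1 else 0)

/-- The periodic tiles of the layer `i` near the second tip. -/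
def eBw (ν i x y : ℤ) : ℕ :=
  (if (ν + i) % 2 = 1 ∧ y < -e1 ν ∧ (x = y + i ∨ x = y + i + 1) then 1 else 0) +
  (if x < 1 - e3 (ν - i) ∧ LbPat (ν + x - i) (y - i) then 1 else 0)

theorem farAw {ν i k x y : ℤ} (hi : 0 ≤ i) (hk : i < k) (hk8 : k ≤ 8)
    (h : ¬(-15 ≤ x ∧ x < 5 + 2 * k ∧ -15 ≤ y ∧ y < 5 + 2 * k)) :
    eAw ν i x y + (tA (ν + i) (x - i) (y - 2 * i)).toNat =
      (tA (ν + i + 1) (x - i - 1) (y - 2 * i - 2)).toNat := by
  rw [tA_toNat, tA_toNat]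
  have g0 := gg_spec (ν + i + (y - 2 * i))
  have g1 := gg_spec (ν + i + 1 + (y - 2 * i - 2))
  unfold eAw e1 e2
  by_cases hx : x < -15
  · rw [if_neg (show ¬(y < -(7 + (ν - i + 5) % 6) ∧ LaPat (ν + y - i) (x - i)) from by
      unfold LaPat; omega)]
    rw [Nat.add_zero]
    generalize gg (ν + i + (y - 2 * i)) = a at *
    generalize gg (ν + i + 1 + (y - 2 * i - 2)) = b at *
    have ha : 0 ≤ a ∧ a ≤ 2 := by omega
    have hb : 0 ≤ b ∧ b ≤ 2 := by omega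
    clear g0 g1
    split_ifs <;> omega
  · rw [if_neg (show ¬((ν + i) % 2 = 0 ∧ x < -(9 + ν % 3) ∧ (y = x + i ∨ y = x + i + 1)) from by
      omega)]
    rw [Nat.zero_add]
    by_cases hy : y < -15
    · have c1 : (x - i < 0 ∧ (y - 2 * i < x - i ∨ (y - 2 * i = x - i ∧ (ν + i) % 2 = 1)) ∧
          gg (ν + i + (y - 2 * i)) ≤ -1 - (x - i)) ↔
          gg (ν + i + (y - 2 * i)) ≤ -1 - (x - i) := by
        constructor
        · exact fun h => h.2.2
        · exact fun h => ⟨by omega, by omega, h⟩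
      have c2 : (x - i - 1 < 0 ∧ (y - 2 * i - 2 < x - i - 1 ∨
          (y - 2 * i - 2 = x - i - 1 ∧ (ν + i + 1) % 2 = 1)) ∧
          gg (ν + i + 1 + (y - 2 * i - 2)) ≤ -1 - (x - i - 1)) ↔
          gg (ν + i + 1 + (y - 2 * i - 2)) ≤ -1 - (x - i - 1) := by
        constructor
        · exact fun h => h.2.2
        · exact fun h => ⟨by omega, by omega, h⟩
      have c3 : (y < -(7 + (ν - i + 5) % 6) ∧ LaPat (ν + y - i) (x - i)) ↔
          (((ν + y - i) % 6 = 0 ∧ x - i = 0) ∨ ((ν + y - i) % 6 = 1 ∧ (x - i = -1 ∨ x - i = 0)) ∨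
          ((ν + y - i) % 6 = 2 ∧ (x - i = -2 ∨ x - i = -1)) ∨
          ((ν + y - i) % 6 = 3 ∧ x - i = -2)) := by
        constructor
        · exact fun h => h.2
        · exact fun h => ⟨by omega, h⟩
      rw [if_congr c1 rfl rfl, if_congr c2 rfl rfl, if_congr c3 rfl rfl]
      have e : ν + i + (y - 2 * i) = ν + y - i := by ring
      have e' : ν + i + 1 + (y - 2 * i - 2) = ν + y - i - 1 := by ring
      rw [e] at g0 ⊢
      rw [e'] at g1 ⊢
      clear c1 c2 c3 h e e'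
      generalize ν + y - i = z at *
      generalize x - i = w at *
      rcases g0 with ⟨g0, g0'⟩ | ⟨g0, g0'⟩ | ⟨g0, g0'⟩ <;>
      rcases g1 with ⟨g1, g1'⟩ | ⟨g1, g1'⟩ | ⟨g1, g1'⟩ <;> rw [g0', g1'] <;>
      split_ifs <;> omega
    · rw [if_neg (show ¬(x - i < 0 ∧ (y - 2 * i < x - i ∨
        (y - 2 * i = x - i ∧ (ν + i) % 2 = 1)) ∧ gg (ν + i + (y - 2 * i)) ≤ -1 - (x - i))
        from by omega)]
      rw [if_neg (show ¬(x - i - 1 < 0 ∧ (y - 2 * i - 2 < x - i - 1 ∨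
        (y - 2 * i - 2 = x - i - 1 ∧ (ν + i + 1) % 2 = 1)) ∧
        gg (ν + i + 1 + (y - 2 * i - 2)) ≤ -1 - (x - i - 1)) from by omega)]
      rw [if_neg (show ¬(y < -(7 + (ν - i + 5) % 6) ∧ LaPat (ν + y - i) (x - i)) from by
        unfold LaPat; omega)]

theorem farBw {ν i k x y : ℤ} (hi : 0 ≤ i) (hk : i < k) (hk8 : k ≤ 8)
    (h : ¬(-15 ≤ x ∧ x < 5 + 2 * k ∧ -15 ≤ y ∧ y < 5 + 2 * k)) :
    eBw ν i x y + (tB (ν + i) (x - 2 * i) (y - i)).toNat =
      (tB (ν + i + 1) (x - 2 * i - 2) (y - i - 1)).toNat := by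
  rw [tB_toNat, tB_toNat]
  have g0 := gg_spec (ν + i + (x - 2 * i))
  have g1 := gg_spec (ν + i + 1 + (x - 2 * i - 2))
  unfold eBw e1 e3
  by_cases hy : 0 ≤ y - i
  · rw [if_neg (show ¬((ν + i) % 2 = 1 ∧ y < -(9 + ν % 3) ∧ (x = y + i ∨ x = y + i + 1)) from by
      omega)]
    rw [Nat.zero_add]
    by_cases hx : x < -15
    · have c1 : ((y - i < 0 ∧ (x - 2 * i < y - i ∨ (x - 2 * i = y - i ∧ (ν + i) % 2 = 0))) ∨
          (0 ≤ y - i ∧ y - i < gg (ν + i + (x - 2 * i)) ∧ (x - 2 * i < -1 - (y - i) ∨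
          (x - 2 * i = -1 - (y - i) ∧ (ν + i) % 2 = 1)))) ↔
          y - i < gg (ν + i + (x - 2 * i)) := by
        constructor
        · rintro (h | h)
          · omega
          · exact h.2.1
        · exact fun h => Or.inr ⟨hy, h, by omega⟩
      have c2 : ((y - i - 1 < 0 ∧ (x - 2 * i - 2 < y - i - 1 ∨
          (x - 2 * i - 2 = y - i - 1 ∧ (ν + i + 1) % 2 = 0))) ∨
          (0 ≤ y - i - 1 ∧ y - i - 1 < gg (ν + i + 1 + (x - 2 * i - 2)) ∧
          (x - 2 * i - 2 < -1 - (y - i - 1) ∨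
          (x - 2 * i - 2 = -1 - (y - i - 1) ∧ (ν + i + 1) % 2 = 1)))) ↔
          y - i = 0 ∨ y - i - 1 < gg (ν + i + 1 + (x - 2 * i - 2)) := by
        constructor
        · rintro (h | h)
          · omega
          · exact Or.inr h.2.1
        · rintro (h | h)
          · exact Or.inl ⟨by omega, by omega⟩
          · by_cases h0 : y - i = 0
            · exact Or.inl ⟨by omega, by omega⟩
            · exact Or.inr ⟨by omega, h, by omega⟩
      have c3 : (x < 1 - (10 + (ν - i + 2) % 6) ∧ LbPat (ν + x - i) (y - i)) ↔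
          (((ν + x - i) % 6 = 3 ∧ y - i = 2) ∨ ((ν + x - i) % 6 = 4 ∧ (y - i = 1 ∨ y - i = 2)) ∨
          ((ν + x - i) % 6 = 5 ∧ (y - i = 0 ∨ y - i = 1)) ∨
          ((ν + x - i) % 6 = 0 ∧ y - i = 0)) := by
        constructor
        · exact fun h => h.2
        · exact fun h => ⟨by omega, h⟩
      rw [if_congr c1 rfl rfl, if_congr c2 rfl rfl, if_congr c3 rfl rfl]
      have e : ν + i + (x - 2 * i) = ν + x - i := by ring
      have e' : ν + i + 1 + (x - 2 * i - 2) = ν + x - i - 1 := by ring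
      rw [e] at g0 ⊢
      rw [e'] at g1 ⊢
      clear c1 c2 c3 h e e'
      generalize ν + x - i = z at *
      generalize y - i = w at *
      rcases g0 with ⟨g0, g0'⟩ | ⟨g0, g0'⟩ | ⟨g0, g0'⟩ <;>
      rcases g1 with ⟨g1, g1'⟩ | ⟨g1, g1'⟩ | ⟨g1, g1'⟩ <;> rw [g0', g1'] <;>
      split_ifs <;> omega
    · have hbig : 5 + 2 * k ≤ x ∨ 5 + 2 * k ≤ y := by omega
      have hg0 : gg (ν + i + (x - 2 * i)) ≤ 2 := by omega
      have hg1 : gg (ν + i + 1 + (x - 2 * i - 2)) ≤ 2 := by omega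
      clear g0 g1
      rw [if_neg (show ¬((y - i < 0 ∧ (x - 2 * i < y - i ∨
          (x - 2 * i = y - i ∧ (ν + i) % 2 = 0))) ∨
          (0 ≤ y - i ∧ y - i < gg (ν + i + (x - 2 * i)) ∧ (x - 2 * i < -1 - (y - i) ∨
          (x - 2 * i = -1 - (y - i) ∧ (ν + i) % 2 = 1)))) from by omega)]
      rw [if_neg (show ¬((y - i - 1 < 0 ∧ (x - 2 * i - 2 < y - i - 1 ∨
          (x - 2 * i - 2 = y - i - 1 ∧ (ν + i + 1) % 2 = 0))) ∨
          (0 ≤ y - i - 1 ∧ y - i - 1 < gg (ν + i + 1 + (x - 2 * i - 2)) ∧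
          (x - 2 * i - 2 < -1 - (y - i - 1) ∨
          (x - 2 * i - 2 = -1 - (y - i - 1) ∧ (ν + i + 1) % 2 = 1)))) from by omega)]
      rw [if_neg (show ¬(x < 1 - (10 + (ν - i + 2) % 6) ∧ LbPat (ν + x - i) (y - i)) from by
        unfold LbPat; omega)]
  · rw [if_neg (show ¬(x < 1 - (10 + (ν - i + 2) % 6) ∧ LbPat (ν + x - i) (y - i)) from by
        unfold LbPat; omega)]
    rw [Nat.add_zero]
    clear g0 g1
    have c1 : ((y - i < 0 ∧ (x - 2 * i < y - i ∨ (x - 2 * i = y - i ∧ (ν + i) % 2 = 0))) ∨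
          (0 ≤ y - i ∧ y - i < gg (ν + i + (x - 2 * i)) ∧ (x - 2 * i < -1 - (y - i) ∨
          (x - 2 * i = -1 - (y - i) ∧ (ν + i) % 2 = 1)))) ↔
          (x - 2 * i < y - i ∨ (x - 2 * i = y - i ∧ (ν + i) % 2 = 0)) := by
      constructor
      · rintro (h | h)
        · exact h.2
        · omega
      · exact fun h => Or.inl ⟨by omega, h⟩
    have c2 : ((y - i - 1 < 0 ∧ (x - 2 * i - 2 < y - i - 1 ∨
          (x - 2 * i - 2 = y - i - 1 ∧ (ν + i + 1) % 2 = 0))) ∨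
          (0 ≤ y - i - 1 ∧ y - i - 1 < gg (ν + i + 1 + (x - 2 * i - 2)) ∧
          (x - 2 * i - 2 < -1 - (y - i - 1) ∨
          (x - 2 * i - 2 = -1 - (y - i - 1) ∧ (ν + i + 1) % 2 = 1)))) ↔
          (x - 2 * i - 2 < y - i - 1 ∨ (x - 2 * i - 2 = y - i - 1 ∧ (ν + i + 1) % 2 = 0)) := by
      constructor
      · rintro (h | h)
        · exact h.2
        · omega
      · exact fun h => Or.inl ⟨by omega, h⟩
    rw [if_congr c1 rfl rfl, if_congr c2 rfl rfl]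
    clear c1 c2
    split_ifs <;> omega

end Pool.Agent.RepCube
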