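import Pool.Agent.RepCube.WideStep

/-!
# Several layers at once: the finite check
-/

namespace Pool.Agent.RepCube

/-- Check near a tip: the tiles `L` and the indicator `e` fill the difference between `f` and
`g` in the box `[-15, W - 15)²`. -/
def nearW (W : ℕ) (f g : ℤ → ℤ → Bool) (e : ℤ → ℤ → ℕ) (L : List (ℕ × ℤ × ℤ)) : Bool :=
  match putCells W (lcells (shiftL 15 15 L)) 0 with
  | none => false
  | some M => (List.range W).all fun i => (List.range W).all fun j =>
      decide ((M.testBit (W * i + j)).toNat + e ((i : ℤ) - 15) ((j : ℤ) - 15) +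
        (f ((i : ℤ) - 15) ((j : ℤ) - 15)).toNat = (g ((i : ℤ) - 15) ((j : ℤ) - 15)).toNat)

theorem nearW_spec {W : ℕ} {f g : ℤ → ℤ → Bool} {e : ℤ → ℤ → ℕ} {L : List (ℕ × ℤ × ℤ)}
    (hL : ∀ t ∈ L, t.1 < 64) (h : nearW W f g e L = true) :
    (∀ x y : ℤ, -15 ≤ x → x < (W : ℤ) - 15 → -15 ≤ y → y < (W : ℤ) - 15 →
      cnt L x y + e x y + (f x y).toNat = (g x y).toNat) ∧
    ∀ x y : ℤ, ¬(-15 ≤ x ∧ x < (W : ℤ) - 15 ∧ -15 ≤ y ∧ y < (W : ℤ) - 15) → cnt L x y = 0 := by
  unfold nearW at h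
  cases hM : putCells W (lcells (shiftL 15 15 L)) 0 with
  | none => rw [hM] at h; simp at h
  | some M =>
    rw [hM] at h
    simp only at h
    obtain ⟨p1, p2⟩ := putCells_spec W _ _ _ hM
    rw [List.all_eq_true] at h
    constructor
    · intro x y x0 x1 y0 y1
      have hi : (x + 15).toNat < W := by omega
      have hj : (y + 15).toNat < W := by omega
      have h1 := h _ (List.mem_range.2 hi)
      rw [List.all_eq_true] at h1
      have h2 := decide_eq_true_iff.1 (h1 _ (List.mem_range.2 hj))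
      rw [p2 _ _ hi hj] at h2
      have ex : (((x + 15).toNat : ℕ) : ℤ) = x + 15 := Int.toNat_of_nonneg (by omega)
      have ey : (((y + 15).toNat : ℕ) : ℤ) = y + 15 := Int.toNat_of_nonneg (by omega)
      rw [ex, ey, ← cnt_eq (shift_lt hL), cnt_shift] at h2
      have ex' : x + 15 - 15 = x := by ring
      have ey' : y + 15 - 15 = y := by ring
      rw [ex', ey'] at h2
      simpa using h2
    · intro x y hxy
      have e1 : cnt L x y = cnt (shiftL 15 15 L) (x + 15) (y + 15) := by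
        rw [cnt_shift]
        congr 1 <;> ring
      rw [e1, cnt_eq (shift_lt hL), List.count_eq_zero]
      intro hm
      have := p1 _ hm
      simp only at this
      omega

/-- The finite check for a wide step, in one quadrant. -/
def wideChk (ν k : ℕ) (ma mb ma' mb' : ℕ) (LA LB : List (ℕ × ℤ × ℤ)) : Bool :=
  LA.all (fun t => decide (t.1 < 64)) && (LB.all (fun t => decide (t.1 < 64)) &&
  ((lcells LA).all (fun c => decide (c.1 - c.2 < 15 + k)) &&
  ((lcells LB).all (fun c => decide (c.2 - c.1 < 15 + k)) &&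
  (nearW (20 + 2 * k) (FA ν ma) (fun x y => FA ((ν : ℤ) + k) ma' (x - k) (y - 2 * k))
    (fun x y => sumk (fun i => eAw ν i x y) k) LA &&
  nearW (20 + 2 * k) (FB ν mb) (fun x y => FB ((ν : ℤ) + k) mb' (x - 2 * k) (y - k))
    (fun x y => sumk (fun i => eBw ν i x y) k) LB))))

theorem wideChk_spec {ν k : ℕ} {ma mb ma' mb' : ℕ} {LA LB : List (ℕ × ℤ × ℤ)}
    (h : wideChk ν k ma mb ma' mb' LA LB = true) : WideOK (ν : ℤ) k ma mb ma' mb' LA LB := by
  unfold wideChk at h
  simp only [Bool.and_eq_true] at h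
  obtain ⟨a1, a2, a3, a4, a5, a6⟩ := h
  have s1 : ∀ t ∈ LA, t.1 < 64 := fun t ht => of_decide_eq_true (List.all_eq_true.1 a1 t ht)
  have s2 : ∀ t ∈ LB, t.1 < 64 := fun t ht => of_decide_eq_true (List.all_eq_true.1 a2 t ht)
  obtain ⟨n1, n2⟩ := nearW_spec s1 a5
  obtain ⟨n3, n4⟩ := nearW_spec s2 a6
  have eW : (((20 + 2 * k : ℕ) : ℤ) - 15) = 5 + 2 * k := by push_cast; ring
  rw [eW] at n1 n2 n3 n4
  exact ⟨s1, s2, fun c hc => of_decide_eq_true (List.all_eq_true.1 a3 c hc),
    fun c hc => of_decide_eq_true (List.all_eq_true.1 a4 c hc), n1, n3, n2, n4⟩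

/-- Check of a wide step between windows. -/
def wideW (ν k : ℕ) (w w' : Win) (t : Tls) : Bool :=
  [(0 : Fin 3), 1, 2].all fun r =>
    wideChk ν k (wa w r) (wb w r) (wa w' r) (wb w' r) (ta t r) (tb t r)

theorem wideW_ext {ν k : ℕ} {w w' : Win} {t : Tls} (h : wideW ν k w w' t = true) (hk : k ≤ 8)
    {n : ℤ} (hn : 15 + k ≤ n) (hν : n % 6 = ν) :
    Ext (shape (famW w n)) (shape (famW w' (n + k))) := by
  unfold wideW at h
  rw [List.all_eq_true] at h
  refine wide_step hk hn (ta t) (tb t) fun r => ?_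
  rw [hν]
  exact wideChk_spec (h r (by fin_cases r <;> decide))

/-- Symmetric windows. -/
def symW (a b : ℕ) : Win := [(a, b), (a, b), (a, b)]

/-- Symmetric tiles. -/
def symT (LA LB : List (ℕ × ℤ × ℤ)) : Tls := [(LA, LB), (LA, LB), (LA, LB)]

theorem sym_ext {ν k : ℕ} {a b a' b' : ℕ} {LA LB : List (ℕ × ℤ × ℤ)}
    (h : wideChk ν k a b a' b' LA LB = true) (hk : k ≤ 8) {n : ℤ} (hn : 15 + k ≤ n)
    (hν : n % 6 = ν) :
    Ext (shape (famW (symW a b) n)) (shape (famW (symW a' b') (n + k))) := by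
  refine wide_step hk hn (fun _ => LA) (fun _ => LB) fun r => ?_
  rw [hν]
  have := wideChk_spec h
  fin_cases r <;> exact this

end Pool.Agent.RepCube
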