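import Pool.Agent.RepCube.WideChk

/-!
# Several layers at once: from nets to a periodic chain and to nets
-/

namespace Pool.Agent.RepCube

/-- Check of a wide step from a symmetric net to a member of a periodic chain. -/
def wideNT (T : List Win) (ν k a b a' b' : ℕ) (LA LB : List (ℕ × ℤ × ℤ)) : Bool :=
  netW (ν : ℤ) (symW a b) && (decide (symW a' b' = T.getD ((ν + k) % 6) []) &&
    wideChk ν k a b a' b' LA LB)

theorem wideNT_rep (F : Fam) {ν k a b a' b' : ℕ} {LA LB : List (ℕ × ℤ × ℤ)}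
    (h : wideNT F.T ν k a b a' b' LA LB = true) (hk0 : 1 ≤ k) (hk : k ≤ 8) {m c : ℕ} (hm : 15 + k ≤ m)
    (hν : m % 6 = ν) (hc : m + k < c) : Rep m c := by
  unfold wideNT at h
  simp only [Bool.and_eq_true, decide_eq_true_eq] at h
  obtain ⟨h1, h2, h3⟩ := h
  have e1 : (m : ℤ) % 6 = (ν : ℤ) := by omega
  have e2 : ((m : ℤ) + (k : ℤ)) % 6 = (((ν + k) % 6 : ℕ) : ℤ) := by
    push_cast; omega
  have G1 : Good m (famW (symW a b) m) := famW_good (by omega) e1 h1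
  have h4 := sym_ext h3 hk (n := m) (by omega) e1
  rw [h2, ← per_eq e2] at h4
  exact F.rep G1 (by omega) (by omega) h4

/-- Check of a wide step between nets. -/
def wideNN (ν k : ℕ) (w w' : Win) (t : Tls) : Bool :=
  netW (ν : ℤ) w && (netW (((ν + k) % 6 : ℕ) : ℤ) w' && wideW ν k w w' t)

theorem wideNN_rep {ν k : ℕ} {w w' : Win} {t : Tls} (h : wideNN ν k w w' t = true) (hk0 : 1 ≤ k) (hk : k ≤ 8)
    {m : ℕ} (hm : 15 + k ≤ m) (hν : m % 6 = ν) : Rep m (m + k) := by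
  unfold wideNN at h
  simp only [Bool.and_eq_true] at h
  obtain ⟨h1, h2, h3⟩ := h
  have e1 : (m : ℤ) % 6 = (ν : ℤ) := by omega
  have e2 : ((m + k : ℕ) : ℤ) % 6 = (((ν + k) % 6 : ℕ) : ℤ) := by push_cast; omega
  have G1 : Good m (famW w m) := famW_good (by omega) e1 h1
  have G2 : Good ((m + k : ℕ) : ℤ) (famW w' ((m + k : ℕ) : ℤ)) :=
    famW_good (by push_cast; omega) e2 h2
  have h5 := wideW_ext h3 hk (n := m) (by omega) e1
  have e3 : (m : ℤ) + (k : ℤ) = ((m + k : ℕ) : ℤ) := by push_cast; ring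
  rw [e3] at h5
  exact assemble G1 G2 h5

/-- Check of a wide step between symmetric nets. -/
def wideSS (ν k a b a' b' : ℕ) (LA LB : List (ℕ × ℤ × ℤ)) : Bool :=
  netW (ν : ℤ) (symW a b) && (netW (((ν + k) % 6 : ℕ) : ℤ) (symW a' b') &&
    wideChk ν k a b a' b' LA LB)

theorem wideSS_rep {ν k a b a' b' : ℕ} {LA LB : List (ℕ × ℤ × ℤ)}
    (h : wideSS ν k a b a' b' LA LB = true) (hk0 : 1 ≤ k) (hk : k ≤ 8) {m : ℕ} (hm : 15 + k ≤ m)
    (hν : m % 6 = ν) : Rep m (m + k) := by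
  unfold wideSS at h
  simp only [Bool.and_eq_true] at h
  obtain ⟨h1, h2, h3⟩ := h
  have e1 : (m : ℤ) % 6 = (ν : ℤ) := by omega
  have e2 : ((m + k : ℕ) : ℤ) % 6 = (((ν + k) % 6 : ℕ) : ℤ) := by push_cast; omega
  have G1 : Good m (famW (symW a b) m) := famW_good (by omega) e1 h1
  have G2 : Good ((m + k : ℕ) : ℤ) (famW (symW a' b') ((m + k : ℕ) : ℤ)) :=
    famW_good (by push_cast; omega) e2 h2
  have h5 := sym_ext h3 hk (n := m) (by omega) e1
  have e3 : (m : ℤ) + (k : ℤ) = ((m + k : ℕ) : ℤ) := by push_cast; ring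
  rw [e3] at h5
  exact assemble G1 G2 h5

end Pool.Agent.RepCube
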