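import Pool.Agent.RepCube.Wide

/-!
# Several layers at once: the step
-/

namespace Pool.Agent.RepCube

variable {n i X Y : ℤ}

/-- The base shape. -/
def bas (n : ℤ) (X Y : ℤ) : Bool :=
  if X < 0 ∨ Y < 0 then false
  else if X < n ∧ Y < n then true
  else if X < Y then tA (n % 6) (X - n) (Y - 2 * n)
  else if Y < X then tB (n % 6) (X - 2 * n) (Y - n)
  else false

theorem bas_sqr (h1 : 0 ≤ X) (h2 : 0 ≤ Y) (h3 : X < n) (h4 : Y < n) : bas n X Y = true := by
  unfold bas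
  rw [if_neg (by omega), if_pos ⟨h3, h4⟩]

theorem bas_a (h1 : 0 ≤ X) (h2 : n ≤ Y) (h3 : X < Y) :
    bas n X Y = tA (n % 6) (X - n) (Y - 2 * n) := by
  unfold bas
  rw [if_neg (by omega), if_neg (by omega), if_pos h3]

theorem bas_b (h1 : 0 ≤ Y) (h2 : n ≤ X) (h3 : Y < X) :
    bas n X Y = tB (n % 6) (X - 2 * n) (Y - n) := by
  unfold bas
  rw [if_neg (by omega), if_neg (by omega), if_neg (by omega), if_pos h3]

theorem bas_diag (h1 : n ≤ X) (h2 : X = Y) : bas n X Y = false := by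
  unfold bas
  split_ifs <;> first | rfl | omega

/-- The tiles of the layer `i`. -/
def layL (n i : ℤ) : List (ℕ × ℤ × ℤ) :=
  DL (n + i) ((n - e1 n) / 3).toNat ++ (LaL (n + i) ((n - i - e2 (n - i)) / 6).toNat ++
    LbL (n + i) ((n - i - e3 (n - i)) / 6).toNat)

theorem cnt_lay (hi : 0 ≤ i) (hn : 11 + i ≤ n) (X Y : ℤ) : cnt (layL n i) X Y =
    (if ((n + i) % 2 = 0 ∧ 0 ≤ X ∧ X < n - e1 n ∧ (Y - (n + i) = X ∨ Y - (n + i) = X + 1)) ∨
      ((n + i) % 2 = 1 ∧ 0 ≤ Y ∧ Y < n - e1 n ∧ (X - (n + i) = Y ∨ X - (n + i) = Y + 1))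
      then 1 else 0) +
    ((if 0 ≤ Y - (n + i) ∧ Y - (n + i) < n - i - e2 (n - i) ∧
      LaPat (Y - (n + i)) (X - (n + i)) then 1 else 0) +
    (if 3 ≤ X - (n + i) ∧ X - (n + i) < n - i - e3 (n - i) + 1 ∧
      LbPat (X - (n + i)) (Y - (n + i)) then 1 else 0)) := by
  unfold layL
  rw [cnt_append, cnt_append, cnt_DL, cnt_LaL, cnt_LbL]
  have h1 : 3 * ((((n - e1 n) / 3).toNat : ℕ) : ℤ) = n - e1 n := by
    unfold e1; omega
  have h2 : 6 * ((((n - i - e2 (n - i)) / 6).toNat : ℕ) : ℤ) = n - i - e2 (n - i) := by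
    unfold e2; omega
  have h3 : 6 * ((((n - i - e3 (n - i)) / 6).toNat : ℕ) : ℤ) = n - i - e3 (n - i) := by
    unfold e3; omega
  rw [h1, h2, h3]

theorem lay_eA (hi : 0 ≤ i) (hn : 11 + i ≤ n) (hX : 0 ≤ X) (h1 : n + i < Y) (h2 : X < Y) :
    cnt (layL n i) X Y = eAw (n % 6) i (X - n) (Y - 2 * n) := by
  rw [cnt_lay hi hn]
  unfold eAw
  rw [if_neg (show ¬(3 ≤ X - (n + i) ∧ X - (n + i) < n - i - e3 (n - i) + 1 ∧
    LbPat (X - (n + i)) (Y - (n + i))) from by unfold LbPat; omega)]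
  rw [Nat.add_zero]
  have q1 : e1 (n % 6) = e1 n := by unfold e1; omega
  have q2 : e2 (n % 6 - i) = e2 (n - i) := by unfold e2; omega
  rw [q1, q2]
  congr 1
  · refine if_congr ?_ rfl rfl
    constructor
    · rintro (⟨k1, k2, k3, k4⟩ | ⟨k1, k2, k3, k4⟩)
      · exact ⟨by omega, by omega, by omega⟩
      · omega
    · rintro ⟨k1, k2, k3⟩
      exact Or.inl ⟨by omega, by omega, by omega, by omega⟩
  · refine if_congr ?_ rfl rfl
    unfold LaPat
    have e : (Y - (n + i)) % 6 = (n % 6 + (Y - 2 * n) - i) % 6 := by omega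
    rw [e]
    have e' : X - (n + i) = X - n - i := by ring
    rw [e']
    constructor
    · rintro ⟨k1, k2, k3⟩
      exact ⟨by omega, k3⟩
    · rintro ⟨k1, k3⟩
      exact ⟨by omega, by omega, k3⟩

theorem lay_eB (hi : 0 ≤ i) (hn : 11 + i ≤ n) (hY : 0 ≤ Y) (h1 : n + i < X) (h2 : Y < X) :
    cnt (layL n i) X Y = eBw (n % 6) i (X - 2 * n) (Y - n) := by
  rw [cnt_lay hi hn]
  unfold eBw
  rw [if_neg (show ¬(0 ≤ Y - (n + i) ∧ Y - (n + i) < n - i - e2 (n - i) ∧
      LaPat (Y - (n + i)) (X - (n + i))) from by unfold LaPat; omega)]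
  rw [Nat.zero_add]
  have q1 : e1 (n % 6) = e1 n := by unfold e1; omega
  have q2 : e3 (n % 6 - i) = e3 (n - i) := by unfold e3; omega
  rw [q1, q2]
  congr 1
  · refine if_congr ?_ rfl rfl
    constructor
    · rintro (⟨k1, k2, k3, k4⟩ | ⟨k1, k2, k3, k4⟩)
      · omega
      · exact ⟨by omega, by omega, by omega⟩
    · rintro ⟨k1, k2, k3⟩
      exact Or.inr ⟨by omega, by omega, by omega, by omega⟩
  · refine if_congr ?_ rfl rfl
    unfold LbPat
    have e : (X - (n + i)) % 6 = (n % 6 + (X - 2 * n) - i) % 6 := by omega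
    rw [e]
    have e' : Y - (n + i) = Y - n - i := by ring
    rw [e']
    constructor
    · rintro ⟨k1, k2, k3⟩
      exact ⟨by omega, k3⟩
    · rintro ⟨k1, k3⟩
      exact ⟨by omega, by omega, k3⟩

theorem lay_sqr (hi : 0 ≤ i) (hn : 11 + i ≤ n) (hX : 0 ≤ X) (hY : 0 ≤ Y) (h1 : X < n + i)
    (h2 : Y < n + i) :
    cnt (layL n i) X Y + (bas (n + i) X Y).toNat = (bas (n + i + 1) X Y).toNat := by
  rw [cnt_lay hi hn, bas_sqr hX hY h1 h2, bas_sqr hX hY (by omega) (by omega), if_neg (by omega),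
    if_neg (by omega), if_neg (by omega)]
  rfl

theorem lay_diag (hi : 0 ≤ i) (hn : 13 + i ≤ n) (h1 : n + i ≤ X) (h2 : X = Y) :
    cnt (layL n i) X Y + (bas (n + i) X Y).toNat = (bas (n + i + 1) X Y).toNat := by
  subst h2
  rw [cnt_lay hi (by omega), bas_diag h1 rfl, if_neg (by omega)]
  rw [if_neg (show ¬(3 ≤ X - (n + i) ∧ X - (n + i) < n - i - e3 (n - i) + 1 ∧
    LbPat (X - (n + i)) (X - (n + i))) from by unfold LbPat; omega)]
  by_cases h : X = n + i
  · rw [h, bas_sqr (by omega) (by omega) (by omega) (by omega), if_pos]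
    · rfl
    · unfold LaPat e2
      omega
  · rw [bas_diag (by omega) rfl, if_neg]
    · rfl
    · unfold LaPat
      omega

theorem lay_a0 (hi : 0 ≤ i) (hn : 13 + i ≤ n) (hX : 0 ≤ X) (h1 : X < n + i) :
    cnt (layL n i) X (n + i) + (bas (n + i) X (n + i)).toNat =
      (bas (n + i + 1) X (n + i)).toNat := by
  rw [cnt_lay hi (by omega), bas_a hX le_rfl h1,
    bas_sqr hX (by omega) (by omega) (by omega), tA_toNat]
  rw [if_neg (show ¬(3 ≤ X - (n + i) ∧ X - (n + i) < n - i - e3 (n - i) + 1 ∧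
    LbPat (X - (n + i)) (n + i - (n + i))) from by omega)]
  rw [if_neg (show ¬(0 ≤ n + i - (n + i) ∧ n + i - (n + i) < n - i - e2 (n - i) ∧
    LaPat (n + i - (n + i)) (X - (n + i))) from by unfold LaPat; omega)]
  have g0 : gg ((n + i) % 6 + (n + i - 2 * (n + i))) = 0 := by
    have := gg_spec ((n + i) % 6 + (n + i - 2 * (n + i)))
    omega
  rw [g0]
  unfold e1
  by_cases hX0 : X = 0
  · subst hX0
    by_cases hp : (n + i) % 2 = 0
    · rw [if_pos (by omega), if_neg (by omega)]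
      rfl
    · rw [if_neg (by omega), if_pos (by omega)]
      rfl
  · rw [if_neg (by omega), if_pos (by omega)]
    rfl

theorem lay_b0 (hi : 0 ≤ i) (hn : 13 + i ≤ n) (hY : 0 ≤ Y) (h1 : Y < n + i) :
    cnt (layL n i) (n + i) Y + (bas (n + i) (n + i) Y).toNat =
      (bas (n + i + 1) (n + i) Y).toNat := by
  rw [cnt_lay hi (by omega), bas_b hY le_rfl h1,
    bas_sqr (by omega) hY (by omega) (by omega), tB_toNat]
  rw [if_neg (show ¬(3 ≤ n + i - (n + i) ∧ n + i - (n + i) < n - i - e3 (n - i) + 1 ∧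
    LbPat (n + i - (n + i)) (Y - (n + i))) from by omega)]
  rw [if_neg (show ¬(0 ≤ Y - (n + i) ∧ Y - (n + i) < n - i - e2 (n - i) ∧
    LaPat (Y - (n + i)) (n + i - (n + i))) from by omega)]
  have g0 : gg ((n + i) % 6 + (n + i - 2 * (n + i))) = 0 := by
    have := gg_spec ((n + i) % 6 + (n + i - 2 * (n + i)))
    omega
  rw [g0]
  unfold e1
  by_cases hY0 : Y = 0
  · subst hY0
    by_cases hp : (n + i) % 2 = 1
    · rw [if_pos (by omega), if_neg (by omega)]
      rfl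
    · rw [if_neg (by omega), if_pos (by omega)]
      rfl
  · rw [if_neg (by omega), if_pos (by omega)]
    rfl

/-- A layer above the diagonal, away from the tip. -/
theorem lay_a {k : ℤ} (hi : 0 ≤ i) (hik : i < k) (hk : k ≤ 8) (hn : 13 + i ≤ n) (hX : 0 ≤ X)
    (h2 : X < Y)
    (hz : ¬(-15 ≤ X - n ∧ X - n < 5 + 2 * k ∧ -15 ≤ Y - 2 * n ∧ Y - 2 * n < 5 + 2 * k)) :
    cnt (layL n i) X Y + (bas (n + i) X Y).toNat = (bas (n + i + 1) X Y).toNat := by
  rcases lt_trichotomy Y (n + i) with h | h | h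
  · exact lay_sqr hi (by omega) hX (by omega) (by omega) h
  · subst h
    exact lay_a0 hi hn hX h2
  · rw [lay_eA hi (by omega) hX h h2, bas_a hX (by omega) h2, bas_a hX (by omega) h2]
    have := farAw (ν := n % 6) hi hik hk hz
    have e1 : tA ((n + i) % 6) (X - (n + i)) (Y - 2 * (n + i)) =
        tA (n % 6 + i) (X - n - i) (Y - 2 * n - 2 * i) := by
      rw [tA_mod (show (n + i) % 6 % 6 = (n % 6 + i) % 6 by omega)]
      congr 1 <;> ring
    have e2 : tA ((n + i + 1) % 6) (X - (n + i + 1)) (Y - 2 * (n + i + 1)) =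
        tA (n % 6 + i + 1) (X - n - i - 1) (Y - 2 * n - 2 * i - 2) := by
      rw [tA_mod (show (n + i + 1) % 6 % 6 = (n % 6 + i + 1) % 6 by omega)]
      congr 1 <;> ring
    rw [e1, e2]
    exact this

/-- A layer below the diagonal, away from the tip. -/
theorem lay_b {k : ℤ} (hi : 0 ≤ i) (hik : i < k) (hk : k ≤ 8) (hn : 13 + i ≤ n) (hY : 0 ≤ Y)
    (h2 : Y < X)
    (hz : ¬(-15 ≤ X - 2 * n ∧ X - 2 * n < 5 + 2 * k ∧ -15 ≤ Y - n ∧ Y - n < 5 + 2 * k)) :
    cnt (layL n i) X Y + (bas (n + i) X Y).toNat = (bas (n + i + 1) X Y).toNat := by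
  rcases lt_trichotomy X (n + i) with h | h | h
  · exact lay_sqr hi (by omega) (by omega) hY h (by omega)
  · subst h
    exact lay_b0 hi hn hY h2
  · rw [lay_eB hi (by omega) hY h h2, bas_b hY (by omega) h2, bas_b hY (by omega) h2]
    have := farBw (ν := n % 6) hi hik hk hz
    have e1 : tB ((n + i) % 6) (X - 2 * (n + i)) (Y - (n + i)) =
        tB (n % 6 + i) (X - 2 * n - 2 * i) (Y - n - i) := by
      rw [tB_mod (show (n + i) % 6 % 6 = (n % 6 + i) % 6 by omega)]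
      congr 1 <;> ring
    have e2 : tB ((n + i + 1) % 6) (X - 2 * (n + i + 1)) (Y - (n + i + 1)) =
        tB (n % 6 + i + 1) (X - 2 * n - 2 * i - 2) (Y - n - i - 1) := by
      rw [tB_mod (show (n + i + 1) % 6 % 6 = (n % 6 + i + 1) % 6 by omega)]
      congr 1 <;> ring
    rw [e1, e2]
    exact this

/-- The first `k` layers. -/
def layers (n : ℤ) : ℕ → List (ℕ × ℤ × ℤ)
  | 0 => []
  | k + 1 => layers n k ++ layL n k

theorem cnt_layers (n : ℤ) (k : ℕ) (X Y : ℤ) :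
    cnt (layers n k) X Y = sumk (fun i => cnt (layL n i) X Y) k := by
  induction k with
  | zero => rfl
  | succ k ih =>
    unfold layers sumk
    rw [cnt_append, ih]

theorem sumk_congr {f g : ℕ → ℕ} {k : ℕ} (h : ∀ i, i < k → f i = g i) : sumk f k = sumk g k := by
  induction k with
  | zero => rfl
  | succ k ih =>
    unfold sumk
    rw [ih (fun i hi => h i (by omega)), h k (by omega)]

theorem tele {n : ℤ} {k : ℕ} {X Y : ℤ} (h : ∀ i : ℕ, i < k →
    cnt (layL n i) X Y + (bas (n + i) X Y).toNat = (bas (n + i + 1) X Y).toNat) :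
    cnt (layers n k) X Y + (bas n X Y).toNat = (bas (n + k) X Y).toNat := by
  induction k with
  | zero =>
    unfold layers
    rw [cnt_nil, Nat.cast_zero, add_zero, Nat.zero_add]
  | succ k ih =>
    unfold layers
    rw [cnt_append]
    have h1 := ih (fun i hi => h i (by omega))
    have h2 := h k (by omega)
    have e : n + ((k + 1 : ℕ) : ℤ) = n + k + 1 := by push_cast; ring
    rw [e]
    omega

/-- Content of the finite check. -/
structure WideOK (ν : ℤ) (k : ℕ) (ma mb ma' mb' : ℕ) (LA LB : List (ℕ × ℤ × ℤ)) : Prop where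
  sA : ∀ t ∈ LA, t.1 < 64
  sB : ∀ t ∈ LB, t.1 < 64
  rA : ∀ c ∈ lcells LA, c.1 - c.2 < 15 + k
  rB : ∀ c ∈ lcells LB, c.2 - c.1 < 15 + k
  nA : ∀ x y : ℤ, -15 ≤ x → x < 5 + 2 * k → -15 ≤ y → y < 5 + 2 * k →
    cnt LA x y + sumk (fun i => eAw ν i x y) k + (FA ν ma x y).toNat =
      (FA (ν + k) ma' (x - k) (y - 2 * k)).toNat
  nB : ∀ x y : ℤ, -15 ≤ x → x < 5 + 2 * k → -15 ≤ y → y < 5 + 2 * k →
    cnt LB x y + sumk (fun i => eBw ν i x y) k + (FB ν mb x y).toNat =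
      (FB (ν + k) mb' (x - 2 * k) (y - k)).toNat
  oA : ∀ x y : ℤ, ¬(-15 ≤ x ∧ x < 5 + 2 * k ∧ -15 ≤ y ∧ y < 5 + 2 * k) → cnt LA x y = 0
  oB : ∀ x y : ℤ, ¬(-15 ≤ x ∧ x < 5 + 2 * k ∧ -15 ≤ y ∧ y < 5 + 2 * k) → cnt LB x y = 0

/-- All tiles of a wide step in a quadrant. -/
def wideL (n : ℤ) (k : ℕ) (LA LB : List (ℕ × ℤ × ℤ)) : List (ℕ × ℤ × ℤ) :=
  shiftL n (2 * n) LA ++ (shiftL (2 * n) n LB ++ layers n k)

theorem wcntA_zero {k : ℕ} {LA : List (ℕ × ℤ × ℤ)} (hn : 15 + k ≤ n) (sA : ∀ t ∈ LA, t.1 < 64)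
    (rA : ∀ c ∈ lcells LA, c.1 - c.2 < 15 + k) (h : Y ≤ X) :
    cnt (shiftL n (2 * n) LA) X Y = 0 := by
  rw [cnt_shift, cnt_eq sA, List.count_eq_zero]
  intro hm
  have := rA _ hm
  simp only at this
  omega

theorem wcntB_zero {k : ℕ} {LB : List (ℕ × ℤ × ℤ)} (hn : 15 + k ≤ n) (sB : ∀ t ∈ LB, t.1 < 64)
    (rB : ∀ c ∈ lcells LB, c.2 - c.1 < 15 + k) (h : X ≤ Y) :
    cnt (shiftL (2 * n) n LB) X Y = 0 := by
  rw [cnt_shift, cnt_eq sB, List.count_eq_zero]
  intro hm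
  have := rB _ hm
  simp only at this
  omega

theorem fam_bas_a {ma mb : Fin 3 → ℕ} {r : Fin 3} (hX : 0 ≤ X) (h2 : X < Y)
    (hz : ¬(-8 ≤ X - n ∧ X - n < 3 ∧ -8 ≤ Y - 2 * n ∧ Y - 2 * n < 3)) :
    fam n ma mb r X Y = bas n X Y := by
  by_cases h : Y < n
  · rw [fam_sqr hX (by omega) (by omega) h, bas_sqr hX (by omega) (by omega) h]
  · rw [fam_a hX (by omega) h2, bas_a hX (by omega) h2, FA_out hz]

theorem fam_bas_b {ma mb : Fin 3 → ℕ} {r : Fin 3} (hY : 0 ≤ Y) (h2 : Y < X)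
    (hz : ¬(-8 ≤ X - 2 * n ∧ X - 2 * n < 3 ∧ -8 ≤ Y - n ∧ Y - n < 3)) :
    fam n ma mb r X Y = bas n X Y := by
  by_cases h : X < n
  · rw [fam_sqr (by omega) hY h (by omega), bas_sqr (by omega) hY h (by omega)]
  · rw [fam_b hY (by omega) h2, bas_b hY (by omega) h2, FB_out hz]

theorem fam_bas_d {ma mb : Fin 3 → ℕ} {r : Fin 3} (hX : 0 ≤ X) (h2 : X = Y) :
    fam n ma mb r X Y = bas n X Y := by
  by_cases h : X < n
  · rw [fam_sqr hX (by omega) h (by omega), bas_sqr hX (by omega) h (by omega)]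
  · rw [fam_diag (by omega) h2, bas_diag (by omega) h2]

theorem wide_a {k : ℕ} (hk : k ≤ 8) (hn : 15 + k ≤ n) {ma mb ma' mb' : Fin 3 → ℕ}
    {LA LB : List (ℕ × ℤ × ℤ)} {r : Fin 3}
    (S : WideOK (n % 6) k (ma r) (mb r) (ma' r) (mb' r) LA LB) (hX : 0 ≤ X) (h2 : X < Y) :
    cnt (wideL n k LA LB) X Y + (fam n ma mb r X Y).toNat =
      (fam (n + k) ma' mb' r X Y).toNat := by
  unfold wideL
  rw [cnt_append, cnt_append, wcntB_zero hn S.sB S.rB (by omega), Nat.zero_add]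
  by_cases hz : -15 ≤ X - n ∧ X - n < 5 + 2 * k ∧ -15 ≤ Y - 2 * n ∧ Y - 2 * n < 5 + 2 * k
  · rw [cnt_shift, cnt_layers]
    have e : sumk (fun i => cnt (layL n i) X Y) k =
        sumk (fun i => eAw (n % 6) i (X - n) (Y - 2 * n)) k := by
      apply sumk_congr
      intro i hi
      exact lay_eA (by omega) (by omega) hX (by omega) h2
    rw [e, fam_a hX (by omega) h2, fam_a hX (by omega) h2,
      FA_mod (show (n + (k : ℤ)) % 6 % 6 = (n % 6 + k) % 6 by omega)]
    have e5 : X - (n + k) = X - n - k := by ring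
    have e6 : Y - 2 * (n + k) = Y - 2 * n - 2 * k := by ring
    rw [e5, e6]
    exact S.nA _ _ hz.1 hz.2.1 hz.2.2.1 hz.2.2.2
  · rw [cnt_shift, S.oA _ _ hz, Nat.zero_add, fam_bas_a hX h2 (by omega),
      fam_bas_a hX h2 (by omega)]
    apply tele
    intro i hi
    exact lay_a (k := k) (by omega) (by omega) (by omega) (by omega) hX h2 hz

theorem wide_b {k : ℕ} (hk : k ≤ 8) (hn : 15 + k ≤ n) {ma mb ma' mb' : Fin 3 → ℕ}
    {LA LB : List (ℕ × ℤ × ℤ)} {r : Fin 3}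
    (S : WideOK (n % 6) k (ma r) (mb r) (ma' r) (mb' r) LA LB) (hY : 0 ≤ Y) (h2 : Y < X) :
    cnt (wideL n k LA LB) X Y + (fam n ma mb r X Y).toNat =
      (fam (n + k) ma' mb' r X Y).toNat := by
  unfold wideL
  rw [cnt_append, cnt_append, wcntA_zero hn S.sA S.rA (by omega), Nat.zero_add]
  by_cases hz : -15 ≤ X - 2 * n ∧ X - 2 * n < 5 + 2 * k ∧ -15 ≤ Y - n ∧ Y - n < 5 + 2 * k
  · rw [cnt_shift, cnt_layers]
    have e : sumk (fun i => cnt (layL n i) X Y) k =
        sumk (fun i => eBw (n % 6) i (X - 2 * n) (Y - n)) k := by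
      apply sumk_congr
      intro i hi
      exact lay_eB (by omega) (by omega) hY (by omega) h2
    rw [e, fam_b hY (by omega) h2, fam_b hY (by omega) h2,
      FB_mod (show (n + (k : ℤ)) % 6 % 6 = (n % 6 + k) % 6 by omega)]
    have e5 : X - 2 * (n + k) = X - 2 * n - 2 * k := by ring
    have e6 : Y - (n + k) = Y - n - k := by ring
    rw [e5, e6]
    exact S.nB _ _ hz.1 hz.2.1 hz.2.2.1 hz.2.2.2
  · rw [cnt_shift, S.oB _ _ hz, Nat.zero_add, fam_bas_b hY h2 (by omega),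
      fam_bas_b hY h2 (by omega)]
    apply tele
    intro i hi
    exact lay_b (k := k) (by omega) (by omega) (by omega) (by omega) hY h2 hz

theorem wide_d {k : ℕ} (hn : 15 + k ≤ n) {ma mb ma' mb' : Fin 3 → ℕ}
    {LA LB : List (ℕ × ℤ × ℤ)} {r : Fin 3}
    (S : WideOK (n % 6) k (ma r) (mb r) (ma' r) (mb' r) LA LB) (hX : 0 ≤ X) (h2 : X = Y) :
    cnt (wideL n k LA LB) X Y + (fam n ma mb r X Y).toNat =
      (fam (n + k) ma' mb' r X Y).toNat := by
  unfold wideL
  rw [cnt_append, cnt_append, wcntA_zero hn S.sA S.rA (by omega),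
    wcntB_zero hn S.sB S.rB (by omega), Nat.zero_add, Nat.zero_add, fam_bas_d hX h2,
    fam_bas_d hX h2]
  apply tele
  intro i hi
  by_cases h : X < n + i
  · exact lay_sqr (by omega) (by omega) hX (by omega) h (by omega)
  · exact lay_diag (by omega) (by omega) (by omega) h2

theorem layers_zero {k : ℕ} (hn : 15 + k ≤ n) (h : ¬(0 ≤ X ∧ 0 ≤ Y)) :
    cnt (layers n k) X Y = 0 := by
  rw [cnt_layers]
  have : sumk (fun i => cnt (layL n i) X Y) k = sumk (fun _ => 0) k := by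
    apply sumk_congr
    intro i hi
    rw [cnt_lay (by omega) (by omega), if_neg (by omega)]
    rw [if_neg (show ¬(0 ≤ Y - (n + i) ∧ Y - (n + i) < n - i - e2 (n - i) ∧
      LaPat (Y - (n + i)) (X - (n + i))) from by unfold LaPat; omega)]
    rw [if_neg (show ¬(3 ≤ X - (n + i) ∧ X - (n + i) < n - i - e3 (n - i) + 1 ∧
      LbPat (X - (n + i)) (Y - (n + i))) from by unfold LbPat; omega)]
  rw [this]
  induction k with
  | zero => rfl
  | succ k ih =>
    unfold sumk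
    rw [ih (by omega) (by
      apply sumk_congr
      intro i hi
      rw [cnt_lay (by omega) (by omega), if_neg (by omega)]
      rw [if_neg (show ¬(0 ≤ Y - (n + i) ∧ Y - (n + i) < n - i - e2 (n - i) ∧
        LaPat (Y - (n + i)) (X - (n + i))) from by unfold LaPat; omega)]
      rw [if_neg (show ¬(3 ≤ X - (n + i) ∧ X - (n + i) < n - i - e3 (n - i) + 1 ∧
        LbPat (X - (n + i)) (Y - (n + i))) from by unfold LbPat; omega)])]

theorem layers_lt (n : ℤ) (k : ℕ) : ∀ t ∈ layers n k, t.1 < 64 := by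
  induction k with
  | zero => intro t ht; simp [layers] at ht
  | succ k ih =>
    intro t ht
    unfold layers layL DL LaL LbL DaL DbL at ht
    simp only [List.mem_append] at ht
    rcases ht with ht | ht | ht | ht
    · exact ih t ht
    · split_ifs at ht
      · obtain ⟨m, _, rfl⟩ := List.mem_map.1 ht
        norm_num
      · obtain ⟨m, _, rfl⟩ := List.mem_map.1 ht
        norm_num
    · obtain ⟨m, _, rfl⟩ := List.mem_map.1 ht
      norm_num
    · obtain ⟨m, _, rfl⟩ := List.mem_map.1 ht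
      norm_num

/-- A wide step. -/
theorem wide_step {k : ℕ} (hk : k ≤ 8) (hn : 15 + k ≤ n) {ma mb ma' mb' : Fin 3 → ℕ}
    (LA LB : Fin 3 → List (ℕ × ℤ × ℤ))
    (S : ∀ r, WideOK (n % 6) k (ma r) (mb r) (ma' r) (mb' r) (LA r) (LB r)) :
    Ext (shape (fam n ma mb)) (shape (fam (n + k) ma' mb')) := by
  refine ext_step _ _ (fun r => wideL n k (LA r) (LB r)) ?_ ?_ ?_ ?_
  · intro r t ht
    unfold wideL at ht
    simp only [List.mem_append] at ht
    rcases ht with ht | ht | ht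
    · exact shift_lt (S r).sA t ht
    · exact shift_lt (S r).sB t ht
    · exact layers_lt n k t ht
  · intro r X Y h
    have := fam_true h
    exact ⟨this.1, this.2.1⟩
  · intro r X Y hX hY
    rcases lt_trichotomy X Y with h | h | h
    · exact wide_a hk hn (S r) hX h
    · exact wide_d hn (S r) hX h
    · exact wide_b hk hn (S r) hY h
  · intro r X Y h
    show cnt (wideL n k (LA r) (LB r)) X Y = 0
    unfold wideL
    rw [cnt_append, cnt_append, cnt_shift, cnt_shift, (S r).oA _ _ (by omega),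
      (S r).oB _ _ (by omega), layers_zero hn h]

end Pool.Agent.RepCube
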